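import Pool.Agent.LibRk3.MT

open UpperHalfPlane
open scoped MatrixGroups ComplexConjugate

namespace Pool.Agent.LibRk3

section Maps

variable {K : Type*} [Field K]

private theorem blk_eq {u u' : Fin 2 → K} {M M' : Matrix (Fin 2) (Fin 2) K} :
    blk u M = blk u' M' ↔ u = u' ∧ M = M' := by
  constructor
  · intro h
    refine ⟨?_, ?_⟩
    · ext i
      fin_cases i
      · exact congrFun (congrFun h 1) 0
      · exact congrFun (congrFun h 2) 0
    · ext i j
      fin_cases i <;> fin_cases j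
      · exact congrFun (congrFun h 1) 1
      · exact congrFun (congrFun h 1) 2
      · exact congrFun (congrFun h 2) 1
      · exact congrFun (congrFun h 2) 2
  · rintro ⟨rfl, rfl⟩
    rfl

private def blkL (K : Type*) [Field K] :
    ((Fin 2 → K) × Matrix (Fin 2) (Fin 2) K) →ₗ[K] Matrix (Fin 3) (Fin 3) K where
  toFun p := blk p.1 p.2
  map_add' := by
    intro p q
    ext i j
    fin_cases i <;> fin_cases j <;> simp [blk]
  map_smul' := by
    intro a p
    ext i j
    fin_cases i <;> fin_cases j <;> simp [blk]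

private theorem blkL_inj : Function.Injective (blkL K) := by
  rintro ⟨u, M⟩ ⟨u', M'⟩ h
  have := blk_eq.1 h
  simpa using this

private def g1 (K : Type*) [Field K] : (Fin 6 → K) →ₗ[K] Matrix (Fin 3) (Fin 3) K :=
  (blkL K) ∘ₗ
    { toFun := fun x => (![x 0, x 1], !![x 2, x 3; x 4, x 5])
      map_add' := by
        intro x y
        refine Prod.ext ?_ ?_
        · ext i; fin_cases i <;> simp
        · ext i j; fin_cases i <;> fin_cases j <;> simp
      map_smul' := by
        intro a x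
        refine Prod.ext ?_ ?_
        · ext i; fin_cases i <;> simp
        · ext i j; fin_cases i <;> fin_cases j <;> simp }

private def g2 (a b c : K) : (Fin 4 → K) →ₗ[K] Matrix (Fin 3) (Fin 3) K :=
  (blkL K) ∘ₗ
    { toFun := fun x => (![x 0, x 1], !![x 2 - x 3 * b, -(x 3 * c); x 3 * a, x 2])
      map_add' := by
        intro x y
        refine Prod.ext ?_ ?_
        · ext i; fin_cases i <;> simp
        · ext i j; fin_cases i <;> fin_cases j <;> simp <;> ring
      map_smul' := by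
        intro t x
        refine Prod.ext ?_ ?_
        · ext i; fin_cases i <;> simp
        · ext i j; fin_cases i <;> fin_cases j <;> simp <;> ring }

private def g3 (r : Fin 2 → K) : (Fin 4 → K) →ₗ[K] Matrix (Fin 3) (Fin 3) K :=
  (blkL K) ∘ₗ
    { toFun := fun x => (![-(x 0 * r 0 + x 1 * r 1), -(x 2 * r 0 + x 3 * r 1)],
        !![x 0, x 1; x 2, x 3])
      map_add' := by
        intro x y
        refine Prod.ext ?_ ?_
        · ext i; fin_cases i <;> simp <;> ring
        · ext i j; fin_cases i <;> fin_cases j <;> simp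
      map_smul' := by
        intro t x
        refine Prod.ext ?_ ?_
        · ext i; fin_cases i <;> simp <;> ring
        · ext i j; fin_cases i <;> fin_cases j <;> simp }

private def g4 (a b c : K) (r : Fin 2 → K) : (Fin 2 → K) →ₗ[K] Matrix (Fin 3) (Fin 3) K :=
  (blkL K) ∘ₗ
    { toFun := fun x => (![-((x 0 - x 1 * b) * r 0 + -(x 1 * c) * r 1),
          -(x 1 * a * r 0 + x 0 * r 1)],
        !![x 0 - x 1 * b, -(x 1 * c); x 1 * a, x 0])
      map_add' := by
        intro x y
        refine Prod.ext ?_ ?_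
        · ext i; fin_cases i <;> simp <;> ring
        · ext i j; fin_cases i <;> fin_cases j <;> simp <;> ring
      map_smul' := by
        intro t x
        refine Prod.ext ?_ ?_
        · ext i; fin_cases i <;> simp <;> ring
        · ext i j; fin_cases i <;> fin_cases j <;> simp <;> ring }

private def h1 (t : K) (v : Fin 2 → K) : (Fin 3 → K) →ₗ[K] Matrix (Fin 3) (Fin 3) K :=
  (blkL K) ∘ₗ
    { toFun := fun x => (![-(x 0 * v 0 + (t * (x 1 * t + x 2) - x 0 * t) * v 1),
          -(x 1 * v 0 + x 2 * v 1)],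
        !![x 0, t * (x 1 * t + x 2) - x 0 * t; x 1, x 2])
      map_add' := by
        intro x y
        refine Prod.ext ?_ ?_
        · ext i; fin_cases i <;> simp <;> ring
        · ext i j; fin_cases i <;> fin_cases j <;> simp <;> ring
      map_smul' := by
        intro s x
        refine Prod.ext ?_ ?_
        · ext i; fin_cases i <;> simp <;> ring
        · ext i j; fin_cases i <;> fin_cases j <;> simp <;> ring }

private theorem g1_apply (x : Fin 6 → K) :
    g1 K x = blk ![x 0, x 1] !![x 2, x 3; x 4, x 5] := rfl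

private theorem g2_apply (a b c : K) (x : Fin 4 → K) :
    g2 a b c x = blk ![x 0, x 1] !![x 2 - x 3 * b, -(x 3 * c); x 3 * a, x 2] := rfl

private theorem g3_apply (r : Fin 2 → K) (x : Fin 4 → K) :
    g3 r x = blk ![-(x 0 * r 0 + x 1 * r 1), -(x 2 * r 0 + x 3 * r 1)]
        !![x 0, x 1; x 2, x 3] := rfl

private theorem g4_apply (a b c : K) (r : Fin 2 → K) (x : Fin 2 → K) :
    g4 a b c r x = blk ![-((x 0 - x 1 * b) * r 0 + -(x 1 * c) * r 1),
          -(x 1 * a * r 0 + x 0 * r 1)]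
        !![x 0 - x 1 * b, -(x 1 * c); x 1 * a, x 0] := rfl

private theorem h1_apply (t : K) (v : Fin 2 → K) (x : Fin 3 → K) :
    h1 t v x = blk ![-(x 0 * v 0 + (t * (x 1 * t + x 2) - x 0 * t) * v 1),
          -(x 1 * v 0 + x 2 * v 1)]
        !![x 0, t * (x 1 * t + x 2) - x 0 * t; x 1, x 2] := rfl

private theorem g1_inj : Function.Injective (g1 K) := by
  rw [injective_iff_map_eq_zero]
  intro x hx
  rw [g1_apply] at hx
  have e : ∀ i j, (blk ![x 0, x 1] !![x 2, x 3; x 4, x 5]) i j = 0 := by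
    intro i j; rw [hx]; rfl
  ext i
  fin_cases i
  · simpa [blk] using e 1 0
  · simpa [blk] using e 2 0
  · simpa [blk] using e 1 1
  · simpa [blk] using e 1 2
  · simpa [blk] using e 2 1
  · simpa [blk] using e 2 2

private theorem g2_inj {a : K} (ha : a ≠ 0) (b c : K) : Function.Injective (g2 a b c) := by
  rw [injective_iff_map_eq_zero]
  intro x hx
  rw [g2_apply] at hx
  have e : ∀ i j, (blk ![x 0, x 1] !![x 2 - x 3 * b, -(x 3 * c); x 3 * a, x 2]) i j = 0 := by
    intro i j; rw [hx]; rfl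
  ext i
  fin_cases i
  · simpa [blk] using e 1 0
  · simpa [blk] using e 2 0
  · simpa [blk] using e 2 2
  · simpa [blk, ha] using e 2 1

private theorem g3_inj (r : Fin 2 → K) : Function.Injective (g3 r) := by
  rw [injective_iff_map_eq_zero]
  intro x hx
  rw [g3_apply] at hx
  have e : ∀ i j, (blk ![-(x 0 * r 0 + x 1 * r 1), -(x 2 * r 0 + x 3 * r 1)]
        !![x 0, x 1; x 2, x 3]) i j = 0 := by
    intro i j; rw [hx]; rfl
  ext i
  fin_cases i
  · simpa [blk] using e 1 1
  · simpa [blk] using e 1 2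
  · simpa [blk] using e 2 1
  · simpa [blk] using e 2 2

private theorem g4_inj {a : K} (ha : a ≠ 0) (b c : K) (r : Fin 2 → K) :
    Function.Injective (g4 a b c r) := by
  rw [injective_iff_map_eq_zero]
  intro x hx
  rw [g4_apply] at hx
  have e : ∀ i j, (blk ![-((x 0 - x 1 * b) * r 0 + -(x 1 * c) * r 1),
          -(x 1 * a * r 0 + x 0 * r 1)]
        !![x 0 - x 1 * b, -(x 1 * c); x 1 * a, x 0]) i j = 0 := by
    intro i j; rw [hx]; rfl
  ext i
  fin_cases i
  · simpa [blk] using e 2 2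
  · simpa [blk, ha] using e 2 1

private theorem h1_inj (t : K) (v : Fin 2 → K) : Function.Injective (h1 t v) := by
  rw [injective_iff_map_eq_zero]
  intro x hx
  rw [h1_apply] at hx
  have e : ∀ i j, (blk ![-(x 0 * v 0 + (t * (x 1 * t + x 2) - x 0 * t) * v 1),
          -(x 1 * v 0 + x 2 * v 1)]
        !![x 0, t * (x 1 * t + x 2) - x 0 * t; x 1, x 2]) i j = 0 := by
    intro i j; rw [hx]; rfl
  ext i
  fin_cases i
  · simpa [blk] using e 1 1
  · simpa [blk] using e 2 1
  · simpa [blk] using e 2 2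

private theorem finrank_of {n : ℕ} {S : Submodule K (Matrix (Fin 3) (Fin 3) K)}
    (f : (Fin n → K) →ₗ[K] Matrix (Fin 3) (Fin 3) K) (hf : Function.Injective f)
    (h : S = LinearMap.range f) : Module.finrank K S = n := by
  rw [h, LinearMap.finrank_range_of_inj hf, Module.finrank_fin_fun]

end Maps

private theorem cplx_range {n : ℕ} (f : (Fin n → ℚ) →ₗ[ℚ] Matrix (Fin 3) (Fin 3) ℚ)
    (F : (Fin n → ℂ) →ₗ[ℂ] Matrix (Fin 3) (Fin 3) ℂ)
    (h : ∀ x : Fin n → ℚ, F (fun i => (x i : ℂ)) = (f x).map (algebraMap ℚ ℂ)) :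
    cplx (LinearMap.range f) = LinearMap.range F := by
  apply le_antisymm
  · rw [cplx, Submodule.span_le]
    rintro _ ⟨_, ⟨x, rfl⟩, rfl⟩
    exact ⟨fun i => (x i : ℂ), h x⟩
  · rintro _ ⟨y, rfl⟩
    have hy : y = ∑ i, y i • (fun j => (((Pi.single i (1 : ℚ) : Fin n → ℚ) j : ℚ) : ℂ)) := by
      ext j
      simp only [Finset.sum_apply, Pi.smul_apply, smul_eq_mul]
      rw [Finset.sum_eq_single j]
      · simp
      · intro i _ hij
        simp [Pi.single_apply, Ne.symm hij]
      · simp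
    rw [hy, map_sum]
    refine Submodule.sum_mem _ fun i _ => ?_
    rw [map_smul, h]
    exact Submodule.smul_mem _ _ (Submodule.subset_span ⟨_, ⟨_, rfl⟩, rfl⟩)

private theorem mem_stab (τ : ℍ) (v u : Fin 2 → ℂ) (M : Matrix (Fin 2) (Fin 2) ℂ) :
    blk u M ∈ stabF τ v ↔ u 0 = -(M 0 0 * v 0 + M 0 1 * v 1) ∧
      u 1 = -(M 1 0 * v 0 + M 1 1 * v 1) ∧
      M 0 0 * τ + M 0 1 = τ * (M 1 0 * τ + M 1 1) := by
  have hx : (blk u M).mulVec ![1, v 0, v 1] =
      ![0, u 0 + (M 0 0 * v 0 + M 0 1 * v 1), u 1 + (M 1 0 * v 0 + M 1 1 * v 1)] := by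
    ext i
    fin_cases i <;> simp [blk, Matrix.mulVec, dotProduct, Fin.sum_univ_three, add_assoc]
  have hy : (blk u M).mulVec ![0, (τ : ℂ), 1] =
      ![0, M 0 0 * τ + M 0 1, M 1 0 * τ + M 1 1] := by
    ext i
    fin_cases i <;> simp [blk, Matrix.mulVec, dotProduct, Fin.sum_univ_three]
  constructor
  · rintro ⟨h0, h1⟩
    have hx' := h0 _ (Submodule.mem_span_singleton_self _)
    rw [hx, F0, Submodule.mem_span_singleton] at hx'
    obtain ⟨t, ht⟩ := hx'
    have t0 : t = 0 := by
      have := congrFun ht 0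
      simpa using this
    have t1 := congrFun ht 1
    have t2 := congrFun ht 2
    simp [t0] at t1 t2
    have hy' := h1 ![0, (τ : ℂ), 1] (Submodule.subset_span (by simp))
    rw [hy, F1, Submodule.mem_span_pair] at hy'
    obtain ⟨s, t, hst⟩ := hy'
    have s0 : s = 0 := by
      have := congrFun hst 0
      simpa using this
    have s1 := congrFun hst 1
    have s2 := congrFun hst 2
    simp [s0] at s1 s2
    refine ⟨?_, ?_, ?_⟩
    · linear_combination -t1
    · linear_combination -t2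
    · rw [← s1, ← s2]; ring
  · rintro ⟨h0, h1, h2⟩
    have hx' : (blk u M).mulVec ![1, v 0, v 1] = 0 := by
      rw [hx, h0, h1]
      ext i
      fin_cases i <;> simp
    have hy' : (blk u M).mulVec ![0, (τ : ℂ), 1] = (M 1 0 * τ + M 1 1) • ![0, (τ : ℂ), 1] := by
      rw [hy, h2]
      ext i
      fin_cases i <;> simp [mul_comm]
    refine ⟨?_, ?_⟩
    · intro x hxm
      rw [F0, Submodule.mem_span_singleton] at hxm
      obtain ⟨t, rfl⟩ := hxm
      rw [Matrix.mulVec_smul, hx', smul_zero]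
      exact Submodule.zero_mem _
    · intro x hxm
      rw [F1, Submodule.mem_span_pair] at hxm
      obtain ⟨s, t, rfl⟩ := hxm
      rw [Matrix.mulVec_add, Matrix.mulVec_smul, Matrix.mulVec_smul, hx', hy', smul_zero,
        zero_add]
      exact Submodule.smul_mem _ _ (Submodule.smul_mem _ _ (Submodule.subset_span (by simp)))

private theorem isRat_of_split {v : Fin 2 → ℂ} (h : IsRat v) :
    ∃ r : Fin 2 → ℚ, ∀ i, v i = r i := h

theorem dims_generic {τ : ℍ} {v : Fin 2 → ℂ} (h1 : ¬ IsCM τ) (h2 : ¬ IsRat v) :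
    Module.finrank ℚ (mtLie τ v) = 6 ∧ domainDim τ v = 3 := by
  have hL : mtLie τ v = LinearMap.range (g1 ℚ) := by
    ext A
    rw [mtLie_generic h1 h2, LinearMap.mem_range]
    constructor
    · rintro ⟨u, M, rfl⟩
      refine ⟨![u 0, u 1, M 0 0, M 0 1, M 1 0, M 1 1], ?_⟩
      rw [g1_apply]
      ext i j
      fin_cases i <;> fin_cases j <;> simp [blk]
    · rintro ⟨x, rfl⟩
      exact ⟨_, _, g1_apply x⟩
  have hC : cplx (mtLie τ v) = LinearMap.range (g1 ℂ) := by
    rw [hL]
    apply cplx_range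
    intro x
    rw [g1_apply, g1_apply]
    ext i j
    fin_cases i <;> fin_cases j <;> simp [blk]
  have hS : cplx (mtLie τ v) ⊓ stabF τ v = LinearMap.range (Pool.Agent.LibRk3.h1 (τ : ℂ) v) := by
    rw [hC]
    ext A
    constructor
    · rintro ⟨⟨x, rfl⟩, hA⟩
      rw [g1_apply] at hA ⊢
      rw [SetLike.mem_coe, mem_stab] at hA
      obtain ⟨e0, e1, e2⟩ := hA
      refine ⟨![x 2, x 4, x 5], ?_⟩
      rw [h1_apply, blk_eq]
      have e3 : x 3 = (τ : ℂ) * (x 4 * τ + x 5) - x 2 * τ := by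
        simp at e2
        linear_combination e2
      refine ⟨?_, ?_⟩
      · ext i
        fin_cases i
        · simp at e0 ⊢
          rw [e0, e3]
        · simp at e1 ⊢
          rw [e1]
      · ext i j
        fin_cases i <;> fin_cases j <;> simp [e3]
    · rintro ⟨x, rfl⟩
      refine ⟨⟨![-(x 0 * v 0 + ((τ : ℂ) * (x 1 * τ + x 2) - x 0 * τ) * v 1),
          -(x 1 * v 0 + x 2 * v 1), x 0, (τ : ℂ) * (x 1 * τ + x 2) - x 0 * τ, x 1, x 2], ?_⟩, ?_⟩
      · rw [g1_apply, h1_apply]
        simp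
      · rw [SetLike.mem_coe, h1_apply, mem_stab]
        refine ⟨?_, ?_, ?_⟩
        · simp
        · simp
        · simp
  refine ⟨finrank_of _ g1_inj hL, ?_⟩
  rw [domainDim, hS, finrank_of _ g1_inj hC, finrank_of _ (h1_inj _ _) rfl]

theorem dims_cm {τ : ℍ} {v : Fin 2 → ℂ} (h1 : IsCM τ) (h2 : ¬ IsRat v) :
    Module.finrank ℚ (mtLie τ v) = 4 ∧ domainDim τ v = 2 := by
  obtain ⟨a, b, c, ha, h1⟩ := h1
  have haq : (a : ℚ) ≠ 0 := by exact_mod_cast ha
  have hac : (a : ℂ) ≠ 0 := by exact_mod_cast ha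
  have hL : mtLie τ v = LinearMap.range (g2 (a : ℚ) b c) := by
    ext A
    rw [mtLie_cm a b c ha h1 h2, LinearMap.mem_range]
    constructor
    · rintro ⟨u, x, y, rfl⟩
      refine ⟨![u 0, u 1, x, y], ?_⟩
      rw [g2_apply]
      ext i j
      fin_cases i <;> fin_cases j <;> simp [blk] <;> ring
    · rintro ⟨x, rfl⟩
      refine ⟨![x 0, x 1], x 2, x 3, ?_⟩
      rw [g2_apply]
      ext i j
      fin_cases i <;> fin_cases j <;> simp [blk] <;> ring
  have hC : cplx (mtLie τ v) = LinearMap.range (g2 (a : ℂ) b c) := by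
    rw [hL]
    apply cplx_range
    intro x
    rw [g2_apply, g2_apply]
    ext i j
    fin_cases i <;> fin_cases j <;> simp [blk]
  have hS : cplx (mtLie τ v) ⊓ stabF τ v = LinearMap.range (g4 (a : ℂ) b c v) := by
    rw [hC]
    ext A
    constructor
    · rintro ⟨⟨x, rfl⟩, hA⟩
      rw [g2_apply] at hA ⊢
      rw [SetLike.mem_coe, mem_stab] at hA
      obtain ⟨e0, e1, e2⟩ := hA
      refine ⟨![x 2, x 3], ?_⟩
      rw [g4_apply, blk_eq]
      refine ⟨?_, ?_⟩
      · ext i
        fin_cases i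
        · simp at e0 ⊢
          rw [e0]
        · simp at e1 ⊢
          rw [e1]
      · ext i j
        fin_cases i <;> fin_cases j <;> simp
    · rintro ⟨x, rfl⟩
      refine ⟨⟨![-((x 0 - x 1 * b) * v 0 + -(x 1 * c) * v 1),
          -(x 1 * a * v 0 + x 0 * v 1), x 0, x 1], ?_⟩, ?_⟩
      · rw [g2_apply, g4_apply]
        simp
      · rw [SetLike.mem_coe, g4_apply, mem_stab]
        refine ⟨?_, ?_, ?_⟩
        · simp
        · simp
        · simp
          linear_combination -(x 1) * h1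
  refine ⟨finrank_of _ (g2_inj haq _ _) hL, ?_⟩
  rw [domainDim, hS, finrank_of _ (g2_inj hac _ _) hC, finrank_of _ (g4_inj hac _ _ _) rfl]

theorem dims_split {τ : ℍ} {v : Fin 2 → ℂ} (h1 : ¬ IsCM τ) (h2 : IsRat v) :
    Module.finrank ℚ (mtLie τ v) = 4 ∧ domainDim τ v = 1 := by
  obtain ⟨r, hr⟩ := h2
  have hL : mtLie τ v = LinearMap.range (g3 r) := by
    ext A
    rw [mtLie_split h1 r hr, LinearMap.mem_range]
    constructor
    · rintro ⟨M, rfl⟩
      refine ⟨![M 0 0, M 0 1, M 1 0, M 1 1], ?_⟩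
      rw [g3_apply]
      ext i j
      fin_cases i <;> fin_cases j <;> simp [blk]
    · rintro ⟨x, rfl⟩
      refine ⟨!![x 0, x 1; x 2, x 3], ?_⟩
      rw [g3_apply, blk_eq]
      refine ⟨?_, rfl⟩
      ext i
      fin_cases i <;> simp [Matrix.vecHead, Matrix.vecTail]
  have hC : cplx (mtLie τ v) = LinearMap.range (g3 v) := by
    rw [hL]
    apply cplx_range
    intro x
    rw [g3_apply, g3_apply]
    ext i j
    fin_cases i <;> fin_cases j <;> simp [blk, hr]
  have hS : cplx (mtLie τ v) ⊓ stabF τ v = LinearMap.range (Pool.Agent.LibRk3.h1 (τ : ℂ) v) := by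
    rw [hC]
    ext A
    constructor
    · rintro ⟨⟨x, rfl⟩, hA⟩
      rw [g3_apply] at hA ⊢
      rw [SetLike.mem_coe, mem_stab] at hA
      obtain ⟨e0, e1, e2⟩ := hA
      have e3 : x 1 = (τ : ℂ) * (x 2 * τ + x 3) - x 0 * τ := by
        simp at e2
        linear_combination e2
      refine ⟨![x 0, x 2, x 3], ?_⟩
      rw [h1_apply, blk_eq]
      refine ⟨?_, ?_⟩
      · ext i
        fin_cases i
        · simp [e3]
        · simp
      · ext i j
        fin_cases i <;> fin_cases j <;> simp [e3]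
    · rintro ⟨x, rfl⟩
      refine ⟨⟨![x 0, (τ : ℂ) * (x 1 * τ + x 2) - x 0 * τ, x 1, x 2], ?_⟩, ?_⟩
      · rw [g3_apply, h1_apply]
        simp
      · rw [SetLike.mem_coe, h1_apply, mem_stab]
        refine ⟨?_, ?_, ?_⟩
        · simp
        · simp
        · simp
  refine ⟨finrank_of _ (g3_inj _) hL, ?_⟩
  rw [domainDim, hS, finrank_of _ (g3_inj _) hC, finrank_of _ (h1_inj _ _) rfl]

theorem dims_cm_split {τ : ℍ} {v : Fin 2 → ℂ} (h1 : IsCM τ) (h2 : IsRat v) :
    Module.finrank ℚ (mtLie τ v) = 2 ∧ domainDim τ v = 0 := by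
  obtain ⟨a, b, c, ha, h1⟩ := h1
  obtain ⟨r, hr⟩ := h2
  have haq : (a : ℚ) ≠ 0 := by exact_mod_cast ha
  have hac : (a : ℂ) ≠ 0 := by exact_mod_cast ha
  have hL : mtLie τ v = LinearMap.range (g4 (a : ℚ) b c r) := by
    ext A
    rw [mtLie_cm_split a b c ha h1 r hr, LinearMap.mem_range]
    constructor
    · rintro ⟨x, y, rfl⟩
      refine ⟨![x, y], ?_⟩
      rw [g4_apply]
      ext i j
      fin_cases i <;> fin_cases j <;>
        simp [blk] <;> first | ring1 | (left; ring1)
    · rintro ⟨x, rfl⟩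
      refine ⟨x 0, x 1, ?_⟩
      rw [g4_apply]
      ext i j
      fin_cases i <;> fin_cases j <;>
        simp [blk] <;> first | ring1 | (left; ring1)
  have hC : cplx (mtLie τ v) = LinearMap.range (g4 (a : ℂ) b c v) := by
    rw [hL]
    apply cplx_range
    intro x
    rw [g4_apply, g4_apply]
    ext i j
    fin_cases i <;> fin_cases j <;> simp [blk, hr]
  have hS : cplx (mtLie τ v) ⊓ stabF τ v = LinearMap.range (g4 (a : ℂ) b c v) := by
    rw [hC, inf_eq_left]
    rintro _ ⟨x, rfl⟩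
    rw [g4_apply, mem_stab]
    refine ⟨?_, ?_, ?_⟩
    · simp
    · simp
    · simp
      linear_combination -(x 1) * h1
  refine ⟨finrank_of _ (g4_inj haq _ _ _) hL, ?_⟩
  rw [domainDim, hS, finrank_of _ (g4_inj hac _ _ _) hC, finrank_of _ (g4_inj hac _ _ _) rfl]

end Pool.Agent.LibRk3
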