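import Mathlib

/-!
# Variations of mixed Hodge structure of rank three with weights 0 and -3 on curves

All definitions used by the statement.
-/

open UpperHalfPlane
open scoped MatrixGroups ComplexConjugate

namespace Pool.Agent.LibRk3

/-- A smooth complex curve `X`, presented as the quotient of the upper half plane by a group `Δ`,
with finitely many punctures: each `σ` in `cusps` carries the horoball `Im z > 1` to a neighbourhood
of a puncture, the translation by `1` corresponding to an element of `Δ`, and the rest of the curve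
is compact. -/
structure Curve where
  /-- The fundamental group of the curve. -/
  Δ : Subgroup SL(2, ℝ)
  /-- The parametrisations of the neighbourhoods of the punctures. -/
  cusps : Finset SL(2, ℝ)
  parabolic : ∀ σ ∈ cusps, ∃ t ∈ Δ, ∀ z : ℍ, t • σ • z = σ • ((1 : ℝ) +ᵥ z)
  finiteType : ∃ K : Set ℍ, IsCompact K ∧ ∀ z : ℍ, ∃ δ ∈ Δ, δ • z ∈ K ∨
    ∃ σ ∈ cusps, ∃ w : ℍ, 1 < w.im ∧ δ • z = σ • w

/-- An admissible variation of mixed Hodge structure of rank three on `X`, an extension of `ℚ(0)` by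
the weight `-3` variation `H¹(E)(2)` of a family of elliptic curves `E` over `X` with nonconstant
period `τ`. In a flat rational basis `e₀, e₁, e₂` of the pull back to the upper half plane, with
`W₋₃ = ⟨e₁, e₂⟩`, the Hodge filtration is `F⁰ = ⟨e₀ + v⟩`, `F⁻¹ = ⟨e₀ + v, τ e₁ + e₂⟩`; an
element `δ` of the fundamental group acts by `e₀ ↦ e₀ + c δ` and by `ρ δ` on `e₁, e₂`. -/
structure Variation (X : Curve) where
  /-- The monodromy on the part of weight `-3`. -/
  ρ : X.Δ →* SL(2, ℤ)
  /-- The monodromy cocycle. -/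
  c : X.Δ → Fin 2 → ℚ
  /-- The period of the elliptic curve. -/
  τ : ℍ → ℍ
  /-- The period of the extension. -/
  v : ℍ → Fin 2 → ℂ
  τ_hol : ∀ z : ℍ, DifferentiableAt ℂ (fun w : ℂ => (τ (ofComplex w) : ℂ)) z
  τ_nonconst : ∃ z w : ℍ, τ z ≠ τ w
  τ_equiv : ∀ (δ : X.Δ) (z : ℍ), τ ((δ : SL(2, ℝ)) • z) = ρ δ • τ z
  v_hol : ∀ (i : Fin 2) (z : ℍ), DifferentiableAt ℂ (fun w : ℂ => v (ofComplex w) i) z
  v_equiv : ∀ (δ : X.Δ) (z : ℍ) (i : Fin 2),
    v ((δ : SL(2, ℝ)) • z) i = ∑ j, (ρ δ i j : ℂ) * v z j + c δ i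
  /-- Griffiths transversality: the derivative of `v` is a multiple of `(τ, 1)`. -/
  transversal : ∀ z : ℍ, deriv (fun w : ℂ => v (ofComplex w) 0) z =
    τ z * deriv (fun w : ℂ => v (ofComplex w) 1) z
  /-- Moderate growth at the punctures. -/
  growth : ∀ σ ∈ X.cusps, ∃ (C : ℝ) (N : ℕ), ∀ (z : ℍ) (i : Fin 2), |z.re| ≤ 1 → 1 ≤ z.im →
    ‖v (σ • z) i‖ ≤ C * z.im ^ N

/-- The columns span the Deligne components `I^{0,0}`, `I^{-1,-2}`, `I^{-2,-1}` of the mixed
Hodge structure with periods `τ`, `v`, in the rational basis. -/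
noncomputable def deligneBasis (τ : ℍ) (v : Fin 2 → ℂ) : Matrix (Fin 3) (Fin 3) ℂ :=
  !![1, 0, 0; v 0, τ, conj (τ : ℂ); v 1, 1, 1]

/-- The operator acting as multiplication by `p` on `I^{p,q}`. -/
noncomputable def opP (τ : ℍ) (v : Fin 2 → ℂ) : Matrix (Fin 3) (Fin 3) ℂ :=
  deligneBasis τ v * Matrix.diagonal ![0, -1, -2] * (deligneBasis τ v)⁻¹

/-- The operator acting as multiplication by `q` on `I^{p,q}`. -/
noncomputable def opQ (τ : ℍ) (v : Fin 2 → ℂ) : Matrix (Fin 3) (Fin 3) ℂ :=
  deligneBasis τ v * Matrix.diagonal ![0, -2, -1] * (deligneBasis τ v)⁻¹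

/-- The complexification of a rational space of matrices. -/
def cplx (L : Submodule ℚ (Matrix (Fin 3) (Fin 3) ℚ)) :
    Submodule ℂ (Matrix (Fin 3) (Fin 3) ℂ) :=
  Submodule.span ℂ ((fun M : Matrix (Fin 3) (Fin 3) ℚ => M.map (algebraMap ℚ ℂ)) '' (L : Set _))

/-- The Lie algebra of the Mumford-Tate group: the smallest rational space of matrices that is
closed under the commutator and whose complexification contains the two operators, i.e. the Lie
algebra of the image of the Deligne torus. -/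
noncomputable def mtLie (τ : ℍ) (v : Fin 2 → ℂ) : Submodule ℚ (Matrix (Fin 3) (Fin 3) ℚ) :=
  sInf {L | (∀ A ∈ L, ∀ B ∈ L, A * B - B * A ∈ L) ∧ opP τ v ∈ cplx L ∧ opQ τ v ∈ cplx L}

/-- The step `F⁰` of the Hodge filtration. -/
def F0 (v : Fin 2 → ℂ) : Submodule ℂ (Fin 3 → ℂ) := Submodule.span ℂ {![1, v 0, v 1]}

/-- The step `F⁻¹` of the Hodge filtration. -/
def F1 (τ : ℍ) (v : Fin 2 → ℂ) : Submodule ℂ (Fin 3 → ℂ) :=
  Submodule.span ℂ {![1, v 0, v 1], ![0, (τ : ℂ), 1]}

/-- The matrices preserving the Hodge filtration. -/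
def stabF (τ : ℍ) (v : Fin 2 → ℂ) : Submodule ℂ (Matrix (Fin 3) (Fin 3) ℂ) where
  carrier := {A | (∀ x ∈ F0 v, A.mulVec x ∈ F0 v) ∧ ∀ x ∈ F1 τ v, A.mulVec x ∈ F1 τ v}
  add_mem' := by
    rintro A B ⟨h1, h2⟩ ⟨h3, h4⟩
    refine ⟨fun x hx => ?_, fun x hx => ?_⟩
    · rw [Matrix.add_mulVec]; exact Submodule.add_mem _ (h1 x hx) (h3 x hx)
    · rw [Matrix.add_mulVec]; exact Submodule.add_mem _ (h2 x hx) (h4 x hx)
  zero_mem' := by
    refine ⟨fun x _ => ?_, fun x _ => ?_⟩
    · rw [Matrix.zero_mulVec]; exact Submodule.zero_mem _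
    · rw [Matrix.zero_mulVec]; exact Submodule.zero_mem _
  smul_mem' := by
    rintro a A ⟨h1, h2⟩
    refine ⟨fun x hx => ?_, fun x hx => ?_⟩
    · rw [Matrix.smul_mulVec]; exact Submodule.smul_mem _ _ (h1 x hx)
    · rw [Matrix.smul_mulVec]; exact Submodule.smul_mem _ _ (h2 x hx)

/-- The dimension of the Mumford-Tate domain of the mixed Hodge structure: the dimension of the
quotient of the complexified Lie algebra of the Mumford-Tate group by the subalgebra preserving the
Hodge filtration. -/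
noncomputable def domainDim (τ : ℍ) (v : Fin 2 → ℂ) : ℕ :=
  Module.finrank ℂ (cplx (mtLie τ v)) -
    Module.finrank ℂ (cplx (mtLie τ v) ⊓ stabF τ v : Submodule ℂ (Matrix (Fin 3) (Fin 3) ℂ))

namespace Variation

variable {X : Curve} (V : Variation X)

/-- The dimension of the Mumford-Tate group of the fibre at `z`. -/
noncomputable def mtDim (z : ℍ) : ℕ := Module.finrank ℚ (mtLie (V.τ z) (V.v z))

/-- The dimension of the generic Mumford-Tate group. -/
noncomputable def genericMtDim : ℕ := ⨆ z : ℍ, V.mtDim z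

/-- The dimension of the Mumford-Tate domain of the fibre at `z`. -/
noncomputable def domDim (z : ℍ) : ℕ := domainDim (V.τ z) (V.v z)

/-- The dimension of the generic Mumford-Tate domain. -/
noncomputable def genericDomDim : ℕ := ⨆ z : ℍ, V.domDim z

/-- The Hodge locus (as a subset of the upper half plane invariant under `Δ`). -/
def hodgeLocus : Set ℍ := {z | V.mtDim z < V.genericMtDim}

/-- The atypical locus: the special points for which the codimension of the Mumford-Tate domain in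
the generic one is not `1`, the codimension of the point in the image of the period map. -/
def atypicalLocus : Set ℍ := {z | z ∈ V.hodgeLocus ∧ V.genericDomDim - V.domDim z ≠ 1}

/-- The variation splits over `ℚ`. -/
def Split : Prop := ∃ r : Fin 2 → ℚ, ∀ (z : ℍ) (i : Fin 2), V.v z i = r i

end Variation

/-- Complex multiplication. -/
def IsCM (τ : ℍ) : Prop := ∃ a b c : ℤ, a ≠ 0 ∧ (a : ℂ) * (τ : ℂ) ^ 2 + b * (τ : ℂ) + c = 0

/-- The extension with period `v` splits over `ℚ`. -/
def IsRat (v : Fin 2 → ℂ) : Prop := ∃ r : Fin 2 → ℚ, ∀ i, v i = r i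

end Pool.Agent.LibRk3
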