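import Mathlib

open scoped MatrixGroups

namespace Pool.Agent.LibRk3

private theorem pow_twelve_of (A : Matrix (Fin 2) (Fin 2) ℤ) (l : Fin 2 → ℤ)
    (h : Matrix.vecMul l A = l ∨ Matrix.vecMul l A = -l) : Matrix.vecMul l (A ^ 12) = l := by
  have h2 : Matrix.vecMul l (A ^ 2) = l := by
    rw [pow_two, ← Matrix.vecMul_vecMul]
    rcases h with h | h
    · rw [h, h]
    · rw [h, Matrix.neg_vecMul, h, neg_neg]
  have h4 : Matrix.vecMul l (A ^ 4) = l := by
    rw [show (4 : ℕ) = 2 + 2 by norm_num, pow_add, ← Matrix.vecMul_vecMul, h2, h2]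
  rw [show (12 : ℕ) = 4 + 4 + 4 by norm_num, pow_add, pow_add, ← Matrix.vecMul_vecMul,
    ← Matrix.vecMul_vecMul, h4, h4, h4]

/-- A power of an elliptic or parabolic element has a fixed row vector. -/
theorem exists_left_fixed (M : SL(2, ℤ)) (h : (M 0 0 + M 1 1) ^ 2 ≤ 4) :
    ∃ l : Fin 2 → ℤ, l ≠ 0 ∧ Matrix.vecMul l ((M ^ 12 : SL(2, ℤ)) : Matrix (Fin 2) (Fin 2) ℤ) = l := by
  set A : Matrix (Fin 2) (Fin 2) ℤ := (M : Matrix (Fin 2) (Fin 2) ℤ) with hA
  have hcoe : ((M ^ 12 : SL(2, ℤ)) : Matrix (Fin 2) (Fin 2) ℤ) = A ^ 12 := by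
    rw [Matrix.SpecialLinearGroup.coe_pow]
  have hdet : A 0 0 * A 1 1 - A 0 1 * A 1 0 = 1 := by
    have := M.det_coe
    rwa [Matrix.det_fin_two] at this
  -- Cayley-Hamilton
  have hCH : A ^ 2 = (A 0 0 + A 1 1) • A - 1 := by
    rw [pow_two]
    ext i j
    rw [Matrix.sub_apply, Matrix.smul_apply, smul_eq_mul, Matrix.mul_apply, Fin.sum_univ_two]
    fin_cases i <;> fin_cases j
    · change A 0 0 * A 0 0 + A 0 1 * A 1 0 = (A 0 0 + A 1 1) * A 0 0 - 1
      linear_combination -hdet
    · change A 0 0 * A 0 1 + A 0 1 * A 1 1 = (A 0 0 + A 1 1) * A 0 1 - 0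
      ring
    · change A 1 0 * A 0 0 + A 1 1 * A 1 0 = (A 0 0 + A 1 1) * A 1 0 - 0
      ring
    · change A 1 0 * A 0 1 + A 1 1 * A 1 1 = (A 0 0 + A 1 1) * A 1 1 - 1
      linear_combination -hdet
  have htr : A 0 0 + A 1 1 = -2 ∨ A 0 0 + A 1 1 = -1 ∨ A 0 0 + A 1 1 = 0 ∨ A 0 0 + A 1 1 = 1 ∨
      A 0 0 + A 1 1 = 2 := by
    have h' : (A 0 0 + A 1 1) ^ 2 ≤ 4 := h
    have h1 : A 0 0 + A 1 1 ≤ 2 := by nlinarith
    have h2 : -2 ≤ A 0 0 + A 1 1 := by nlinarith
    omega
  rw [hcoe]
  have hone : (![1, 0] : Fin 2 → ℤ) ≠ 0 := by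
    intro h
    have := congrFun h 0
    simp at this
  have hfin : A ^ 12 = 1 → ∃ l : Fin 2 → ℤ, l ≠ 0 ∧ Matrix.vecMul l (A ^ 12) = l := by
    intro h12
    exact ⟨![1, 0], hone, by rw [h12, Matrix.vecMul_one]⟩
  rcases htr with ht | ht | ht | ht | ht
  · -- trace -2
    by_cases hz : A 1 0 = 0 ∧ A 0 0 + 1 = 0
    · refine ⟨![0, 1], ?_, ?_⟩
      · intro h
        have := congrFun h 1
        simp at this
      · apply pow_twelve_of
        right
        ext j
        fin_cases j
        · simp [Matrix.vecMul, dotProduct, Fin.sum_univ_two, hz.1]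
        · simp [Matrix.vecMul, dotProduct, Fin.sum_univ_two]
          linarith [hz.2]
    · refine ⟨![A 1 0, -(A 0 0 + 1)], ?_, ?_⟩
      · intro h0
        apply hz
        have e0 := congrFun h0 0
        have e1 := congrFun h0 1
        simp at e0 e1
        exact ⟨e0, by linarith⟩
      · apply pow_twelve_of
        right
        ext j
        fin_cases j
        · simp [Matrix.vecMul, dotProduct, Fin.sum_univ_two]
          ring
        · simp [Matrix.vecMul, dotProduct, Fin.sum_univ_two]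
          have h11 : A 1 1 = -2 - A 0 0 := by linarith
          rw [h11] at hdet ⊢
          linear_combination -hdet
  · apply hfin
    have h2 : A ^ 2 = -A - 1 := by rw [hCH, ht]; simp
    have h3 : A ^ 3 = 1 := by
      rw [pow_succ, h2, sub_mul, neg_mul, ← pow_two, h2]
      simp
    rw [show (12 : ℕ) = 3 * 4 by norm_num, pow_mul, h3, one_pow]
  · apply hfin
    have h2 : A ^ 2 = -1 := by rw [hCH, ht]; simp
    rw [show (12 : ℕ) = 2 * 6 by norm_num, pow_mul, h2]
    exact Even.neg_one_pow (by decide)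
  · apply hfin
    have h2 : A ^ 2 = A - 1 := by rw [hCH, ht]; simp
    have h3 : A ^ 3 = -1 := by
      rw [pow_succ, h2, sub_mul, ← pow_two, h2]
      simp
    rw [show (12 : ℕ) = 3 * 4 by norm_num, pow_mul, h3]
    exact Even.neg_one_pow (by decide)
  · -- trace 2
    by_cases hz : A 1 0 = 0 ∧ A 0 0 - 1 = 0
    · refine ⟨![0, 1], ?_, ?_⟩
      · intro h
        have := congrFun h 1
        simp at this
      · apply pow_twelve_of
        left
        ext j
        fin_cases j
        · simp [Matrix.vecMul, dotProduct, Fin.sum_univ_two, hz.1]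
        · simp [Matrix.vecMul, dotProduct, Fin.sum_univ_two]
          linarith [hz.2]
    · refine ⟨![A 1 0, -(A 0 0 - 1)], ?_, ?_⟩
      · intro h0
        apply hz
        have e0 := congrFun h0 0
        have e1 := congrFun h0 1
        simp at e0 e1
        exact ⟨e0, by linarith⟩
      · apply pow_twelve_of
        left
        ext j
        fin_cases j
        · simp [Matrix.vecMul, dotProduct, Fin.sum_univ_two]
          ring
        · simp [Matrix.vecMul, dotProduct, Fin.sum_univ_two]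
          have h11 : A 1 1 = 2 - A 0 0 := by linarith
          rw [h11] at hdet ⊢
          linear_combination -hdet

end Pool.Agent.LibRk3
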