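import Mathlib

open Complex

namespace Pool.Agent.LibRk3

open Filter Topology Function.Periodic in
/-- A periodic holomorphic function of moderate growth is a holomorphic function of
`q = exp(2πiz)`, also at `q = 0`. -/
theorem exists_of_periodic {f : ℂ → ℂ} (hf : ∀ z : ℂ, 0 < z.im → DifferentiableAt ℂ f z)
    (hper : ∀ z : ℂ, 0 < z.im → f (z + 1) = f z) (C : ℝ) (N : ℕ)
    (hg : ∀ z : ℂ, |z.re| ≤ 1 → 1 ≤ z.im → ‖f z‖ ≤ C * z.im ^ N) :
    ∃ F : ℂ → ℂ, DifferentiableOn ℂ F (Metric.ball 0 1) ∧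
      ∀ z : ℂ, 0 < z.im → f z = F (exp (2 * Real.pi * I * z)) := by
  classical
  obtain ⟨g, hgdef⟩ : ∃ g : ℂ → ℂ, g = fun z => if 0 < z.im then f z else 0 := ⟨_, rfl⟩
  have hgf : ∀ z : ℂ, 0 < z.im → g z = f z := by
    intro z hz
    rw [hgdef]
    exact if_pos hz
  have hgper : Function.Periodic g (1 : ℝ) := by
    intro z
    rw [hgdef]
    by_cases hz : 0 < z.im
    · have h1 : 0 < (z + ((1 : ℝ) : ℂ)).im := by simpa using hz
      simp only [if_pos h1, if_pos hz]
      simpa using hper z hz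
    · have h1 : ¬ 0 < (z + ((1 : ℝ) : ℂ)).im := by simpa using hz
      simp only [if_neg h1, if_neg hz]
  have hgdiff : ∀ z : ℂ, 0 < z.im → DifferentiableAt ℂ g z := by
    intro z hz
    refine (hf z hz).congr_of_eventuallyEq ?_
    filter_upwards [(isOpen_lt continuous_const continuous_im).mem_nhds hz] with w hw
    exact hgf w hw
  have hqper : ∀ z : ℂ, qParam 1 (z + ((1 : ℝ) : ℂ)) = qParam 1 z := by
    intro z
    unfold qParam
    have h1 : 2 * (Real.pi : ℂ) * I * (z + ((1 : ℝ) : ℂ)) / ((1 : ℝ) : ℂ) =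
        2 * (Real.pi : ℂ) * I * z / ((1 : ℝ) : ℂ) + 2 * (Real.pi : ℂ) * I := by
      push_cast
      ring
    rw [h1, exp_add, exp_two_pi_mul_I, mul_one]
  obtain ⟨G, hGdef⟩ : ∃ G : ℂ → ℂ, G = fun z => qParam 1 z * g z := ⟨_, rfl⟩
  have hGper : Function.Periodic G (1 : ℝ) := by
    intro z
    rw [hGdef]
    simp only [hqper z, hgper z]
  have hGdiff : ∀ z : ℂ, 0 < z.im → DifferentiableAt ℂ G z := by
    intro z hz
    rw [hGdef]
    exact (differentiable_qParam z).mul (hgdiff z hz)
  have hbound : ∀ z : ℂ, 1 ≤ z.im → ‖g z‖ ≤ |C| * z.im ^ N := by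
    intro z hz
    have h1 : g (z - (⌊z.re⌋ : ℤ)) = g z := by
      have := hgper.sub_int_mul_eq (x := z) ⌊z.re⌋
      simpa using this
    have h2 : (z - (⌊z.re⌋ : ℤ)).im = z.im := by simp
    have h3 : (z - (⌊z.re⌋ : ℤ)).re = z.re - ⌊z.re⌋ := by simp
    rw [← h1, hgf _ (by rw [h2]; linarith)]
    refine (hg _ ?_ (by rw [h2]; exact hz)).trans ?_
    · rw [h3, abs_le]
      have := Int.floor_le z.re
      have := Int.lt_floor_add_one z.re
      constructor <;> linarith
    · rw [h2]
      exact mul_le_mul_of_nonneg_right (le_abs_self C) (by positivity)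
  have hzero : ZeroAtFilter (comap im atTop) G := by
    unfold ZeroAtFilter
    have h1 : Tendsto (fun y : ℝ => |C| * (y ^ N * Real.exp (-y))) atTop (𝓝 0) := by
      simpa using (Real.tendsto_pow_mul_exp_neg_atTop_nhds_zero N).const_mul |C|
    have h2 : Tendsto (fun z : ℂ => |C| * (z.im ^ N * Real.exp (-z.im))) (comap im atTop)
        (𝓝 0) := h1.comp tendsto_comap
    refine squeeze_zero_norm' ?_ h2
    have h3 : ∀ᶠ z in comap im atTop, 1 ≤ z.im :=
      (tendsto_comap (f := im) (x := atTop)).eventually (eventually_ge_atTop (1 : ℝ))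
    filter_upwards [h3] with z hz
    rw [hGdef]
    simp only [norm_mul, norm_qParam]
    have h4 : Real.exp (-2 * Real.pi * z.im / 1) ≤ Real.exp (-z.im) := by
      apply Real.exp_le_exp.2
      have := Real.pi_gt_three
      nlinarith
    calc Real.exp (-2 * Real.pi * z.im / 1) * ‖g z‖
        ≤ Real.exp (-z.im) * (|C| * z.im ^ N) :=
          mul_le_mul h4 (hbound z hz) (norm_nonneg _) (Real.exp_pos _).le
      _ = |C| * (z.im ^ N * Real.exp (-z.im)) := by ring
  have hev : ∀ᶠ z in comap im atTop, DifferentiableAt ℂ G z := by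
    have h3 : ∀ᶠ z in comap im atTop, 1 ≤ z.im :=
      (tendsto_comap (f := im) (x := atTop)).eventually (eventually_ge_atTop (1 : ℝ))
    filter_upwards [h3] with z hz
    exact hGdiff z (by linarith)
  have h0 : cuspFunction 1 G 0 = 0 := cuspFunction_zero_of_zero_at_inf one_pos hzero
  have hd0 : DifferentiableAt ℂ (cuspFunction 1 G) 0 :=
    differentiableAt_cuspFunction_zero one_pos hGper hev hzero.boundedAtFilter
  have hdon : DifferentiableOn ℂ (cuspFunction 1 G) (Metric.ball 0 1) := by
    intro q hq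
    apply DifferentiableAt.differentiableWithinAt
    by_cases hq0 : q = 0
    · rw [hq0]; exact hd0
    · have h1 := differentiableAt_cuspFunction (h := 1) one_ne_zero hGper
        (z := invQParam 1 q) (hGdiff _ (by
          rw [im_invQParam]
          have h2 : Real.log ‖q‖ < 0 := Real.log_neg (norm_pos_iff.2 hq0) (by simpa using hq)
          have h3 : (-1 : ℝ) / (2 * Real.pi) < 0 :=
            div_neg_of_neg_of_pos (by norm_num) (by positivity)
          exact mul_pos_of_neg_of_neg h3 h2))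
      rwa [qParam_right_inv one_ne_zero hq0] at h1
  refine ⟨dslope (cuspFunction 1 G) 0, ?_, ?_⟩
  · exact (differentiableOn_dslope (Metric.ball_mem_nhds 0 one_pos)).2 hdon
  · intro z hz
    have h1 : exp (2 * Real.pi * I * z) = qParam 1 z := by
      unfold qParam
      simp
    rw [h1, dslope_of_ne _ (qParam_ne_zero z), slope_def_field, h0,
      eq_cuspFunction one_ne_zero hGper, hGdef]
    simp only [sub_zero]
    rw [mul_div_cancel_left₀ _ (qParam_ne_zero z), hgf z hz]

end Pool.Agent.LibRk3
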