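import Pool.Agent.LibRk3.SchwarzB
import Pool.Agent.LibRk3.PerGrowth

open Complex

namespace Pool.Agent.LibRk3

private theorem Cusp_norm_q (z : ℂ) :
    ‖exp (2 * Real.pi * I * z)‖ = Real.exp (-(2 * Real.pi * z.im)) := by
  rw [Complex.norm_exp]
  congr 1
  simp

/-- The order of a nonconstant holomorphic function at `0`. -/
private theorem Cusp_local_order {F : ℂ → ℂ} (hF : DifferentiableOn ℂ F (Metric.ball 0 1))
    (hne : ¬ ∀ q ∈ Metric.ball (0 : ℂ) 1, F q = F 0) :
    ∃ (n : ℕ) (m0 M0 δ : ℝ), 1 ≤ n ∧ 0 < m0 ∧ 0 < M0 ∧ 0 < δ ∧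
      ∀ q : ℂ, ‖q‖ < δ → m0 * ‖q‖ ^ n ≤ ‖F q - F 0‖ ∧ ‖F q - F 0‖ ≤ M0 * ‖q‖ ^ n := by
  have hA : AnalyticOnNhd ℂ F (Metric.ball 0 1) := hF.analyticOnNhd Metric.isOpen_ball
  have h0 : (0 : ℂ) ∈ Metric.ball (0 : ℂ) 1 := by simp
  have hG : AnalyticAt ℂ (fun q => F q - F 0) 0 := (hA 0 h0).sub analyticAt_const
  have hnz : ¬ ∀ᶠ q in nhds (0 : ℂ), F q - F 0 = 0 := by
    intro h
    apply hne
    have := hA.eqOn_of_preconnected_of_eventuallyEq (analyticOnNhd_const (v := F 0))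
      (convex_ball _ _).isPreconnected h0 (h.mono fun q hq => sub_eq_zero.mp hq)
    exact fun q hq => this hq
  obtain ⟨n, g, hg, hg0, hgE⟩ := (hG.exists_eventuallyEq_pow_smul_nonzero_iff).2 hnz
  have hg0' : 0 < ‖g 0‖ := norm_pos_iff.mpr hg0
  have hc : ContinuousAt (fun q => ‖g q‖) 0 := hg.continuousAt.norm
  have h1 : ∀ᶠ q in nhds (0 : ℂ), ‖g 0‖ / 2 < ‖g q‖ :=
    hc.eventually (lt_mem_nhds (by linarith : ‖g 0‖ / 2 < ‖g 0‖))
  have h2 : ∀ᶠ q in nhds (0 : ℂ), ‖g q‖ < 2 * ‖g 0‖ :=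
    hc.eventually (gt_mem_nhds (by linarith : ‖g 0‖ < 2 * ‖g 0‖))
  obtain ⟨δ, hδ, hball⟩ := Metric.eventually_nhds_iff.1 (hgE.and (h1.and h2))
  refine ⟨n, ‖g 0‖ / 2, 2 * ‖g 0‖, δ, ?_, by positivity, by positivity, hδ, ?_⟩
  · by_contra hn
    have hn0 : n = 0 := by omega
    have := (hball (y := 0) (by simpa using hδ)).1
    rw [hn0] at this
    simp at this
    exact hg0 this.symm
  · intro q hq
    obtain ⟨e1, e2, e3⟩ := hball (y := q) (by simpa using hq)
    rw [e1, sub_zero, norm_smul, norm_pow]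
    constructor
    · rw [mul_comm]
      exact mul_le_mul_of_nonneg_left e2.le (by positivity)
    · rw [mul_comm]
      exact mul_le_mul_of_nonneg_right e3.le (by positivity)

/-- Vertical estimate. -/
private theorem Cusp_vert {T R R' : ℂ → ℂ} {y0 M κ : ℝ} (hy0 : 0 < y0) (hM : 0 ≤ M) (hκ : 0 < κ)
    (hanti : ∀ x : ℝ, AntitoneOn (fun t : ℝ => (T (x + t * I)).im / t) (Set.Ioi 0))
    (hR : ∀ z : ℂ, 0 < z.im → HasDerivAt R (R' z) z)
    (hb : ∀ z : ℂ, y0 ≤ z.im → ‖R' z‖ ≤ (T z).im / z.im * (M * Real.exp (-(κ * z.im))))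
    (x y y' : ℝ) (hy : y0 ≤ y) (hyy : y ≤ y') :
    ‖R (x + y' * I) - R (x + y * I)‖ ≤
      (T (x + y * I)).im / y * (M / κ) * Real.exp (-(κ * y)) := by
  set K : ℝ := (T (x + y * I)).im / y * (M / κ) with hK
  have hd : ∀ t : ℝ, 0 < t →
      HasDerivAt (fun t : ℝ => R (x + t * I) - R (x + y * I)) (R' (x + t * I) * I) t := by
    intro t ht
    have h1 : HasDerivAt (fun t : ℝ => (x : ℂ) + (t : ℂ) * I) I t := by
      have := ((Complex.ofRealCLM.hasDerivAt (x := t)).mul_const I).const_add (x : ℂ)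
      simpa using this
    have h2 : HasDerivAt R (R' (x + t * I)) ((x : ℂ) + (t : ℂ) * I) := hR _ (by simpa using ht)
    exact (h2.comp t h1).sub_const _
  have hypos : 0 < y := lt_of_lt_of_le hy0 hy
  have hB : ∀ t : ℝ, HasDerivAt (fun t : ℝ => K * (Real.exp (-(κ * y)) - Real.exp (-(κ * t))))
      (K * (κ * Real.exp (-(κ * t)))) t := by
    intro t
    have h1 : HasDerivAt (fun t : ℝ => -(κ * t)) (-κ) t := by
      have h := (hasDerivAt_mul_const (-κ) (x := t))
      have e : (fun t : ℝ => -(κ * t)) = fun t : ℝ => t * (-κ) := by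
        funext u
        ring
      rw [e]
      exact h
    exact (((h1.exp).const_sub (Real.exp (-(κ * y)))).const_mul K).congr_deriv (by ring)
  have key := image_norm_le_of_norm_deriv_right_le_deriv_boundary
    (f := fun t : ℝ => R (x + t * I) - R (x + y * I)) (f' := fun t : ℝ => R' (x + t * I) * I)
    (a := y) (b := y')
    (B := fun t : ℝ => K * (Real.exp (-(κ * y)) - Real.exp (-(κ * t))))
    (B' := fun t : ℝ => K * (κ * Real.exp (-(κ * t))))
    (fun t ht => (hd t (lt_of_lt_of_le hypos ht.1)).continuousAt.continuousWithinAt)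
    (fun t ht => (hd t (lt_of_lt_of_le hypos ht.1)).hasDerivWithinAt)
    (by simp) hB ?_ (x := y') ⟨hyy, le_rfl⟩
  · have hK0 : 0 ≤ K * Real.exp (-(κ * y')) := by
      have := key
      have h0 : 0 ≤ K * (Real.exp (-(κ * y)) - Real.exp (-(κ * y'))) := (norm_nonneg _).trans key
      rcases lt_or_eq_of_le hyy with h | h
      · have hlt : Real.exp (-(κ * y')) < Real.exp (-(κ * y)) := by
          apply Real.exp_lt_exp.mpr
          nlinarith
        have : 0 ≤ K := by
          by_contra hneg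
          have hneg' := not_le.mp hneg
          nlinarith
        positivity
      · subst h
        have hb' := hb (x + y * I) (by simpa using hy)
        have h1 : 0 ≤ (T (x + y * I)).im / y * (M * Real.exp (-(κ * y))) := by
          refine (norm_nonneg _).trans (hb'.trans (le_of_eq ?_))
          simp
        have h2 : K * Real.exp (-(κ * y)) =
            ((T (x + y * I)).im / y * (M * Real.exp (-(κ * y)))) / κ := by
          rw [hK]
          ring
        rw [h2]
        positivity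
    calc ‖R (x + y' * I) - R (x + y * I)‖
        ≤ K * (Real.exp (-(κ * y)) - Real.exp (-(κ * y'))) := key
      _ ≤ K * Real.exp (-(κ * y)) := by linarith
  · intro t ht
    have htpos : 0 < t := lt_of_lt_of_le hypos ht.1
    have h1 := hb (x + t * I) (by simpa using hy.trans ht.1)
    have h2 := hanti x (Set.mem_Ioi.mpr hypos) (Set.mem_Ioi.mpr htpos) ht.1
    simp only at h2
    rw [norm_mul, Complex.norm_I, mul_one]
    refine h1.trans ?_
    have e1 : ((x : ℂ) + t * I).im = t := by simp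
    rw [e1]
    have h3 : K * (κ * Real.exp (-(κ * t))) =
        (T (x + y * I)).im / y * (M * Real.exp (-(κ * t))) := by
      rw [hK]
      field_simp
    rw [h3]
    exact mul_le_mul_of_nonneg_right h2 (by positivity)

/-- Horizontal estimate. -/
private theorem Cusp_hor {T R R' : ℂ → ℂ} {y0 M κ S : ℝ} (hy0 : 0 < y0) (hM : 0 ≤ M)
    (hR : ∀ z : ℂ, 0 < z.im → HasDerivAt R (R' z) z)
    (hb : ∀ z : ℂ, y0 ≤ z.im → ‖R' z‖ ≤ (T z).im / z.im * (M * Real.exp (-(κ * z.im))))
    (hS : ∀ z : ℂ, |z.re| ≤ 1 → y0 ≤ z.im → (T z).im / z.im ≤ S)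
    (z w : ℂ) (hz : |z.re| ≤ 1) (hw : |w.re| ≤ 1) (hzy : y0 ≤ z.im) (hzw : z.im = w.im) :
    ‖R z - R w‖ ≤ 2 * (S * (M * Real.exp (-(κ * w.im)))) := by
  have hconv : Convex ℝ {u : ℂ | |u.re| ≤ 1 ∧ u.im = w.im} := by
    intro u hu v hv a b ha hb hab
    simp only [Set.mem_ofPred_eq] at hu hv ⊢
    constructor
    · rw [abs_le] at hu hv ⊢
      simp only [add_re, smul_re, smul_eq_mul]
      constructor <;> nlinarith [hu.1.1, hu.1.2, hv.1.1, hv.1.2]
    · simp only [add_im, smul_im, smul_eq_mul, hu.2, hv.2]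
      rw [← add_mul, hab, one_mul]
  have hwy : y0 ≤ w.im := hzw ▸ hzy
  have key := hconv.norm_image_sub_le_of_norm_hasDerivWithin_le (f := R) (f' := R')
    (C := S * (M * Real.exp (-(κ * w.im)))) (x := w) (y := z)
    (fun u hu => (hR u (by rw [hu.2]; linarith)).hasDerivWithinAt)
    (fun u hu => by
      have h1 := hb u (by rw [hu.2]; exact hwy)
      rw [hu.2] at h1
      refine h1.trans (mul_le_mul_of_nonneg_right ?_ (by positivity))
      have := hS u hu.1 (by rw [hu.2]; exact hwy)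
      rwa [hu.2] at this) ⟨hw, rfl⟩ ⟨hz, hzw⟩
  refine key.trans ?_
  have hn : ‖z - w‖ ≤ 2 := by
    have h1 : z - w = ((z.re - w.re : ℝ) : ℂ) := by
      apply Complex.ext <;> simp [hzw]
    rw [h1, Complex.norm_real, Real.norm_eq_abs]
    rw [abs_le] at hz hw ⊢
    constructor <;> linarith [hz.1, hz.2, hw.1, hw.2]
  have hnn : 0 ≤ S * (M * Real.exp (-(κ * w.im))) := by
    have h1 := hb w hwy
    have h2 := hS w hw hwy
    exact ((norm_nonneg _).trans h1).trans (mul_le_mul_of_nonneg_right h2 (by positivity))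
  rw [mul_comm]
  exact mul_le_mul_of_nonneg_right hn hnn

private theorem Cusp_small {δ : ℝ} (hδ : 0 < δ) :
    ∃ Y : ℝ, 1 ≤ Y ∧ ∀ z : ℂ, Y < z.im → ‖exp (2 * Real.pi * I * z)‖ < δ := by
  refine ⟨max 1 (-Real.log δ), le_max_left _ _, fun z hz => ?_⟩
  rw [Cusp_norm_q]
  have h1 : 1 < z.im := lt_of_le_of_lt (le_max_left _ _) hz
  have h2 : -Real.log δ < z.im := lt_of_le_of_lt (le_max_right _ _) hz
  rw [← Real.exp_log hδ, Real.exp_lt_exp]
  have h3 := Real.pi_gt_three
  nlinarith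

/-- Near a puncture the two periods are not both real. -/
theorem no_real_near_cusp {T V0 V1 : ℂ → ℂ}
    (hT : ∀ z : ℂ, 0 < z.im → DifferentiableAt ℂ T z)
    (hpos : ∀ z : ℂ, 0 < z.im → 0 < (T z).im)
    (hV0 : ∀ z : ℂ, 0 < z.im → DifferentiableAt ℂ V0 z)
    (hV1 : ∀ z : ℂ, 0 < z.im → DifferentiableAt ℂ V1 z)
    (htr : ∀ z : ℂ, 0 < z.im → deriv V0 z = T z * deriv V1 z) (c : ℝ)
    (hper : ∀ z : ℂ, 0 < z.im → V1 (z + 1) = V1 z + c) (C : ℝ) (N : ℕ)
    (hg : ∀ z : ℂ, |z.re| ≤ 1 → 1 ≤ z.im → ‖V1 z‖ ≤ C * z.im ^ N)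
    (hnc : ∃ z : ℂ, 0 < z.im ∧ deriv V1 z ≠ 0) :
    ∃ Y : ℝ, ∀ z : ℂ, |z.re| ≤ 1 → Y < z.im → ¬ ((V0 z).im = 0 ∧ (V1 z).im = 0) := by
  by_contra hcon
  have hex : ∀ Y : ℝ, ∃ z : ℂ, |z.re| ≤ 1 ∧ Y < z.im ∧ (V0 z).im = 0 ∧ (V1 z).im = 0 := by
    intro Y
    by_contra h
    apply hcon
    refine ⟨Y, fun z h1 h2 h3 => h ⟨z, h1, h2, h3⟩⟩
  have hC : 0 ≤ C := by
    have := hg I (by simp) (by simp)
    simp only [I_im, one_pow, mul_one] at this
    exact (norm_nonneg _).trans this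
  obtain ⟨F, hF, hFV⟩ := exists_of_periodic (f := fun z => V1 z - c * z)
    (fun z hz => (hV1 z hz).sub (differentiableAt_id.const_mul _))
    (fun z hz => by
      rw [hper z hz]
      ring) (C + 2 * |c|) (N + 1) (by
      intro z hz1 hz2
      have h1 := hg z hz1 hz2
      have h2 : ‖z‖ ≤ 1 + z.im := by
        refine (Complex.norm_le_abs_re_add_abs_im z).trans ?_
        rw [abs_of_nonneg (by linarith : 0 ≤ z.im)]
        linarith
      have h3 : z.im ^ N ≤ z.im ^ (N + 1) := pow_le_pow_right₀ hz2 (Nat.le_succ N)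
      have h4 : z.im ≤ z.im ^ (N + 1) := by
        calc z.im = z.im ^ 1 := (pow_one _).symm
          _ ≤ z.im ^ (N + 1) := pow_le_pow_right₀ hz2 (by omega)
      calc ‖V1 z - c * z‖ ≤ ‖V1 z‖ + ‖(c : ℂ) * z‖ := norm_sub_le _ _
        _ = ‖V1 z‖ + |c| * ‖z‖ := by rw [norm_mul, Complex.norm_real, Real.norm_eq_abs]
        _ ≤ C * z.im ^ (N + 1) + |c| * (2 * z.im ^ (N + 1)) := by
            refine add_le_add (h1.trans (mul_le_mul_of_nonneg_left h3 hC)) ?_
            refine mul_le_mul_of_nonneg_left ?_ (abs_nonneg c)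
            linarith
        _ = (C + 2 * |c|) * z.im ^ (N + 1) := by ring)
  have hFV' : ∀ z : ℂ, 0 < z.im → V1 z = c * z + F (exp (2 * Real.pi * I * z)) := by
    intro z hz
    rw [← hFV z hz]
    ring
  have h0 : (0 : ℂ) ∈ Metric.ball (0 : ℂ) 1 := by simp
  have hFc : ContinuousAt F 0 :=
    ((hF 0 h0).differentiableAt (Metric.isOpen_ball.mem_nhds h0)).continuousAt
  have hFε : ∀ ε : ℝ, 0 < ε → ∃ Y : ℝ, 1 ≤ Y ∧ ∀ z : ℂ, Y < z.im →
      ‖F (exp (2 * Real.pi * I * z)) - F 0‖ < ε := by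
    intro ε hε
    obtain ⟨δ, hδ, hd⟩ := Metric.continuousAt_iff.1 hFc ε hε
    obtain ⟨Y, hY1, hY⟩ := Cusp_small hδ
    refine ⟨Y, hY1, fun z hz => ?_⟩
    have := hd (x := exp (2 * Real.pi * I * z)) (by simpa using hY z hz)
    rwa [dist_eq_norm] at this
  -- the translation part is trivial
  have hc0 : c = 0 := by
    by_contra hc
    have hcpos : 0 < |c| := abs_pos.mpr hc
    obtain ⟨Y, hY1, hY⟩ := hFε 1 one_pos
    obtain ⟨z, hz1, hz2, -, hz4⟩ := hex (max Y ((‖F 0‖ + 1) / |c|))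
    have hzY : Y < z.im := lt_of_le_of_lt (le_max_left _ _) hz2
    have hzF : (‖F 0‖ + 1) / |c| < z.im := lt_of_le_of_lt (le_max_right _ _) hz2
    have hzpos : 0 < z.im := by linarith
    have h1 := hFV' z hzpos
    have h2 : (V1 z).im = c * z.im + (F (exp (2 * Real.pi * I * z))).im := by
      rw [h1]
      simp
    rw [hz4] at h2
    have h3 : |c| * z.im = |(F (exp (2 * Real.pi * I * z))).im| := by
      have : (F (exp (2 * Real.pi * I * z))).im = -(c * z.im) := by linarith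
      rw [this, abs_neg, abs_mul, abs_of_pos hzpos]
    have h4 : |(F (exp (2 * Real.pi * I * z))).im| ≤ ‖F 0‖ + 1 := by
      refine (Complex.abs_im_le_norm _).trans ?_
      have h5 := norm_sub_norm_le (F (exp (2 * Real.pi * I * z))) (F 0)
      have h6 := hY z hzY
      linarith
    rw [div_lt_iff₀ hcpos] at hzF
    nlinarith
  subst hc0
  have hV1F : ∀ z : ℂ, 0 < z.im → V1 z = F (exp (2 * Real.pi * I * z)) := by
    intro z hz
    rw [hFV' z hz]
    simp
  have hβ : (F 0).im = 0 := by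
    by_contra h
    obtain ⟨Y, hY1, hY⟩ := hFε |(F 0).im| (abs_pos.mpr h)
    obtain ⟨z, hz1, hz2, -, hz4⟩ := hex Y
    have h1 := hY z hz2
    rw [← hV1F z (by linarith)] at h1
    have h2 := Complex.abs_im_le_norm (V1 z - F 0)
    rw [sub_im, hz4, zero_sub, abs_neg] at h2
    linarith
  have hne : ¬ ∀ q ∈ Metric.ball (0 : ℂ) 1, F q = F 0 := by
    intro h
    obtain ⟨z, hz, hzd⟩ := hnc
    apply hzd
    have : V1 =ᶠ[nhds z] fun _ => F 0 := by
      filter_upwards [(isOpen_lt continuous_const Complex.continuous_im).mem_nhds hz] with w hw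
      have hw' : 0 < w.im := hw
      rw [hV1F w hw']
      apply h
      rw [mem_ball_zero_iff, Cusp_norm_q, Real.exp_lt_one_iff]
      have := Real.pi_pos
      have : 0 < 2 * Real.pi * w.im := by positivity
      linarith
    rw [this.deriv_eq]
    simp
  obtain ⟨n, m0, M0, δ, hn, hm0, hM0, hδ, hord⟩ := Cusp_local_order hF hne
  obtain ⟨y0, hy0, hy0δ⟩ := Cusp_small hδ
  -- make the bound closed
  set y1 : ℝ := y0 + 1 with hy1
  set κ : ℝ := 2 * Real.pi * n with hκ
  have hπ := Real.pi_gt_three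
  have hn1 : (1 : ℝ) ≤ n := by exact_mod_cast hn
  have hκ1 : 1 ≤ κ := by
    rw [hκ]
    nlinarith
  have hκ0 : 0 < κ := by linarith
  have hqn : ∀ z : ℂ, ‖exp (2 * Real.pi * I * z)‖ ^ n = Real.exp (-(κ * z.im)) := by
    intro z
    rw [Cusp_norm_q, ← Real.exp_nat_mul]
    congr 1
    rw [hκ]
    ring
  set W : ℂ → ℂ := fun z => V1 z - F 0 with hW
  have hWb : ∀ z : ℂ, y1 ≤ z.im → m0 * Real.exp (-(κ * z.im)) ≤ ‖W z‖ ∧
      ‖W z‖ ≤ M0 * Real.exp (-(κ * z.im)) := by
    intro z hz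
    have h1 := hord _ (hy0δ z (by linarith))
    rw [hqn z, ← hV1F z (by linarith)] at h1
    exact h1
  set R : ℂ → ℂ := fun z => V0 z - T z * W z with hRdef
  have hR : ∀ z : ℂ, 0 < z.im → HasDerivAt R (-(deriv T z * W z)) z := by
    intro z hz
    have h1 := (hV0 z hz).hasDerivAt
    have h2 := (hT z hz).hasDerivAt
    have h3 : HasDerivAt W (deriv V1 z) z := (hV1 z hz).hasDerivAt.sub_const _
    have h4 := h1.sub (h2.mul h3)
    refine h4.congr_deriv ?_
    rw [htr z hz]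
    ring
  have hb : ∀ z : ℂ, y1 ≤ z.im →
      ‖-(deriv T z * W z)‖ ≤ (T z).im / z.im * (M0 * Real.exp (-(κ * z.im))) := by
    intro z hz
    have hz0 : 0 < z.im := by linarith
    rw [norm_neg, norm_mul]
    exact mul_le_mul (schwarz_pick hT hpos hz0) (hWb z hz).2 (norm_nonneg _)
      (div_nonneg (hpos z hz0).le hz0.le)
  have hanti := im_div_antitone hT hpos
  obtain ⟨S, hS⟩ : ∃ S : ℝ, ∀ s : ℝ, |s| ≤ 1 → (T (s + y1 * I)).im / y1 ≤ S := by
    have hcont : ContinuousOn (fun s : ℝ => (T (s + y1 * I)).im / y1) (Set.Icc (-1) 1) := by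
      intro s _
      apply ContinuousAt.continuousWithinAt
      apply ContinuousAt.div_const
      have h1 : ContinuousAt (fun s : ℝ => (s : ℂ) + y1 * I) s := by fun_prop
      have h2 : ContinuousAt T ((s : ℂ) + y1 * I) :=
        (hT _ (by simp; linarith)).continuousAt
      have h3 : ContinuousAt (fun s : ℝ => T ((s : ℂ) + y1 * I)) s :=
        ContinuousAt.comp (f := fun s : ℝ => (s : ℂ) + y1 * I) (g := T) h2 h1
      exact Complex.continuous_im.continuousAt.comp h3
    obtain ⟨S, hS⟩ := (isCompact_Icc (a := (-1 : ℝ)) (b := 1)).bddAbove_image hcont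
    refine ⟨S, fun s hs => hS ⟨s, ?_, rfl⟩⟩
    rw [abs_le] at hs
    exact hs
  have hS' : ∀ z : ℂ, |z.re| ≤ 1 → y1 ≤ z.im → (T z).im / z.im ≤ S := by
    intro z hz1 hz2
    have h1 := hanti z.re (Set.mem_Ioi.mpr (by linarith : 0 < y1))
      (Set.mem_Ioi.mpr (by linarith : 0 < z.im)) hz2
    simp only [Complex.re_add_im] at h1
    exact h1.trans (hS _ hz1)
  have hy1pos : 0 < y1 := by linarith
  have hSnn : 0 ≤ S := by
    have h1 := hS' (y1 * I) (by simp) (by simp)
    refine le_trans ?_ h1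
    have : 0 < (y1 * I : ℂ).im := by simpa using hy1pos
    exact div_nonneg (hpos _ this).le this.le
  -- the main estimate
  obtain ⟨z, hz1, hz2, hz3, hz4⟩ := hex (max y1 (M0 / (κ * m0)))
  have hzy : y1 < z.im := lt_of_le_of_lt (le_max_left _ _) hz2
  have hzM : M0 / (κ * m0) < z.im := lt_of_le_of_lt (le_max_right _ _) hz2
  have hz0 : 0 < z.im := by linarith
  set A : ℝ := (T z).im / z.im * (M0 / κ) * Real.exp (-(κ * z.im)) with hA
  have hImR : ∀ w : ℂ, (V0 w).im = 0 → (V1 w).im = 0 → |(R w).im| = |(T w).im| * ‖W w‖ := by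
    intro w h1 h2
    have h3 : (W w).im = 0 := by
      simp [hW, h2, hβ]
    have h4 : ‖W w‖ = |(W w).re| := by
      have : W w = ((W w).re : ℂ) := by
        apply Complex.ext <;> simp [h3]
      rw [this, Complex.norm_real, Real.norm_eq_abs]
      simp
    rw [h4, ← abs_mul]
    have h5 : (R w).im = -((T w).im * (W w).re) := by
      simp only [hRdef, sub_im, mul_im, h1, h3]
      ring
    rw [h5, abs_neg]
  have hmain : |(R z).im| ≤ A := by
    refine le_of_forall_pos_le_add fun ε hε => ?_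
    obtain ⟨w, hw1, hw2, hw3, hw4⟩ := hex (max z.im (2 * (S * M0) / ε))
    have hwz : z.im < w.im := lt_of_le_of_lt (le_max_left _ _) hw2
    have hwε : 2 * (S * M0) / ε < w.im := lt_of_le_of_lt (le_max_right _ _) hw2
    have hw0 : 0 < w.im := by linarith
    have e1 := Cusp_vert hy1pos hM0.le hκ0 hanti hR hb z.re z.im w.im hzy.le hwz.le
    rw [Complex.re_add_im] at e1
    have e2 := Cusp_hor (κ := κ) hy1pos hM0.le hR hb hS' ((z.re : ℂ) + w.im * I) w
      (by simpa using hz1) hw1 (by simp; linarith) (by simp)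
    have e3 : |(R w).im| ≤ (S * w.im) * (M0 * Real.exp (-(κ * w.im))) := by
      rw [hImR w hw3 hw4, abs_of_pos (hpos w hw0)]
      refine mul_le_mul ?_ (hWb w (by linarith)).2 (norm_nonneg _) (by positivity)
      have := hS' w hw1 (by linarith)
      rwa [div_le_iff₀ hw0] at this
    have e4 : |(R z).im - (R w).im| ≤ A + 2 * (S * (M0 * Real.exp (-(κ * w.im)))) := by
      have h1 : |(R z).im - (R w).im| ≤ ‖R z - R w‖ := by
        rw [← sub_im]
        exact Complex.abs_im_le_norm _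
      have h2 : ‖R z - R w‖ ≤ ‖R ((z.re : ℂ) + w.im * I) - R z‖ +
          ‖R ((z.re : ℂ) + w.im * I) - R w‖ := by
        rw [norm_sub_rev (R ((z.re : ℂ) + w.im * I)) (R z)]
        exact norm_sub_le_norm_sub_add_norm_sub _ _ _
      linarith
    have e5 : (2 + w.im) * Real.exp (-(κ * w.im)) ≤ 2 / w.im := by
      have h1 : Real.exp (-(κ * w.im)) ≤ Real.exp (-w.im) := by
        apply Real.exp_le_exp.mpr
        nlinarith
      have h2 := Real.quadratic_le_exp_of_nonneg hw0.le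
      have h3 : Real.exp (-w.im) = (Real.exp w.im)⁻¹ := Real.exp_neg _
      have h4 : (2 + w.im) * Real.exp (-w.im) ≤ 2 / w.im := by
        rw [h3, ← div_eq_mul_inv, div_le_div_iff₀ (Real.exp_pos _) hw0]
        nlinarith
      exact (mul_le_mul_of_nonneg_left h1 (by linarith)).trans h4
    have e6 : S * M0 * ((2 + w.im) * Real.exp (-(κ * w.im))) ≤ ε := by
      refine (mul_le_mul_of_nonneg_left e5 (by positivity)).trans ?_
      rw [div_lt_iff₀ hε] at hwε
      rw [← mul_div_assoc, div_le_iff₀ hw0]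
      linarith
    have e7 := abs_sub_abs_le_abs_sub (R z).im (R w).im
    have e8 : S * M0 * ((2 + w.im) * Real.exp (-(κ * w.im))) =
        2 * (S * (M0 * Real.exp (-(κ * w.im)))) + (S * w.im) * (M0 * Real.exp (-(κ * w.im))) := by
      ring
    linarith
  rw [hImR z hz3 hz4, abs_of_pos (hpos z hz0)] at hmain
  have hlow := (hWb z hzy.le).1
  have hTz := hpos z hz0
  have hfin : (T z).im * (m0 * Real.exp (-(κ * z.im))) ≤ A :=
    (mul_le_mul_of_nonneg_left hlow hTz.le).trans hmain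
  have hexp : 0 < Real.exp (-(κ * z.im)) := Real.exp_pos _
  have hA' : A = (T z).im * Real.exp (-(κ * z.im)) * (M0 / (κ * z.im)) := by
    rw [hA]
    field_simp
  have hL : (T z).im * (m0 * Real.exp (-(κ * z.im))) =
      (T z).im * Real.exp (-(κ * z.im)) * m0 := by ring
  rw [hA', hL] at hfin
  have h5 : m0 ≤ M0 / (κ * z.im) := le_of_mul_le_mul_left hfin (by positivity)
  rw [le_div_iff₀ (by positivity)] at h5
  rw [div_lt_iff₀ (by positivity)] at hzM
  nlinarith

end Pool.Agent.LibRk3
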