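import Pool.Agent.LibRk3.RSplit

open UpperHalfPlane Filter Topology
open scoped MatrixGroups

namespace Pool.Agent.LibRk3

variable {X : Curve}

private theorem countable_algebraic_int :
    {t : ℂ | IsAlgebraic ℤ t}.Countable := Algebraic.countable ℤ ℂ

private theorem isAlgebraic_of_isCM {τ : ℍ} (h : IsCM τ) : IsAlgebraic ℤ (τ : ℂ) := by
  obtain ⟨a, b, c, ha, h⟩ := h
  refine ⟨Polynomial.C a * Polynomial.X ^ 2 + Polynomial.C b * Polynomial.X + Polynomial.C c,
    ?_, ?_⟩
  · intro h0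
    apply ha
    have := congrArg (fun p => Polynomial.coeff p 2) h0
    simpa only [Polynomial.coeff_add, Polynomial.coeff_C_mul, Polynomial.coeff_X_pow,
      Polynomial.coeff_X, Polynomial.coeff_C, Polynomial.coeff_zero, if_true, mul_one,
      OfNat.one_ne_ofNat, OfNat.ofNat_ne_zero, if_false, mul_zero, add_zero] using this
  · simpa using h

private theorem exists_avoid (V : Variation X) (U : Set ℍ) (hU : IsOpen U) (hne : U.Nonempty)
    (C : Set ℂ) (hC : C.Countable) : ∃ z ∈ U, (V.τ z : ℂ) ∉ C := by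
  set T : ℂ → ℂ := fun w : ℂ => (V.τ (ofComplex w) : ℂ) with hTdef
  have hS : IsOpen {z : ℂ | 0 < z.im} := isOpen_lt continuous_const Complex.continuous_im
  have hTd : DifferentiableOn ℂ T {z : ℂ | 0 < z.im} := by
    intro z hz
    exact (V.τ_hol ⟨z, hz⟩).differentiableWithinAt
  have hTa : AnalyticOnNhd ℂ T {z : ℂ | 0 < z.im} := hTd.analyticOnNhd hS
  have hconv : Convex ℝ {z : ℂ | 0 < z.im} := by
    have := (convex_Ioi (0 : ℝ)).linear_preimage Complex.imLm
    exact this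
  have hconn : IsPreconnected {z : ℂ | 0 < z.im} := hconv.isPreconnected
  rcases hTa.is_constant_or_isOpen hconn with ⟨w, hw⟩ | hop
  · exfalso
    obtain ⟨z1, z2, h12⟩ := V.τ_nonconst
    apply h12
    have h1 := hw (z1 : ℂ) z1.im_pos
    have h2 := hw (z2 : ℂ) z2.im_pos
    rw [hTdef] at h1 h2
    simp only [ofComplex_apply] at h1 h2
    exact UpperHalfPlane.ext (h1.trans h2.symm)
  · have hopen : IsOpen (T '' ((fun z : ℍ => (z : ℂ)) '' U)) := by
      apply hop
      · rintro _ ⟨z, -, rfl⟩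
        exact z.im_pos
      · exact UpperHalfPlane.isOpenEmbedding_coe.isOpenMap U hU
    have hne' : (T '' ((fun z : ℍ => (z : ℂ)) '' U)).Nonempty := (hne.image _).image _
    have hd : Dense Cᶜ := hC.dense_compl ℝ
    obtain ⟨y, ⟨_, ⟨z, hz, rfl⟩, hy⟩, hyC⟩ := hd.inter_open_nonempty _ hopen hne'
    refine ⟨z, hz, ?_⟩
    have : T (z : ℂ) = (V.τ z : ℂ) := by
      rw [hTdef]
      simp only [ofComplex_apply]
    rw [← this]
    simp only at hy
    rw [hy]
    exact hyC

theorem Variation.exists_not_cm (V : Variation X) : ∃ z : ℍ, ¬ IsCM (V.τ z) := by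
  obtain ⟨z0, -, -⟩ := V.τ_nonconst
  obtain ⟨z, -, hz⟩ := exists_avoid V Set.univ isOpen_univ ⟨z0, trivial⟩ _ countable_algebraic_int
  exact ⟨z, fun h => hz (isAlgebraic_of_isCM h)⟩

theorem Variation.exists_generic (V : Variation X) (h : ¬ V.Split) :
    ∃ z : ℍ, ¬ IsCM (V.τ z) ∧ ¬ IsRat (V.v z) := by
  by_cases hnc : ∃ z w i, V.v z i ≠ V.v w i
  · obtain ⟨z0, -, -⟩ := V.τ_nonconst
    have hiso := V.isolated hnc z0
    rw [eventually_nhdsWithin_iff, eventually_nhds_iff] at hiso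
    obtain ⟨t, ht, hto, hz0⟩ := hiso
    obtain ⟨z, hz, hzC⟩ := exists_avoid V t hto ⟨z0, hz0⟩
      ({t : ℂ | IsAlgebraic ℤ t} ∪ {(V.τ z0 : ℂ)})
      (countable_algebraic_int.union (Set.countable_singleton _))
    refine ⟨z, fun hcm => hzC (Or.inl (isAlgebraic_of_isCM hcm)), ?_⟩
    rintro ⟨r, hr⟩
    have hne : z ≠ z0 := by
      rintro rfl
      exact hzC (Or.inr rfl)
    apply ht z hz hne
    intro i
    rw [hr i]
    exact Complex.ratCast_im _
  · push Not at hnc
    obtain ⟨z, hz⟩ := V.exists_not_cm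
    refine ⟨z, hz, ?_⟩
    rintro ⟨r, hr⟩
    apply h
    refine ⟨r, fun w i => ?_⟩
    rw [hnc w z i]
    exact hr i

end Pool.Agent.LibRk3
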