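import Mathlib

open Complex Filter Topology

namespace Pool.Agent.LibRk3

private theorem isOpen_upper : IsOpen {z : ℂ | 0 < z.im} :=
  isOpen_lt continuous_const Complex.continuous_im

private theorem loc_not_eventually_zero {V1 : ℂ → ℂ}
    (hV1 : ∀ z : ℂ, 0 < z.im → DifferentiableAt ℂ V1 z)
    (hnc : ∃ z : ℂ, 0 < z.im ∧ deriv V1 z ≠ 0) {z₀ : ℂ} (hz₀ : 0 < z₀.im) :
    ¬ ∀ᶠ z in 𝓝 z₀, V1 z - V1 z₀ = 0 := by
  intro hev
  obtain ⟨w, hw, hw'⟩ := hnc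
  apply hw'
  have hd : DifferentiableOn ℂ V1 {z : ℂ | 0 < z.im} :=
    fun z hz => (hV1 z hz).differentiableWithinAt
  have ha : AnalyticOnNhd ℂ V1 {z : ℂ | 0 < z.im} := hd.analyticOnNhd isOpen_upper
  have hc : IsPreconnected {z : ℂ | 0 < z.im} := (convex_halfSpace_im_gt 0).isPreconnected
  have h1 : V1 =ᶠ[𝓝 z₀] fun _ => V1 z₀ := by
    filter_upwards [hev] with z hz
    exact sub_eq_zero.1 hz
  have h2 : Set.EqOn V1 (fun _ => V1 z₀) {z : ℂ | 0 < z.im} :=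
    ha.eqOn_of_preconnected_of_eventuallyEq analyticOnNhd_const hc hz₀ h1
  have h3 : V1 =ᶠ[𝓝 w] fun _ => V1 z₀ := by
    filter_upwards [isOpen_upper.mem_nhds hw] with z hz
    exact h2 hz
  rw [h3.deriv_eq]
  simp

/-- The points where the two periods are real are isolated. -/
theorem isolated_real {T V0 V1 : ℂ → ℂ}
    (hT : ∀ z : ℂ, 0 < z.im → DifferentiableAt ℂ T z)
    (hpos : ∀ z : ℂ, 0 < z.im → 0 < (T z).im)
    (hV0 : ∀ z : ℂ, 0 < z.im → DifferentiableAt ℂ V0 z)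
    (hV1 : ∀ z : ℂ, 0 < z.im → DifferentiableAt ℂ V1 z)
    (htr : ∀ z : ℂ, 0 < z.im → deriv V0 z = T z * deriv V1 z)
    (hnc : ∃ z : ℂ, 0 < z.im ∧ deriv V1 z ≠ 0) {z₀ : ℂ} (hz₀ : 0 < z₀.im) :
    ∀ᶠ z in 𝓝[≠] z₀, ¬ ((V0 z).im = 0 ∧ (V1 z).im = 0) := by
  by_cases hr : (V0 z₀).im = 0 ∧ (V1 z₀).im = 0
  swap
  · have h1 : ∀ᶠ z in 𝓝 z₀, ¬ ((V0 z).im = 0 ∧ (V1 z).im = 0) := by
      rw [not_and_or] at hr
      rcases hr with hr | hr
      · have hc : ContinuousAt (fun z => (V0 z).im) z₀ :=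
          Complex.continuous_im.continuousAt.comp (hV0 z₀ hz₀).continuousAt
        filter_upwards [hc.eventually_ne hr] with z hz h
        exact hz h.1
      · have hc : ContinuousAt (fun z => (V1 z).im) z₀ :=
          Complex.continuous_im.continuousAt.comp (hV1 z₀ hz₀).continuousAt
        filter_upwards [hc.eventually_ne hr] with z hz h
        exact hz h.2
    exact h1.filter_mono nhdsWithin_le_nhds
  obtain ⟨hr0, hr1⟩ := hr
  have hd1 : DifferentiableOn ℂ V1 {z : ℂ | 0 < z.im} :=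
    fun z hz => (hV1 z hz).differentiableWithinAt
  have ha1 : AnalyticAt ℂ V1 z₀ := hd1.analyticAt (isOpen_upper.mem_nhds hz₀)
  have hdT : DifferentiableOn ℂ T {z : ℂ | 0 < z.im} :=
    fun z hz => (hT z hz).differentiableWithinAt
  have haT : AnalyticAt ℂ T z₀ := hdT.analyticAt (isOpen_upper.mem_nhds hz₀)
  have hg : AnalyticAt ℂ (fun z => V1 z - V1 z₀) z₀ := ha1.sub analyticAt_const
  obtain ⟨n, k, hk, hk0, hgk⟩ :=
    (hg.exists_eventuallyEq_pow_smul_nonzero_iff).2 (loc_not_eventually_zero hV1 hnc hz₀)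
  have hk0' : 0 < ‖k z₀‖ := norm_pos_iff.2 hk0
  set D : ℝ := ‖deriv T z₀‖ + 1 with hD
  have hD0 : 0 < D := by positivity
  have hτ : 0 < (T z₀).im := hpos z₀ hz₀
  have e1 : ∀ᶠ z in 𝓝 z₀, ‖k z‖ < 2 * ‖k z₀‖ :=
    hk.continuousAt.norm.eventually_lt_const (by linarith)
  have e2 : ∀ᶠ z in 𝓝 z₀, ‖k z₀‖ / 2 < ‖k z‖ :=
    hk.continuousAt.norm.eventually_const_lt (by linarith)
  have e3 : ∀ᶠ z in 𝓝 z₀, ‖deriv T z‖ < D :=
    haT.deriv.continuousAt.norm.eventually_lt_const (by rw [hD]; linarith)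
  have e4 : ∀ᶠ z in 𝓝 z₀, (T z₀).im / 2 < (T z).im := by
    have hc : ContinuousAt (fun z => (T z).im) z₀ :=
      Complex.continuous_im.continuousAt.comp (hT z₀ hz₀).continuousAt
    exact hc.eventually_const_lt (by linarith)
  have e5 : ∀ᶠ z in 𝓝 z₀, 0 < z.im := isOpen_upper.mem_nhds hz₀
  have e6 := (((e1.and e2).and (e3.and e4)).and (e5.and hgk))
  obtain ⟨ε, hε, hball⟩ := Metric.eventually_nhds_iff_ball.1 e6
  have e7 : ∀ᶠ z in 𝓝 z₀, z ∈ Metric.ball z₀ (min ε ((T z₀).im / (8 * D))) :=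
    Metric.ball_mem_nhds _ (lt_min hε (by positivity))
  rw [eventually_nhdsWithin_iff]
  filter_upwards [e7] with z hz hzne hreal
  have hzne' : z ≠ z₀ := hzne
  have hr' : 0 < ‖z - z₀‖ := norm_pos_iff.2 (sub_ne_zero.2 hzne')
  have hzr : ‖z - z₀‖ < ε := by
    have := Metric.mem_ball.1 hz
    rw [dist_eq_norm] at this
    exact this.trans_le (min_le_left _ _)
  have hzr2 : ‖z - z₀‖ < (T z₀).im / (8 * D) := by
    have := Metric.mem_ball.1 hz
    rw [dist_eq_norm] at this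
    exact this.trans_le (min_le_right _ _)
  set R : ℂ → ℂ := fun w => V0 w - V0 z₀ - T w * (V1 w - V1 z₀) with hR
  have hRd : ∀ w ∈ Metric.closedBall z₀ ‖z - z₀‖, HasDerivAt R
      (-(deriv T w * (V1 w - V1 z₀))) w := by
    intro w hw
    have hwb : w ∈ Metric.ball z₀ ε := Metric.closedBall_subset_ball hzr hw
    have hwi := (hball w hwb).2.1
    have h0 := ((hV0 w hwi).hasDerivAt.sub_const (V0 z₀)).sub
      ((hT w hwi).hasDerivAt.mul ((hV1 w hwi).hasDerivAt.sub_const (V1 z₀)))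
    have h1 : deriv V0 w - (deriv T w * (V1 w - V1 z₀) + T w * deriv V1 w) =
        -(deriv T w * (V1 w - V1 z₀)) := by
      rw [htr w hwi]
      ring
    rw [← h1]
    exact h0
  have hbd : ∀ w ∈ Metric.closedBall z₀ ‖z - z₀‖, ‖-(deriv T w * (V1 w - V1 z₀))‖ ≤
      D * (‖z - z₀‖ ^ n * (2 * ‖k z₀‖)) := by
    intro w hw
    have hwb : w ∈ Metric.ball z₀ ε := Metric.closedBall_subset_ball hzr hw
    obtain ⟨⟨⟨a1, a2⟩, a3, a4⟩, a5, a6⟩ := hball w hwb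
    rw [norm_neg, norm_mul]
    apply mul_le_mul a3.le _ (norm_nonneg _) hD0.le
    rw [a6, norm_smul, norm_pow]
    apply mul_le_mul _ a1.le (norm_nonneg _) (by positivity)
    apply pow_le_pow_left₀ (norm_nonneg _)
    have := Metric.mem_closedBall.1 hw
    rwa [dist_eq_norm] at this
  have hmv : ‖R z - R z₀‖ ≤ D * (‖z - z₀‖ ^ n * (2 * ‖k z₀‖)) * ‖z - z₀‖ := by
    apply (convex_closedBall z₀ ‖z - z₀‖).norm_image_sub_le_of_norm_hasDerivWithin_le
      (fun w hw => (hRd w hw).hasDerivWithinAt) hbd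
    · exact Metric.mem_closedBall_self hr'.le
    · rw [Metric.mem_closedBall, dist_eq_norm]
  have hRz0 : R z₀ = 0 := by simp [hR]
  rw [hRz0, sub_zero] at hmv
  have him : (R z).im = -((T z).im * (V1 z - V1 z₀).re) := by
    simp only [hR, Complex.sub_im, Complex.mul_im, hreal.1, hr0, hreal.2, hr1, Complex.sub_re]
    ring
  have hnorm : ‖V1 z - V1 z₀‖ = |(V1 z - V1 z₀).re| := by
    have h0 : (V1 z - V1 z₀).im = 0 := by rw [Complex.sub_im, hreal.2, hr1, sub_zero]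
    have h1 : V1 z - V1 z₀ = (((V1 z - V1 z₀).re : ℝ) : ℂ) := by
      apply Complex.ext
      · simp
      · rw [h0]; simp
    rw [h1, Complex.norm_real, Real.norm_eq_abs, Complex.ofReal_re]
  have hzb : z ∈ Metric.ball z₀ ε := by rw [Metric.mem_ball, dist_eq_norm]; exact hzr
  obtain ⟨⟨⟨a1, a2⟩, a3, a4⟩, a5, a6⟩ := hball z hzb
  have hlow : (T z).im * (‖z - z₀‖ ^ n * ‖k z‖) ≤ D * (‖z - z₀‖ ^ n * (2 * ‖k z₀‖)) * ‖z - z₀‖ := by
    have h1 : (T z).im * (‖z - z₀‖ ^ n * ‖k z‖) = |(R z).im| := by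
      rw [him, abs_neg, abs_mul, abs_of_pos (by linarith : 0 < (T z).im), ← hnorm, a6, norm_smul,
        norm_pow]
    rw [h1]
    exact (Complex.abs_im_le_norm _).trans hmv
  have hp : 0 < ‖z - z₀‖ ^ n := by positivity
  rw [lt_div_iff₀ (by positivity)] at hzr2
  have h3 : (T z₀).im / 2 * (‖k z₀‖ / 2) < (T z).im * ‖k z‖ := by
    apply mul_lt_mul'' a4 a2 (by positivity) (by positivity)
  have h4 : (T z).im * ‖k z‖ ≤ D * (2 * ‖k z₀‖) * ‖z - z₀‖ := by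
    have h5 : ‖z - z₀‖ ^ n * ((T z).im * ‖k z‖) ≤ ‖z - z₀‖ ^ n * (D * (2 * ‖k z₀‖) * ‖z - z₀‖) := by
      nlinarith
    exact le_of_mul_le_mul_left h5 hp
  nlinarith

end Pool.Agent.LibRk3
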