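import Pool.Agent.LibRk3.MTN

open UpperHalfPlane
open scoped MatrixGroups ComplexConjugate

namespace Pool.Agent.LibRk3

private theorem blk_add {R : Type*} [AddCommGroup R] (u u' : Fin 2 → R)
    (M M' : Matrix (Fin 2) (Fin 2) R) : blk u M + blk u' M' = blk (u + u') (M + M') := by
  ext i j
  fin_cases i <;> fin_cases j <;> simp [blk]

private theorem blk_sub {R : Type*} [AddCommGroup R] (u u' : Fin 2 → R)
    (M M' : Matrix (Fin 2) (Fin 2) R) : blk u M - blk u' M' = blk (u - u') (M - M') := by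
  ext i j
  fin_cases i <;> fin_cases j <;> simp [blk]

private theorem smul_blk {R : Type*} [Ring R] (x : R) (u : Fin 2 → R)
    (M : Matrix (Fin 2) (Fin 2) R) : x • blk u M = blk (x • u) (x • M) := by
  ext i j
  fin_cases i <;> fin_cases j <;> simp [blk]

private theorem blk_mul {R : Type*} [CommRing R] (u u' : Fin 2 → R)
    (M M' : Matrix (Fin 2) (Fin 2) R) : blk u M * blk u' M' = blk (M.mulVec u') (M * M') := by
  ext i j
  fin_cases i <;> fin_cases j <;>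
    simp [blk, Matrix.mul_apply, Matrix.mulVec, dotProduct, Fin.sum_univ_three,
      Fin.sum_univ_two]

private theorem map_blk (u : Fin 2 → ℚ) (M : Matrix (Fin 2) (Fin 2) ℚ) :
    (blk u M).map (algebraMap ℚ ℂ) = blk (fun i => (u i : ℂ)) (M.map (algebraMap ℚ ℂ)) := by
  ext i j
  fin_cases i <;> fin_cases j <;> simp [blk]

private theorem blk_inj {R : Type*} [Zero R] {u u' : Fin 2 → R}
    {M M' : Matrix (Fin 2) (Fin 2) R} (h : blk u M = blk u' M') : u = u' ∧ M = M' := by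
  have e : ∀ i j, blk u M i j = blk u' M' i j := fun i j => by rw [h]
  constructor
  · ext i
    fin_cases i
    · simpa [blk] using e 1 0
    · simpa [blk] using e 2 0
  · ext i j
    fin_cases i <;> fin_cases j
    · simpa [blk] using e 1 1
    · simpa [blk] using e 1 2
    · simpa [blk] using e 2 1
    · simpa [blk] using e 2 2

private theorem eq_blk_of_row {A : Matrix (Fin 3) (Fin 3) ℚ} (h : ∀ j, A 0 j = 0) :
    A = blk ![A 1 0, A 2 0] !![A 1 1, A 1 2; A 2 1, A 2 2] := by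
  ext i j
  fin_cases i <;> fin_cases j <;> simp [blk, h]

/-- Sum and difference of the two operators suffice. -/
private theorem isGood_of {τ : ℍ} {v : Fin 2 → ℂ} {L : Submodule ℚ (Matrix (Fin 3) (Fin 3) ℚ)}
    (h : ∀ A ∈ L, ∀ B ∈ L, A * B - B * A ∈ L)
    (h1 : blk (fun i => 3 * v i) (-(3 : ℂ) • 1) ∈ cplx L)
    (h2 : blk (-(Dmat τ).mulVec v) (Dmat τ) ∈ cplx L) : IsGood τ v L := by
  rw [← opP_add_opQ τ] at h1
  rw [← opP_sub_opQ] at h2
  refine ⟨h, ?_, ?_⟩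
  · have : opP τ v = (1 / 2 : ℂ) • ((opP τ v + opQ τ v) + (opP τ v - opQ τ v)) := by
      rw [add_add_sub_cancel, ← two_smul ℂ (opP τ v), smul_smul]
      norm_num
    rw [this]
    exact Submodule.smul_mem _ _ (Submodule.add_mem _ h1 h2)
  · have : opQ τ v = (1 / 2 : ℂ) • ((opP τ v + opQ τ v) - (opP τ v - opQ τ v)) := by
      rw [add_sub_sub_cancel, ← two_smul ℂ (opQ τ v), smul_smul]
      norm_num
    rw [this]
    exact Submodule.smul_mem _ _ (Submodule.sub_mem _ h1 h2)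

private theorem mem_cplx_of {L : Submodule ℚ (Matrix (Fin 3) (Fin 3) ℚ)}
    {A : Matrix (Fin 3) (Fin 3) ℚ} (h : A ∈ L) : A.map (algebraMap ℚ ℂ) ∈ cplx L :=
  Submodule.subset_span ⟨A, h, rfl⟩

/-- The endomorphism given by the quadratic equation. -/
private def Mcm (a b c : ℤ) : Matrix (Fin 2) (Fin 2) ℚ := !![-(b : ℚ), -(c : ℚ); (a : ℚ), 0]

private theorem conj_ne (τ : ℍ) : (τ : ℂ) - conj (τ : ℂ) ≠ 0 := by
  rw [Complex.sub_conj]
  have h : τ.im ≠ 0 := τ.im_pos.ne'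
  simpa [Complex.I_ne_zero] using h

/-- Sum and product of the two roots. -/
private theorem roots (τ : ℍ) (a b c : ℤ)
    (h1 : (a : ℂ) * (τ : ℂ) ^ 2 + b * (τ : ℂ) + c = 0) :
    (a : ℂ) * ((τ : ℂ) + conj (τ : ℂ)) = -b ∧ (a : ℂ) * ((τ : ℂ) * conj (τ : ℂ)) = c := by
  have h2 : (a : ℂ) * (conj (τ : ℂ)) ^ 2 + b * conj (τ : ℂ) + c = 0 := by
    have := congrArg conj h1
    simpa using this
  have h3 : ((τ : ℂ) - conj (τ : ℂ)) * ((a : ℂ) * ((τ : ℂ) + conj (τ : ℂ)) + b) = 0 := by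
    linear_combination h1 - h2
  have h4 : (a : ℂ) * ((τ : ℂ) + conj (τ : ℂ)) + b = 0 := by
    rcases mul_eq_zero.mp h3 with h | h
    · exact absurd h (conj_ne τ)
    · exact h
  refine ⟨by linear_combination h4, ?_⟩
  linear_combination (τ : ℂ) * h4 - h1

private theorem Dmat_eq (τ : ℍ) (a b c : ℤ) (ha : a ≠ 0)
    (h1 : (a : ℂ) * (τ : ℂ) ^ 2 + b * (τ : ℂ) + c = 0) :
    ∃ x y : ℂ, Dmat τ = x • 1 + y • (Mcm a b c).map (algebraMap ℚ ℂ) := by
  obtain ⟨h2, h3⟩ := roots τ a b c h1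
  have ha' : (a : ℂ) ≠ 0 := by exact_mod_cast ha
  have hne := conj_ne τ
  refine ⟨b / (a * ((τ : ℂ) - conj (τ : ℂ))), 2 / (a * ((τ : ℂ) - conj (τ : ℂ))), ?_⟩
  have e1 : (τ : ℂ) + conj (τ : ℂ) = -b / a := by
    field_simp
    linear_combination h2
  have e2 : (τ : ℂ) * conj (τ : ℂ) = c / a := by
    field_simp
    linear_combination h3
  unfold Dmat Mcm
  rw [e1, e2]
  ext i j
  fin_cases i <;> fin_cases j
  · simp
    field_simp
    ring
  · simp
    field_simp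
  · simp
    field_simp
  · simp
    field_simp

private theorem Mcm_sq (a b c : ℤ) : Mcm a b c * Mcm a b c =
    (-(b : ℚ)) • Mcm a b c + (-((a : ℚ) * c)) • (1 : Matrix (Fin 2) (Fin 2) ℚ) := by
  unfold Mcm
  ext i j
  fin_cases i <;> fin_cases j <;> simp [Matrix.mul_apply, Fin.sum_univ_two] <;> ring

/-- The space of all `blk u M`. -/
private def E1 : Submodule ℚ (Matrix (Fin 3) (Fin 3) ℚ) where
  carrier := {A | ∃ u M, A = blk u M}
  add_mem' := by
    rintro _ _ ⟨u, M, rfl⟩ ⟨u', M', rfl⟩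
    exact ⟨u + u', M + M', blk_add _ _ _ _⟩
  zero_mem' := ⟨0, 0, by ext i j; fin_cases i <;> fin_cases j <;> simp [blk]⟩
  smul_mem' := by
    rintro x _ ⟨u, M, rfl⟩
    exact ⟨x • u, x • M, smul_blk _ _ _⟩

private theorem mem_mtLie {τ : ℍ} {v : Fin 2 → ℂ} {A : Matrix (Fin 3) (Fin 3) ℚ} :
    A ∈ mtLie τ v ↔ ∀ L : Submodule ℚ (Matrix (Fin 3) (Fin 3) ℚ), IsGood τ v L → A ∈ L := by
  unfold mtLie
  rw [Submodule.mem_sInf]
  rfl

/-- Generic case. -/
theorem mtLie_generic {τ : ℍ} {v : Fin 2 → ℂ} (h1 : ¬ IsCM τ) (h2 : ¬ IsRat v)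
    (A : Matrix (Fin 3) (Fin 3) ℚ) : A ∈ mtLie τ v ↔ ∃ u M, A = blk u M := by
  rw [mem_mtLie]
  constructor
  · intro h
    have h3 := h parab (isGood_parab τ v)
    exact ⟨_, _, eq_blk_of_row h3⟩
  · rintro ⟨u, M, rfl⟩ L hL
    obtain ⟨u', hu'⟩ := hL.exists_all h1 M
    have h4 := hL.unip h2 (u - u')
    have h5 := L.add_mem hu' h4
    rw [blk_add] at h5
    simpa using h5

/-- Complex multiplication, non split. -/
theorem mtLie_cm {τ : ℍ} {v : Fin 2 → ℂ} (a b c : ℤ) (ha : a ≠ 0)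
    (h1 : (a : ℂ) * (τ : ℂ) ^ 2 + b * (τ : ℂ) + c = 0) (h2 : ¬ IsRat v)
    (A : Matrix (Fin 3) (Fin 3) ℚ) : A ∈ mtLie τ v ↔
      ∃ (u : Fin 2 → ℚ) (x y : ℚ), A = blk u (x • 1 + y • !![-(b : ℚ), -(c : ℚ); (a : ℚ), 0]) := by
  change A ∈ mtLie τ v ↔ ∃ (u : Fin 2 → ℚ) (x y : ℚ), A = blk u (x • 1 + y • Mcm a b c)
  rw [mem_mtLie]
  constructor
  · intro h
    let E : Submodule ℚ (Matrix (Fin 3) (Fin 3) ℚ) :=
      { carrier := {A | ∃ (u : Fin 2 → ℚ) (x y : ℚ), A = blk u (x • 1 + y • Mcm a b c)}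
        add_mem' := by
          rintro _ _ ⟨u, x, y, rfl⟩ ⟨u', x', y', rfl⟩
          refine ⟨u + u', x + x', y + y', ?_⟩
          rw [blk_add]
          congr 1
          module
        zero_mem' := ⟨0, 0, 0, by ext i j; fin_cases i <;> fin_cases j <;> simp [blk]⟩
        smul_mem' := by
          rintro t _ ⟨u, x, y, rfl⟩
          refine ⟨t • u, t * x, t * y, ?_⟩
          rw [smul_blk]
          congr 1
          module }
    have hE : IsGood τ v E := by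
      apply isGood_of
      · rintro _ ⟨u, x, y, rfl⟩ _ ⟨u', x', y', rfl⟩
        refine ⟨(x • 1 + y • Mcm a b c).mulVec u' - (x' • 1 + y' • Mcm a b c).mulVec u, 0, 0, ?_⟩
        rw [blk_mul, blk_mul, blk_sub]
        congr 1
        simp only [add_mul, mul_add, smul_mul_assoc, mul_smul_comm, one_mul, mul_one]
        module
      · have e : blk (fun i => 3 * v i) (-(3 : ℂ) • 1) =
            (3 * v 0) • (blk ![1, 0] 0 : Matrix (Fin 3) (Fin 3) ℚ).map (algebraMap ℚ ℂ) +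
            (3 * v 1) • (blk ![0, 1] 0 : Matrix (Fin 3) (Fin 3) ℚ).map (algebraMap ℚ ℂ) +
            (-(3 : ℂ)) • (blk 0 1 : Matrix (Fin 3) (Fin 3) ℚ).map (algebraMap ℚ ℂ) := by
          ext i j
          fin_cases i <;> fin_cases j <;> simp [blk]
        rw [e]
        refine Submodule.add_mem _ (Submodule.add_mem _ ?_ ?_) ?_
        · exact Submodule.smul_mem _ _ (mem_cplx_of ⟨![1, 0], 0, 0, by simp⟩)
        · exact Submodule.smul_mem _ _ (mem_cplx_of ⟨![0, 1], 0, 0, by simp⟩)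
        · exact Submodule.smul_mem _ _ (mem_cplx_of ⟨0, 1, 0, by simp⟩)
      · obtain ⟨x, y, hD⟩ := Dmat_eq τ a b c ha h1
        set w : Fin 2 → ℂ := -(Dmat τ).mulVec v with hw
        have e : blk w (Dmat τ) =
            (w 0) • (blk ![1, 0] 0 : Matrix (Fin 3) (Fin 3) ℚ).map (algebraMap ℚ ℂ) +
            (w 1) • (blk ![0, 1] 0 : Matrix (Fin 3) (Fin 3) ℚ).map (algebraMap ℚ ℂ) +
            x • (blk 0 1 : Matrix (Fin 3) (Fin 3) ℚ).map (algebraMap ℚ ℂ) +
            y • (blk 0 (Mcm a b c) : Matrix (Fin 3) (Fin 3) ℚ).map (algebraMap ℚ ℂ) := by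
          rw [hD]
          ext i j
          fin_cases i <;> fin_cases j <;> simp [blk]
        rw [e]
        refine Submodule.add_mem _ (Submodule.add_mem _ (Submodule.add_mem _ ?_ ?_) ?_) ?_
        · exact Submodule.smul_mem _ _ (mem_cplx_of ⟨![1, 0], 0, 0, by simp⟩)
        · exact Submodule.smul_mem _ _ (mem_cplx_of ⟨![0, 1], 0, 0, by simp⟩)
        · exact Submodule.smul_mem _ _ (mem_cplx_of ⟨0, 1, 0, by simp⟩)
        · exact Submodule.smul_mem _ _ (mem_cplx_of ⟨0, 0, 1, by simp⟩)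
    exact h E hE
  · rintro ⟨u, x, y, rfl⟩ L hL
    obtain ⟨u1, hu1⟩ := hL.exists_one
    obtain ⟨u2, hu2⟩ := hL.exists_cm a b c ha h1
    have h4 := hL.unip h2 (u - x • u1 - y • u2)
    have h5 := L.add_mem (L.add_mem (L.smul_mem x hu1) (L.smul_mem y hu2)) h4
    rw [smul_blk, smul_blk, blk_add, blk_add] at h5
    have e : x • u1 + y • u2 + (u - x • u1 - y • u2) = u := by abel
    rw [e, add_zero] at h5
    exact h5

/-- No complex multiplication, split. -/
theorem mtLie_split {τ : ℍ} {v : Fin 2 → ℂ} (h1 : ¬ IsCM τ) (r : Fin 2 → ℚ)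
    (h2 : ∀ i, v i = r i) (A : Matrix (Fin 3) (Fin 3) ℚ) :
    A ∈ mtLie τ v ↔ ∃ M, A = blk (-(M.mulVec r)) M := by
  rw [mem_mtLie]
  let E : Submodule ℚ (Matrix (Fin 3) (Fin 3) ℚ) :=
    { carrier := {A | ∃ M : Matrix (Fin 2) (Fin 2) ℚ, A = blk (-(M.mulVec r)) M}
      add_mem' := by
        rintro _ _ ⟨M, rfl⟩ ⟨M', rfl⟩
        refine ⟨M + M', ?_⟩
        rw [blk_add, Matrix.add_mulVec]
        congr 1
        abel
      zero_mem' := ⟨0, by ext i j; fin_cases i <;> fin_cases j <;> simp [blk]⟩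
      smul_mem' := by
        rintro t _ ⟨M, rfl⟩
        refine ⟨t • M, ?_⟩
        rw [smul_blk, Matrix.smul_mulVec, smul_neg] }
  have hv : v = fun i => (r i : ℂ) := funext h2
  have hblk : ∀ M : Matrix (Fin 2) (Fin 2) ℂ, blk (-(M.mulVec v)) M ∈ cplx E := by
    intro M
    have e : blk (-(M.mulVec v)) M = ∑ i, ∑ j, M i j •
        (blk (-((Matrix.single i j (1 : ℚ)).mulVec r)) (Matrix.single i j (1 : ℚ))).map
          (algebraMap ℚ ℂ) := by
      rw [hv]
      ext i j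
      fin_cases i <;> fin_cases j <;>
        simp [blk, Fin.sum_univ_two, Matrix.single_apply,
          Matrix.sum_apply] <;> ring
    rw [e]
    exact Submodule.sum_mem _ fun i _ => Submodule.sum_mem _ fun j _ =>
      Submodule.smul_mem _ _ (mem_cplx_of ⟨_, rfl⟩)
  have hE : IsGood τ v E := by
    apply isGood_of
    · rintro _ ⟨M, rfl⟩ _ ⟨M', rfl⟩
      refine ⟨M * M' - M' * M, ?_⟩
      rw [blk_mul, blk_mul, blk_sub]
      congr 1
      rw [Matrix.sub_mulVec, ← Matrix.mulVec_mulVec, ← Matrix.mulVec_mulVec, Matrix.mulVec_neg,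
        Matrix.mulVec_neg]
      abel
    · have := hblk (-(3 : ℂ) • 1)
      have e : -((-(3 : ℂ) • (1 : Matrix (Fin 2) (Fin 2) ℂ)).mulVec v) = fun i => 3 * v i := by
        ext i
        rw [Matrix.smul_mulVec, Matrix.one_mulVec]
        simp
      rw [e] at this
      exact this
    · exact hblk (Dmat τ)
  constructor
  · intro h
    exact h E hE
  · rintro ⟨M, rfl⟩ L hL
    obtain ⟨u, hu⟩ := (hL.inf hE).exists_all h1 M
    obtain ⟨M', hM'⟩ := hu.2
    obtain ⟨e1, e2⟩ := blk_inj hM'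
    rw [← e2] at e1
    rw [← e1]
    exact hu.1

/-- Complex multiplication, split. -/
theorem mtLie_cm_split {τ : ℍ} {v : Fin 2 → ℂ} (a b c : ℤ) (ha : a ≠ 0)
    (h1 : (a : ℂ) * (τ : ℂ) ^ 2 + b * (τ : ℂ) + c = 0) (r : Fin 2 → ℚ) (h2 : ∀ i, v i = r i)
    (A : Matrix (Fin 3) (Fin 3) ℚ) : A ∈ mtLie τ v ↔
      ∃ x y : ℚ, A = blk (-((x • 1 + y • !![-(b : ℚ), -(c : ℚ); (a : ℚ), 0]).mulVec r))
        (x • 1 + y • !![-(b : ℚ), -(c : ℚ); (a : ℚ), 0]) := by
  change A ∈ mtLie τ v ↔ ∃ x y : ℚ,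
    A = blk (-((x • 1 + y • Mcm a b c).mulVec r)) (x • 1 + y • Mcm a b c)
  rw [mem_mtLie]
  let E : Submodule ℚ (Matrix (Fin 3) (Fin 3) ℚ) :=
    { carrier := {A | ∃ x y : ℚ,
        A = blk (-((x • 1 + y • Mcm a b c).mulVec r)) (x • 1 + y • Mcm a b c)}
      add_mem' := by
        rintro _ _ ⟨x, y, rfl⟩ ⟨x', y', rfl⟩
        refine ⟨x + x', y + y', ?_⟩
        have e : (x + x') • (1 : Matrix (Fin 2) (Fin 2) ℚ) + (y + y') • Mcm a b c =
          (x • 1 + y • Mcm a b c) + (x' • 1 + y' • Mcm a b c) := by module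
        rw [e, blk_add, Matrix.add_mulVec (x • 1 + y • Mcm a b c)]
        congr 1
        abel
      zero_mem' := ⟨0, 0, by ext i j; fin_cases i <;> fin_cases j <;> simp [blk]⟩
      smul_mem' := by
        rintro t _ ⟨x, y, rfl⟩
        refine ⟨t * x, t * y, ?_⟩
        have e : (t * x) • (1 : Matrix (Fin 2) (Fin 2) ℚ) + (t * y) • Mcm a b c =
          t • (x • 1 + y • Mcm a b c) := by module
        rw [e, smul_blk, Matrix.smul_mulVec, smul_neg] }
  have hv : v = fun i => (r i : ℂ) := funext h2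
  have hblk : ∀ x y : ℂ, blk (-((x • 1 + y • (Mcm a b c).map (algebraMap ℚ ℂ)).mulVec v))
      (x • 1 + y • (Mcm a b c).map (algebraMap ℚ ℂ)) ∈ cplx E := by
    intro x y
    have m1 : blk (-(((1 : ℚ) • 1 + (0 : ℚ) • Mcm a b c).mulVec r))
        ((1 : ℚ) • 1 + (0 : ℚ) • Mcm a b c) ∈ E := ⟨1, 0, rfl⟩
    have m2 : blk (-(((0 : ℚ) • 1 + (1 : ℚ) • Mcm a b c).mulVec r))
        ((0 : ℚ) • 1 + (1 : ℚ) • Mcm a b c) ∈ E := ⟨0, 1, rfl⟩
    have e : blk (-((x • 1 + y • (Mcm a b c).map (algebraMap ℚ ℂ)).mulVec v))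
        (x • 1 + y • (Mcm a b c).map (algebraMap ℚ ℂ)) =
        x • (blk (-(((1 : ℚ) • 1 + (0 : ℚ) • Mcm a b c).mulVec r))
          ((1 : ℚ) • 1 + (0 : ℚ) • Mcm a b c)).map (algebraMap ℚ ℂ) +
        y • (blk (-(((0 : ℚ) • 1 + (1 : ℚ) • Mcm a b c).mulVec r))
          ((0 : ℚ) • 1 + (1 : ℚ) • Mcm a b c)).map (algebraMap ℚ ℂ) := by
      rw [hv]
      ext i j
      fin_cases i <;> fin_cases j <;>
        simp [blk, Mcm, Fin.sum_univ_two, dotProduct] <;> ring
    rw [e]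
    exact Submodule.add_mem _ (Submodule.smul_mem _ _ (mem_cplx_of m1))
      (Submodule.smul_mem _ _ (mem_cplx_of m2))
  have hE : IsGood τ v E := by
    apply isGood_of
    · rintro _ ⟨x, y, rfl⟩ _ ⟨x', y', rfl⟩
      refine ⟨0, 0, ?_⟩
      have hc : (x • (1 : Matrix (Fin 2) (Fin 2) ℚ) + y • Mcm a b c) *
          (x' • 1 + y' • Mcm a b c) = (x' • 1 + y' • Mcm a b c) * (x • 1 + y • Mcm a b c) := by
        simp only [add_mul, mul_add, smul_mul_assoc, mul_smul_comm, one_mul, mul_one]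
        module
      rw [blk_mul, blk_mul, blk_sub, Matrix.mulVec_neg, Matrix.mulVec_neg, Matrix.mulVec_mulVec,
        Matrix.mulVec_mulVec, hc, sub_self, sub_self]
      simp
    · have := hblk (-3) 0
      have e : -((-(3 : ℂ) • (1 : Matrix (Fin 2) (Fin 2) ℂ) + (0 : ℂ) •
          (Mcm a b c).map (algebraMap ℚ ℂ)).mulVec v) = fun i => 3 * v i := by
        ext i
        rw [zero_smul, add_zero, Matrix.smul_mulVec, Matrix.one_mulVec]
        simp
      rw [e, zero_smul, add_zero] at this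
      exact this
    · obtain ⟨x, y, hD⟩ := Dmat_eq τ a b c ha h1
      rw [hD]
      exact hblk x y
  constructor
  · intro h
    exact h E hE
  · rintro ⟨x, y, rfl⟩ L hL
    have hG := hL.inf hE
    obtain ⟨u1, hu1⟩ := hG.exists_one
    obtain ⟨u2, hu2⟩ := hG.exists_cm a b c ha h1
    have h5 := (L ⊓ E).add_mem ((L ⊓ E).smul_mem x hu1) ((L ⊓ E).smul_mem y hu2)
    rw [smul_blk, smul_blk, blk_add] at h5
    change blk (x • u1 + y • u2) (x • 1 + y • Mcm a b c) ∈ L ⊓ E at h5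
    obtain ⟨x', y', hM'⟩ := h5.2
    obtain ⟨e1, e2⟩ := blk_inj hM'
    rw [← e2] at e1
    rw [← e1]
    exact h5.1

end Pool.Agent.LibRk3
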