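import Pool.Agent.LibRk3.Defs

open UpperHalfPlane
open scoped MatrixGroups ComplexConjugate

namespace Pool.Agent.LibRk3

/-- The matrix with first row zero, first column `u` and lower right block `M`. -/
def blk {R : Type*} [Zero R] (u : Fin 2 → R) (M : Matrix (Fin 2) (Fin 2) R) :
    Matrix (Fin 3) (Fin 3) R :=
  !![0, 0, 0; u 0, M 0 0, M 0 1; u 1, M 1 0, M 1 1]

/-- The matrix with eigenvalue `1` on `(τ, 1)` and `-1` on `(conj τ, 1)`. -/
noncomputable def Dmat (τ : ℍ) : Matrix (Fin 2) (Fin 2) ℂ :=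
  ((τ : ℂ) - conj (τ : ℂ))⁻¹ •
    !![(τ : ℂ) + conj (τ : ℂ), -2 * ((τ : ℂ) * conj (τ : ℂ)); 2, -((τ : ℂ) + conj (τ : ℂ))]

private theorem sub_conj_ne_zero (τ : ℍ) : (τ : ℂ) - conj (τ : ℂ) ≠ 0 := by
  intro h
  have h1 := congrArg Complex.im h
  rw [Complex.sub_im, Complex.conj_im, Complex.zero_im] at h1
  have h2 : 0 < (τ : ℂ).im := τ.im_pos
  linarith

private theorem det_deligneBasis (τ : ℍ) (v : Fin 2 → ℂ) :
    IsUnit (deligneBasis τ v).det := by
  have h : (deligneBasis τ v).det = (τ : ℂ) - conj (τ : ℂ) := by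
    rw [deligneBasis, Matrix.det_fin_three]
    simp
  rw [h]
  exact (sub_conj_ne_zero τ).isUnit

private theorem conj_eq {τ : ℍ} {v : Fin 2 → ℂ} {X D : Matrix (Fin 3) (Fin 3) ℂ}
    (h : deligneBasis τ v * D = X * deligneBasis τ v) :
    deligneBasis τ v * D * (deligneBasis τ v)⁻¹ = X := by
  rw [h, Matrix.mul_assoc, Matrix.mul_nonsing_inv _ (det_deligneBasis τ v), Matrix.mul_one]

theorem opP_add_opQ (τ : ℍ) (v : Fin 2 → ℂ) :
    opP τ v + opQ τ v = blk (fun i => 3 * v i) (-(3 : ℂ) • 1) := by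
  rw [opP, opQ, ← Matrix.add_mul, ← Matrix.mul_add]
  apply conj_eq
  ext i j
  fin_cases i <;> fin_cases j <;>
    simp [deligneBasis, blk, Matrix.mul_apply, Fin.sum_univ_three, Matrix.diagonal_apply] <;> ring

private theorem Dmat_mul (τ : ℍ) :
    Dmat τ * !![(τ : ℂ), conj (τ : ℂ); 1, 1] = !![(τ : ℂ), -conj (τ : ℂ); 1, -1] := by
  have h := sub_conj_ne_zero τ
  rw [Dmat]
  ext i j
  fin_cases i <;> fin_cases j <;>
    simp [Matrix.mul_apply, Fin.sum_univ_two] <;> field_simp <;> ring

theorem opP_sub_opQ (τ : ℍ) (v : Fin 2 → ℂ) :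
    opP τ v - opQ τ v = blk (-(Dmat τ).mulVec v) (Dmat τ) := by
  rw [opP, opQ, ← Matrix.sub_mul, ← Matrix.mul_sub]
  apply conj_eq
  have h := Dmat_mul τ
  have h00 := congrFun (congrFun h 0) 0
  have h01 := congrFun (congrFun h 0) 1
  have h10 := congrFun (congrFun h 1) 0
  have h11 := congrFun (congrFun h 1) 1
  simp only [Matrix.mul_apply, Fin.sum_univ_two, Matrix.of_apply, Matrix.cons_val_zero,
    Matrix.cons_val_one] at h00 h01 h10 h11
  generalize Dmat τ = D at *
  ext i j
  fin_cases i <;> fin_cases j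
  · simp [deligneBasis, blk, Matrix.mul_apply, Fin.sum_univ_three, Matrix.diagonal_apply]
  · simp [deligneBasis, blk, Matrix.mul_apply, Fin.sum_univ_three, Matrix.diagonal_apply]
  · simp [deligneBasis, blk, Matrix.mul_apply, Fin.sum_univ_three, Matrix.diagonal_apply]
  · simp [deligneBasis, blk, Matrix.mul_apply, Fin.sum_univ_three, Matrix.diagonal_apply]
  · simp [deligneBasis, blk, Matrix.mul_apply, Fin.sum_univ_three, Matrix.diagonal_apply]
    linear_combination -h00
  · simp [deligneBasis, blk, Matrix.mul_apply, Fin.sum_univ_three, Matrix.diagonal_apply]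
    linear_combination -h01
  · simp [deligneBasis, blk, Matrix.mul_apply, Fin.sum_univ_three, Matrix.diagonal_apply]
  · simp [deligneBasis, blk, Matrix.mul_apply, Fin.sum_univ_three, Matrix.diagonal_apply]
    linear_combination -h10
  · simp [deligneBasis, blk, Matrix.mul_apply, Fin.sum_univ_three, Matrix.diagonal_apply]
    linear_combination -h11

/-- A complex matrix lies in the complexification of a rational space of matrices iff all its
coordinates over the rational numbers lie in the space. -/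
theorem mem_cplx_iff {L : Submodule ℚ (Matrix (Fin 3) (Fin 3) ℚ)}
    {A : Matrix (Fin 3) (Fin 3) ℂ} : A ∈ cplx L ↔ ∀ φ : ℂ →ₗ[ℚ] ℚ, A.map φ ∈ L := by
  constructor
  · intro h
    rw [cplx] at h
    induction h using Submodule.span_induction with
    | mem x hx =>
      obtain ⟨M, hM, rfl⟩ := hx
      intro φ
      have : (M.map (algebraMap ℚ ℂ)).map φ = φ 1 • M := by
        ext i j
        have h1 : algebraMap ℚ ℂ (M i j) = M i j • (1 : ℂ) := by
          rw [Algebra.smul_def, mul_one]
        rw [Matrix.map_apply, Matrix.map_apply, h1, map_smul, Matrix.smul_apply, smul_eq_mul,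
          smul_eq_mul, mul_comm]
      change (M.map (algebraMap ℚ ℂ)).map φ ∈ L
      rw [this]
      exact L.smul_mem _ hM
    | zero =>
      intro φ
      have : (0 : Matrix (Fin 3) (Fin 3) ℂ).map φ = 0 := by
        ext i j
        simp
      rw [this]
      exact L.zero_mem
    | add x y _ _ h1 h2 =>
      intro φ
      have : (x + y).map φ = x.map φ + y.map φ := by
        ext i j
        simp
      rw [this]
      exact L.add_mem (h1 φ) (h2 φ)
    | smul a x _ h1 =>
      intro φ
      have : (a • x).map φ = x.map (φ ∘ₗ LinearMap.mulLeft ℚ a) := by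
        ext i j
        simp
      rw [this]
      exact h1 _
  · intro h
    set b := Module.Basis.ofVectorSpace ℚ ℂ with hb
    set S := (Finset.univ : Finset (Fin 3)).biUnion fun i =>
      (Finset.univ : Finset (Fin 3)).biUnion fun j => (b.repr (A i j)).support with hS
    have hA : A = ∑ k ∈ S, b k • (A.map (b.coord k)).map (algebraMap ℚ ℂ) := by
      ext i j
      have h1 : (b.repr (A i j)).sum (fun k c => c • b k) = A i j := b.linearCombination_repr _
      have h2 : (b.repr (A i j)).support ⊆ S := by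
        intro k hk
        rw [hS, Finset.mem_biUnion]
        refine ⟨i, Finset.mem_univ _, ?_⟩
        rw [Finset.mem_biUnion]
        exact ⟨j, Finset.mem_univ _, hk⟩
      have h3 : (b.repr (A i j)).sum (fun k c => c • b k) =
          ∑ k ∈ S, (b.repr (A i j)) k • b k :=
        Finsupp.sum_of_support_subset _ h2 _ (fun k _ => zero_smul _ _)
      refine (h1.symm.trans h3).trans ?_
      rw [Matrix.sum_apply]
      refine Finset.sum_congr rfl fun k _ => ?_
      rw [Matrix.smul_apply, Matrix.map_apply, Matrix.map_apply, smul_eq_mul,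
        Module.Basis.coord_apply, Algebra.smul_def, mul_comm]
    rw [hA]
    refine Submodule.sum_mem _ fun k _ => Submodule.smul_mem _ _ ?_
    exact Submodule.subset_span ⟨_, h (b.coord k), rfl⟩

/-- A rational matrix in the complexification of a rational space belongs to the space. -/
theorem mem_of_mem_cplx {L : Submodule ℚ (Matrix (Fin 3) (Fin 3) ℚ)}
    {A : Matrix (Fin 3) (Fin 3) ℚ} (h : A.map (algebraMap ℚ ℂ) ∈ cplx L) : A ∈ L := by
  obtain ⟨φ, hφ⟩ := LinearMap.exists_leftInverse_of_injective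
    (Algebra.linearMap ℚ ℂ) (LinearMap.ker_eq_bot.2 (algebraMap ℚ ℂ).injective)
  have h1 := mem_cplx_iff.1 h φ
  have h2 : (A.map (algebraMap ℚ ℂ)).map φ = A := by
    ext i j
    exact LinearMap.congr_fun hφ (A i j)
  rwa [h2] at h1

/-- Complexification commutes with intersection. -/
theorem cplx_inf (L L' : Submodule ℚ (Matrix (Fin 3) (Fin 3) ℚ)) :
    cplx (L ⊓ L') = cplx L ⊓ cplx L' := by
  ext A
  rw [Submodule.mem_inf, mem_cplx_iff, mem_cplx_iff, mem_cplx_iff]
  simp only [Submodule.mem_inf]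
  exact forall_and

/-- The rational spaces of matrices in the definition of the Mumford-Tate Lie algebra. -/
def IsGood (τ : ℍ) (v : Fin 2 → ℂ) (L : Submodule ℚ (Matrix (Fin 3) (Fin 3) ℚ)) : Prop :=
  (∀ A ∈ L, ∀ B ∈ L, A * B - B * A ∈ L) ∧ opP τ v ∈ cplx L ∧ opQ τ v ∈ cplx L

theorem IsGood.inf {τ : ℍ} {v : Fin 2 → ℂ} {L L' : Submodule ℚ (Matrix (Fin 3) (Fin 3) ℚ)}
    (h : IsGood τ v L) (h' : IsGood τ v L') : IsGood τ v (L ⊓ L') := by
  refine ⟨fun A hA B hB => ⟨h.1 A hA.1 B hB.1, h'.1 A hA.2 B hB.2⟩, ?_, ?_⟩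
  · rw [cplx_inf]; exact ⟨h.2.1, h'.2.1⟩
  · rw [cplx_inf]; exact ⟨h.2.2, h'.2.2⟩

/-- The rational matrices with first row zero. -/
def parab : Submodule ℚ (Matrix (Fin 3) (Fin 3) ℚ) where
  carrier := {A | ∀ j, A 0 j = 0}
  add_mem' := by
    intro A B hA hB j
    rw [Matrix.add_apply, hA j, hB j, add_zero]
  zero_mem' := by
    intro j; rfl
  smul_mem' := by
    intro a A hA j
    rw [Matrix.smul_apply, hA j, smul_zero]

theorem isGood_parab (τ : ℍ) (v : Fin 2 → ℂ) : IsGood τ v parab := by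
  have h1 := opP_add_opQ τ v
  have h2 := opP_sub_opQ τ v
  have e1 : ∀ j, opP τ v 0 j + opQ τ v 0 j = 0 := by
    intro j
    have := congrFun (congrFun h1 0) j
    rw [Matrix.add_apply] at this
    rw [this]
    fin_cases j <;> simp [blk]
  have e2 : ∀ j, opP τ v 0 j - opQ τ v 0 j = 0 := by
    intro j
    have := congrFun (congrFun h2 0) j
    rw [Matrix.sub_apply] at this
    rw [this]
    fin_cases j <;> simp [blk]
  have e3 : ∀ j, opP τ v 0 j = 0 := fun j => by
    linear_combination (e1 j + e2 j) / 2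
  have e4 : ∀ j, opQ τ v 0 j = 0 := fun j => by
    linear_combination (e1 j - e2 j) / 2
  refine ⟨?_, ?_, ?_⟩
  · intro A hA B hB j
    have hA' : ∀ j, A 0 j = 0 := hA
    have hB' : ∀ j, B 0 j = 0 := hB
    rw [Matrix.sub_apply, Matrix.mul_apply, Matrix.mul_apply]
    simp [hA', hB']
  · rw [mem_cplx_iff]
    intro φ j
    rw [Matrix.map_apply, e3, map_zero]
  · rw [mem_cplx_iff]
    intro φ j
    rw [Matrix.map_apply, e4, map_zero]

end Pool.Agent.LibRk3
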