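import Pool.Agent.LibRk3.MT0

open UpperHalfPlane
open scoped MatrixGroups ComplexConjugate

namespace Pool.Agent.LibRk3

variable {τ : ℍ} {v : Fin 2 → ℂ} {L : Submodule ℚ (Matrix (Fin 3) (Fin 3) ℚ)}

/-- The rational matrices with only the first column nonzero, below the first row. -/
private def uni : Submodule ℚ (Matrix (Fin 3) (Fin 3) ℚ) where
  carrier := {A | ∃ u : Fin 2 → ℚ, A = blk u 0}
  add_mem' := by
    rintro A B ⟨u, rfl⟩ ⟨w, rfl⟩
    refine ⟨u + w, ?_⟩
    ext i j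
    fin_cases i <;> fin_cases j <;> simp [blk]
  zero_mem' := by
    refine ⟨0, ?_⟩
    ext i j
    fin_cases i <;> fin_cases j <;> simp [blk]
  smul_mem' := by
    rintro a A ⟨u, rfl⟩
    refine ⟨a • u, ?_⟩
    ext i j
    fin_cases i <;> fin_cases j <;> simp [blk]

private theorem map_mem_cplx {A : Matrix (Fin 3) (Fin 3) ℚ} (h : A ∈ L) :
    A.map (algebraMap ℚ ℂ) ∈ cplx L :=
  Submodule.subset_span ⟨A, h, rfl⟩

private theorem cplx_mono {L L' : Submodule ℚ (Matrix (Fin 3) (Fin 3) ℚ)} (h : L ≤ L') :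
    cplx L ≤ cplx L' :=
  Submodule.span_mono (Set.image_mono h)

private theorem map_blk (u : Fin 2 → ℚ) (M : Matrix (Fin 2) (Fin 2) ℚ) :
    (blk u M).map (algebraMap ℚ ℂ) = blk (fun i => (u i : ℂ)) (M.map (algebraMap ℚ ℂ)) := by
  ext i j
  fin_cases i <;> fin_cases j <;> simp [blk]

private theorem blk_mem_cplx_uni (w : Fin 2 → ℂ) : blk w 0 ∈ cplx uni := by
  have h1 : (blk ![1, 0] 0 : Matrix (Fin 3) (Fin 3) ℚ) ∈ uni := ⟨_, rfl⟩
  have h2 : (blk ![0, 1] 0 : Matrix (Fin 3) (Fin 3) ℚ) ∈ uni := ⟨_, rfl⟩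
  have h := Submodule.add_mem _ (Submodule.smul_mem _ (w 0) (map_mem_cplx h1))
    (Submodule.smul_mem _ (w 1) (map_mem_cplx h2))
  convert h using 1
  ext i j
  fin_cases i <;> fin_cases j <;> simp [blk]

/-- Lifting a rational lower right block. -/
private theorem exists_lift (M : Matrix (Fin 2) (Fin 2) ℚ) (w : Fin 2 → ℂ)
    (h : blk w (M.map (algebraMap ℚ ℂ)) ∈ cplx L) : ∃ u : Fin 2 → ℚ, blk u M ∈ L := by
  have h1 : (blk (0 : Fin 2 → ℚ) M).map (algebraMap ℚ ℂ) ∈ cplx (L ⊔ uni) := by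
    have h2 := Submodule.add_mem _ (cplx_mono (le_sup_left : L ≤ L ⊔ uni) h)
      (cplx_mono (le_sup_right : uni ≤ L ⊔ uni) (blk_mem_cplx_uni (-w)))
    convert h2 using 1
    rw [map_blk]
    ext i j
    fin_cases i <;> fin_cases j <;> simp [blk]
  have h3 := mem_of_mem_cplx h1
  obtain ⟨A, hA, B, ⟨u, rfl⟩, hAB⟩ := Submodule.mem_sup.1 h3
  refine ⟨-u, ?_⟩
  convert hA using 1
  have : A = blk (0 : Fin 2 → ℚ) M - blk u 0 := by rw [← hAB]; abel
  rw [this]
  ext i j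
  fin_cases i <;> fin_cases j <;> simp [blk]

/-- A lift of the identity. -/
theorem IsGood.exists_one (h : IsGood τ v L) : ∃ u : Fin 2 → ℚ, blk u 1 ∈ L := by
  refine exists_lift 1 (-v) ?_
  have h1 := Submodule.smul_mem _ (-(1 / 3 : ℂ)) (Submodule.add_mem _ h.2.1 h.2.2)
  rw [opP_add_opQ] at h1
  convert h1 using 1
  ext i j
  fin_cases i <;> fin_cases j <;> simp [blk]

private theorem sub_conj_ne (τ : ℍ) : (τ : ℂ) - conj (τ : ℂ) ≠ 0 := by
  intro h
  have h1 := congrArg Complex.im h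
  simp at h1
  exact τ.im_ne_zero h1

/-- With complex multiplication: a lift of the endomorphism. -/
theorem IsGood.exists_cm (h : IsGood τ v L) (a b c : ℤ) (ha : a ≠ 0)
    (h1 : (a : ℂ) * (τ : ℂ) ^ 2 + b * (τ : ℂ) + c = 0) :
    ∃ u : Fin 2 → ℚ, blk u !![-(b : ℚ), -(c : ℚ); (a : ℚ), 0] ∈ L := by
  have hne := sub_conj_ne τ
  have h2 : (a : ℂ) * (conj (τ : ℂ)) ^ 2 + b * (conj (τ : ℂ)) + c = 0 := by
    have := congrArg (starRingEnd ℂ) h1
    simpa using this
  -- sum of roots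
  have h3 : (a : ℂ) * ((τ : ℂ) + conj (τ : ℂ)) = -b := by
    have : ((τ : ℂ) - conj (τ : ℂ)) * ((a : ℂ) * ((τ : ℂ) + conj (τ : ℂ)) + b) = 0 := by
      linear_combination h1 - h2
    rcases mul_eq_zero.1 this with h | h
    · exact absurd h hne
    · linear_combination h
  have h4 : (a : ℂ) * ((τ : ℂ) * conj (τ : ℂ)) = c := by
    linear_combination (τ : ℂ) * h3 - h1
  have e1 := Submodule.smul_mem _ ((a : ℂ) * ((τ : ℂ) - conj (τ : ℂ)) / 2)
    (Submodule.sub_mem _ h.2.1 h.2.2)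
  have e2 := Submodule.smul_mem _ ((b : ℂ) / 6) (Submodule.add_mem _ h.2.1 h.2.2)
  rw [opP_sub_opQ] at e1
  rw [opP_add_opQ] at e2
  have e3 := Submodule.add_mem _ e1 e2
  set w : Fin 2 → ℂ := fun i => ((a : ℂ) * ((τ : ℂ) - conj (τ : ℂ)) / 2) *
    (-(Dmat τ).mulVec v) i + (b : ℂ) / 6 * (3 * v i) with hw
  refine exists_lift _ w ?_
  convert e3 using 1
  have d00 : (a : ℂ) * ((τ : ℂ) - conj (τ : ℂ)) / 2 * Dmat τ 0 0 = -(b : ℂ) / 2 := by
    simp only [Dmat, Matrix.smul_apply, Matrix.of_apply, Matrix.cons_val', Matrix.cons_val_zero,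
      smul_eq_mul]
    field_simp
    linear_combination h3
  have d01 : (a : ℂ) * ((τ : ℂ) - conj (τ : ℂ)) / 2 * Dmat τ 0 1 = -(c : ℂ) := by
    simp only [Dmat, Matrix.smul_apply, Matrix.of_apply, Matrix.cons_val', Matrix.cons_val_zero,
      Matrix.cons_val_one, smul_eq_mul]
    field_simp
    linear_combination -h4
  have d10 : (a : ℂ) * ((τ : ℂ) - conj (τ : ℂ)) / 2 * Dmat τ 1 0 = (a : ℂ) := by
    simp only [Dmat, Matrix.smul_apply, Matrix.of_apply, Matrix.cons_val', Matrix.cons_val_zero,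
      Matrix.cons_val_one, smul_eq_mul]
    field_simp
  have d11 : (a : ℂ) * ((τ : ℂ) - conj (τ : ℂ)) / 2 * Dmat τ 1 1 = (b : ℂ) / 2 := by
    simp only [Dmat, Matrix.smul_apply, Matrix.of_apply, Matrix.cons_val', Matrix.cons_val_zero,
      Matrix.cons_val_one, smul_eq_mul]
    field_simp
    linear_combination -h3
  ext i j
  fin_cases i <;> fin_cases j
  · simp [blk]
  · simp [blk]
  · simp [blk]
  · simp [blk, hw]
    ring
  · simp [blk]
    rw [d00]; ring
  · simp [blk]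
    rw [d01]
  · simp [blk, hw]
    ring
  · simp [blk]
    rw [d10]
  · simp [blk]
    rw [d11]; ring

private theorem bracket_mem (h : IsGood τ v L) {B : Matrix (Fin 3) (Fin 3) ℚ} (hB : B ∈ L)
    {X : Matrix (Fin 3) (Fin 3) ℂ} (hX : X ∈ cplx L) :
    X * B.map (algebraMap ℚ ℂ) - B.map (algebraMap ℚ ℂ) * X ∈ cplx L := by
  refine Submodule.span_induction (p := fun X _ => X * B.map (algebraMap ℚ ℂ) -
    B.map (algebraMap ℚ ℂ) * X ∈ cplx L) ?_ ?_ ?_ ?_ hX
  · rintro _ ⟨A, hA, rfl⟩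
    have := map_mem_cplx (h.1 A hA B hB)
    rw [Matrix.map_sub (algebraMap ℚ ℂ) (map_sub _), Matrix.map_mul, Matrix.map_mul] at this
    exact this
  · simp
  · intro X Y _ _ h1 h2
    have := Submodule.add_mem _ h1 h2
    convert this using 1
    noncomm_ring
  · intro a X _ h1
    have := Submodule.smul_mem _ a h1
    convert this using 1
    rw [smul_sub, Matrix.smul_mul, Matrix.mul_smul]

/-- In the non split case the unipotent radical is everything. -/
theorem IsGood.unip (h : IsGood τ v L) (h2 : ¬ IsRat v) (u : Fin 2 → ℚ) : blk u 0 ∈ L := by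
  obtain ⟨u0, hu0⟩ := h.exists_one
  -- a nonzero unipotent element
  have h3 : blk (fun i => v i + u0 i) 0 ∈ cplx (L ⊓ uni) := by
    rw [cplx_inf]
    refine ⟨?_, blk_mem_cplx_uni _⟩
    have e1 := Submodule.smul_mem _ (1 / 3 : ℂ) (Submodule.add_mem _ h.2.1 h.2.2)
    rw [opP_add_opQ] at e1
    have e2 := Submodule.add_mem _ e1 (map_mem_cplx hu0)
    rw [map_blk] at e2
    refine (congrArg (fun Y => Y ∈ cplx L) ?_).mpr e2
    ext i j
    fin_cases i <;> fin_cases j <;> simp [blk]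
  have h4 : ∃ u1 : Fin 2 → ℚ, u1 ≠ 0 ∧ blk u1 0 ∈ L := by
    by_contra hcon
    push Not at hcon
    have h5 : L ⊓ uni = ⊥ := by
      rw [eq_bot_iff]
      rintro A ⟨hA1, ⟨u1, rfl⟩⟩
      rw [Submodule.mem_bot]
      by_cases hu1 : u1 = 0
      · subst hu1
        ext i j
        fin_cases i <;> fin_cases j <;> simp [blk]
      · exact absurd hA1 (hcon u1 hu1)
    rw [h5] at h3
    have h6 : cplx ⊥ = ⊥ := by
      rw [eq_bot_iff]
      refine Submodule.span_le.2 ?_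
      rintro _ ⟨A, hA, rfl⟩
      have : A = 0 := hA
      subst this
      simp
    rw [h6, Submodule.mem_bot] at h3
    refine h2 ⟨fun i => -u0 i, fun i => ?_⟩
    have e0 := congrFun (congrFun h3 1) 0
    have e1 := congrFun (congrFun h3 2) 0
    simp [blk] at e0 e1
    fin_cases i
    · simp
      linear_combination e0
    · simp
      linear_combination e1
  obtain ⟨u1, hu1, hL1⟩ := h4
  -- a second one
  have h5 : ∃ u2 : Fin 2 → ℚ, u1 0 * u2 1 - u1 1 * u2 0 ≠ 0 ∧ blk u2 0 ∈ L := by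
    by_contra hcon
    push Not at hcon
    have h6 : ∀ X ∈ cplx (L ⊓ uni), (u1 0 : ℂ) * X 2 0 - u1 1 * X 1 0 = 0 := by
      intro X hX
      refine Submodule.span_induction (p := fun X _ => (u1 0 : ℂ) * X 2 0 - u1 1 * X 1 0 = 0)
        ?_ ?_ ?_ ?_ hX
      · rintro _ ⟨A, ⟨hA1, ⟨u2, rfl⟩⟩, rfl⟩
        have h7 : u1 0 * u2 1 - u1 1 * u2 0 = 0 := by
          by_contra hne
          exact hcon u2 hne hA1
        have h8 : ((u1 0 * u2 1 - u1 1 * u2 0 : ℚ) : ℂ) = 0 := by rw [h7]; simp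
        push_cast at h8
        simpa [blk] using h8
      · simp
      · intro X Y _ _ hX hY
        simp only [Matrix.add_apply]
        linear_combination hX + hY
      · intro a X _ hX
        simp only [Matrix.smul_apply, smul_eq_mul]
        linear_combination a * hX
    have h7 : blk ((Dmat τ).mulVec (fun i => (u1 i : ℂ))) 0 ∈ cplx (L ⊓ uni) := by
      rw [cplx_inf]
      refine ⟨?_, blk_mem_cplx_uni _⟩
      have e1 := bracket_mem h hL1 (Submodule.sub_mem _ h.2.1 h.2.2)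
      rw [opP_sub_opQ, map_blk] at e1
      refine (congrArg (fun Y => Y ∈ cplx L) ?_).mpr e1
      ext i j
      fin_cases i <;> fin_cases j <;>
        simp [blk, Fin.sum_univ_succ, Matrix.mulVec, dotProduct]
    have h8 := h6 _ h7
    have hne := sub_conj_ne τ
    have k1 : (blk ((Dmat τ).mulVec (fun i => (u1 i : ℂ))) 0 : Matrix (Fin 3) (Fin 3) ℂ) 1 0 =
        ((τ : ℂ) - conj (τ : ℂ))⁻¹ * (((τ : ℂ) + conj (τ : ℂ)) * u1 0 -
          2 * ((τ : ℂ) * conj (τ : ℂ)) * u1 1) := by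
      simp [blk, Dmat, Matrix.mulVec, dotProduct, Fin.sum_univ_two]
      ring
    have k2 : (blk ((Dmat τ).mulVec (fun i => (u1 i : ℂ))) 0 : Matrix (Fin 3) (Fin 3) ℂ) 2 0 =
        ((τ : ℂ) - conj (τ : ℂ))⁻¹ * (2 * u1 0 - ((τ : ℂ) + conj (τ : ℂ)) * u1 1) := by
      simp [blk, Dmat, Matrix.mulVec, dotProduct, Fin.sum_univ_two]
      ring
    rw [k1, k2] at h8
    have h8' : ((τ : ℂ) - conj (τ : ℂ))⁻¹ * (2 * (((u1 0 : ℂ) - τ * u1 1) *
        ((u1 0 : ℂ) - conj (τ : ℂ) * u1 1))) = 0 := by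
      linear_combination h8
    have h9 : ((u1 0 : ℂ) - τ * u1 1) * conj ((u1 0 : ℂ) - τ * u1 1) = 0 := by
      have e : conj ((u1 0 : ℂ) - τ * u1 1) = (u1 0 : ℂ) - conj (τ : ℂ) * u1 1 := by
        simp
      rw [e]
      rcases mul_eq_zero.1 h8' with h | h
      · exact absurd h (inv_ne_zero hne)
      · rcases mul_eq_zero.1 h with h | h
        · norm_num at h
        · exact h
    rw [Complex.mul_conj] at h9
    have h10 : Complex.normSq ((u1 0 : ℂ) - τ * u1 1) = 0 := by exact_mod_cast h9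
    have h11 := Complex.normSq_eq_zero.1 h10
    have h12 := congrArg Complex.im h11
    have h13 : (u1 1 : ℝ) * τ.im = 0 := by
      have h16 : ((u1 0 : ℝ) : ℂ) - (τ : ℂ) * ((u1 1 : ℝ) : ℂ) = 0 := by
        rw [← h11]; push_cast; rfl
      have h17 := congrArg Complex.im h16
      rw [Complex.sub_im, Complex.ofReal_im, Complex.im_mul_ofReal, Complex.zero_im] at h17
      have h18 : (τ : ℂ).im = τ.im := rfl
      rw [h18] at h17
      linarith
    have h14 : u1 1 = 0 := by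
      rcases mul_eq_zero.1 h13 with h | h
      · exact_mod_cast h
      · exact absurd h τ.im_ne_zero
    have h15 : u1 0 = 0 := by
      rw [h14] at h11
      simp at h11
      exact_mod_cast h11
    apply hu1
    ext i
    fin_cases i
    · exact h15
    · exact h14
  obtain ⟨u2, hne, hL2⟩ := h5
  have h6 := Submodule.add_mem _
    (Submodule.smul_mem _ ((u 0 * u2 1 - u 1 * u2 0) / (u1 0 * u2 1 - u1 1 * u2 0)) hL1)
    (Submodule.smul_mem _ ((u1 0 * u 1 - u1 1 * u 0) / (u1 0 * u2 1 - u1 1 * u2 0)) hL2)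
  have c0 : u 0 = (u 0 * u2 1 - u 1 * u2 0) / (u1 0 * u2 1 - u1 1 * u2 0) * u1 0 +
      (u1 0 * u 1 - u1 1 * u 0) / (u1 0 * u2 1 - u1 1 * u2 0) * u2 0 := by
    rw [div_mul_eq_mul_div, div_mul_eq_mul_div, ← add_div, eq_div_iff hne]
    ring
  have c1 : u 1 = (u 0 * u2 1 - u 1 * u2 0) / (u1 0 * u2 1 - u1 1 * u2 0) * u1 1 +
      (u1 0 * u 1 - u1 1 * u 0) / (u1 0 * u2 1 - u1 1 * u2 0) * u2 1 := by
    rw [div_mul_eq_mul_div, div_mul_eq_mul_div, ← add_div, eq_div_iff hne]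
    ring
  convert h6 using 1
  ext i j
  fin_cases i <;> fin_cases j
  · simp [blk]
  · simp [blk]
  · simp [blk]
  · simp [blk]
    exact c0
  · simp [blk]
  · simp [blk]
  · simp [blk]
    exact c1
  · simp [blk]
  · simp [blk]

end Pool.Agent.LibRk3
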