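import Pool.Agent.LibRk3.MTK

open UpperHalfPlane
open scoped MatrixGroups ComplexConjugate

namespace Pool.Agent.LibRk3

variable {τ : ℍ} {v : Fin 2 → ℂ} {L : Submodule ℚ (Matrix (Fin 3) (Fin 3) ℚ)}

private theorem tau_sub_conj_ne (τ : ℍ) : (τ : ℂ) - conj (τ : ℂ) ≠ 0 := by
  intro h
  have h1 := congrArg Complex.im h
  simp at h1
  exact τ.im_ne_zero h1

/-- A rational linear form vanishing on `L` vanishes on the complexification. -/
private theorem form_cplx (p q r d : ℚ)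
    (h : ∀ A ∈ L, p * A 1 1 + q * A 2 1 + r * A 1 2 + d * A 2 2 = 0)
    {X : Matrix (Fin 3) (Fin 3) ℂ} (hX : X ∈ cplx L) :
    (p : ℂ) * X 1 1 + q * X 2 1 + r * X 1 2 + d * X 2 2 = 0 := by
  refine Submodule.span_induction (p := fun X _ =>
    (p : ℂ) * X 1 1 + q * X 2 1 + r * X 1 2 + d * X 2 2 = 0) ?_ ?_ ?_ ?_ hX
  · rintro _ ⟨A, hA, rfl⟩
    have h1 : ((p * A 1 1 + q * A 2 1 + r * A 1 2 + d * A 2 2 : ℚ) : ℂ) = 0 := by
      rw [h A hA]; simp
    push_cast at h1
    exact h1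
  · simp
  · intro X Y _ _ hX hY
    simp only [Matrix.add_apply]
    linear_combination hX + hY
  · intro a X _ hX
    simp only [Matrix.smul_apply, smul_eq_mul]
    linear_combination a * hX

private theorem form_D (h : IsGood τ v L) (p q r d : ℚ)
    (hL : ∀ A ∈ L, p * A 1 1 + q * A 2 1 + r * A 1 2 + d * A 2 2 = 0) :
    ((p : ℂ) - d) * ((τ : ℂ) + conj (τ : ℂ)) + 2 * q - 2 * r * ((τ : ℂ) * conj (τ : ℂ)) = 0 := by
  have h1 := form_cplx p q r d hL (Submodule.sub_mem _ h.2.1 h.2.2)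
  rw [opP_sub_opQ] at h1
  simp [blk, Dmat] at h1
  have h2 : ((τ : ℂ) - conj (τ : ℂ))⁻¹ * (((p : ℂ) - d) * ((τ : ℂ) + conj (τ : ℂ)) + 2 * q -
      2 * r * ((τ : ℂ) * conj (τ : ℂ))) = 0 := by
    linear_combination h1
  rcases mul_eq_zero.1 h2 with h | h
  · exact absurd h (inv_ne_zero (tau_sub_conj_ne τ))
  · exact h

private theorem real_quad (τ : ℍ) (p r : ℚ)
    (h : ((p : ℂ) - r * τ) * ((p : ℂ) - r * conj (τ : ℂ)) = 0) : r = 0 := by
  have e : conj ((p : ℂ) - r * τ) = (p : ℂ) - r * conj (τ : ℂ) := by simp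
  rw [← e, Complex.mul_conj] at h
  have h10 : Complex.normSq ((p : ℂ) - r * τ) = 0 := by exact_mod_cast h
  have h11 := Complex.normSq_eq_zero.1 h10
  have h16 : ((p : ℝ) : ℂ) - ((r : ℝ) : ℂ) * (τ : ℂ) = 0 := by
    rw [← h11]; push_cast; rfl
  have h17 := congrArg Complex.im h16
  rw [Complex.sub_im, Complex.ofReal_im, Complex.im_ofReal_mul, Complex.zero_im] at h17
  have h18 : (τ : ℂ).im = τ.im := rfl
  rw [h18] at h17
  have h19 : (r : ℝ) * τ.im = 0 := by linarith
  rcases mul_eq_zero.1 h19 with h | h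
  · exact_mod_cast h
  · exact absurd h τ.im_ne_zero

private theorem isCM_of_rat (τ : ℍ) (X Y Z : ℚ) (hX : X ≠ 0)
    (h : (X : ℂ) * (τ : ℂ) ^ 2 + Y * (τ : ℂ) + Z = 0) : IsCM τ := by
  refine ⟨X.num * (Y.den * Z.den), Y.num * (X.den * Z.den), Z.num * (X.den * Y.den), ?_, ?_⟩
  · have h1 : X.num ≠ 0 := Rat.num_ne_zero.2 hX
    have h2 : (Y.den : ℤ) ≠ 0 := by exact_mod_cast Y.den_ne_zero
    have h3 : (Z.den : ℤ) ≠ 0 := by exact_mod_cast Z.den_ne_zero
    exact mul_ne_zero h1 (mul_ne_zero h2 h3)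
  · have hx : (X : ℂ) * X.den = X.num := by exact_mod_cast Rat.mul_den_eq_num X
    have hy : (Y : ℂ) * Y.den = Y.num := by exact_mod_cast Rat.mul_den_eq_num Y
    have hz : (Z : ℂ) * Z.den = Z.num := by exact_mod_cast Rat.mul_den_eq_num Z
    push_cast
    rw [← hx, ← hy, ← hz]
    linear_combination (X.den * Y.den * Z.den : ℂ) * h

private theorem no_form (h : IsGood τ v L) (h1 : ¬ IsCM τ) (hp : L ≤ parab) (p q r : ℚ)
    (hL : ∀ A ∈ L, p * A 1 1 + q * A 2 1 + r * A 1 2 + (-p) * A 2 2 = 0) :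
    p = 0 ∧ q = 0 ∧ r = 0 := by
  have e1 := form_D h p q r (-p) hL
  push_cast at e1
  have hn : (τ : ℂ) * conj (τ : ℂ) ≠ 0 := by
    rw [Complex.mul_conj]
    have h2 : Complex.normSq (τ : ℂ) ≠ 0 := by
      rw [Ne, Complex.normSq_eq_zero]
      exact τ.ne_zero
    exact_mod_cast h2
  -- the bracket
  have hbr : ∀ B ∈ L, ∀ A ∈ L, (q * B 2 1 - r * B 1 2) * A 1 1 +
      (2 * p * B 1 2 + q * (B 2 2 - B 1 1)) * A 2 1 + (r * (B 1 1 - B 2 2) - 2 * p * B 2 1) * A 1 2
      + (-(q * B 2 1 - r * B 1 2)) * A 2 2 = 0 := by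
    intro B hB A hA
    have h2 := hL _ (h.1 B hB A hA)
    have a0 : ∀ j, A 0 j = 0 := hp hA
    have b0 : ∀ j, B 0 j = 0 := hp hB
    simp only [Matrix.sub_apply, Matrix.mul_apply, Fin.sum_univ_three, a0, b0] at h2
    linear_combination h2
  by_cases hall : ∀ B ∈ L, (q * B 2 1 - r * B 1 2) * q -
      (2 * p * B 1 2 + q * (B 2 2 - B 1 1)) * p = 0
  · have e2 := form_D h (p * q) (q ^ 2) (-(q * r) - 2 * p ^ 2) (-(p * q)) (by
      intro A hA
      linear_combination hall A hA)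
    push_cast at e2
    have e3 : ((p : ℂ) ^ 2 + q * r) * ((τ : ℂ) * conj (τ : ℂ)) = 0 := by
      linear_combination (1 / 4) * e2 - (1 / 4) * (q : ℂ) * e1
    have e4 : (p : ℂ) ^ 2 + q * r = 0 := by
      rcases mul_eq_zero.1 e3 with h | h
      · exact h
      · exact absurd h hn
    have e4' : p ^ 2 + q * r = 0 := by exact_mod_cast e4
    have hr : r = 0 := by
      refine real_quad τ p r ?_
      linear_combination e4 - (1 / 2) * (r : ℂ) * e1
    subst hr
    have hp0 : p = 0 := by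
      have : p ^ 2 = 0 := by linear_combination e4'
      exact pow_eq_zero_iff (two_ne_zero) |>.1 this
    subst hp0
    refine ⟨rfl, ?_, rfl⟩
    have : (2 : ℂ) * q = 0 := by
      push_cast at e1
      linear_combination e1
    have h3 : (q : ℂ) = 0 := by
      rcases mul_eq_zero.1 this with h | h
      · norm_num at h
      · exact h
    exact_mod_cast h3
  · exfalso
    push Not at hall
    obtain ⟨B, hB, hne⟩ := hall
    have e2 := form_D h _ _ _ _ (hbr B hB)
    set p' : ℚ := q * B 2 1 - r * B 1 2 with hp'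
    set q' : ℚ := 2 * p * B 1 2 + q * (B 2 2 - B 1 1) with hq'
    set r' : ℚ := r * (B 1 1 - B 2 2) - 2 * p * B 2 1 with hr'
    push_cast at e2
    have f1 : ((q * p' - q' * p : ℚ) : ℂ) = -((τ : ℂ) * conj (τ : ℂ)) * ((p * r' - r * p' : ℚ) : ℂ) := by
      push_cast
      linear_combination (1 / 2) * (p' : ℂ) * e1 - (1 / 2) * (p : ℂ) * e2
    have f2 : ((r * q' - q * r' : ℚ) : ℂ) = ((τ : ℂ) + conj (τ : ℂ)) * ((p * r' - r * p' : ℚ) : ℂ) := by
      push_cast
      linear_combination -(1 / 2) * (r' : ℂ) * e1 + (1 / 2) * (r : ℂ) * e2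
    have hX : p * r' - r * p' ≠ 0 := by
      intro h0
      rw [h0] at f1
      simp only [Rat.cast_zero, mul_zero] at f1
      have : q * p' - q' * p = 0 := by exact_mod_cast f1
      apply hne
      linear_combination this
    refine h1 (isCM_of_rat τ (p * r' - r * p') (-(r * q' - q * r')) (-(q * p' - q' * p)) hX ?_)
    rw [Rat.cast_neg, Rat.cast_neg, f1, f2]
    ring

/-- Without complex multiplication: lifts of all matrices. -/
theorem IsGood.exists_all (h : IsGood τ v L) (h1 : ¬ IsCM τ) (M : Matrix (Fin 2) (Fin 2) ℚ) :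
    ∃ u : Fin 2 → ℚ, blk u M ∈ L := by
  have hg := h.inf (isGood_parab τ v)
  set L' := L ⊓ parab with hL'
  have hp : L' ≤ parab := inf_le_right
  let P : Submodule ℚ (Matrix (Fin 2) (Fin 2) ℚ) :=
    { carrier := {M | ∃ u : Fin 2 → ℚ, blk u M ∈ L'}
      add_mem' := by
        rintro A B ⟨u, hu⟩ ⟨w, hw⟩
        refine ⟨u + w, ?_⟩
        have := Submodule.add_mem _ hu hw
        convert this using 1
        ext i j
        fin_cases i <;> fin_cases j <;> simp [blk]
      zero_mem' := by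
        refine ⟨0, ?_⟩
        have := Submodule.zero_mem L'
        convert this using 1
        ext i j
        fin_cases i <;> fin_cases j <;> simp [blk]
      smul_mem' := by
        rintro a A ⟨u, hu⟩
        refine ⟨a • u, ?_⟩
        have := Submodule.smul_mem _ a hu
        convert this using 1
        ext i j
        fin_cases i <;> fin_cases j <;> simp [blk] }
  have hP : P = ⊤ := by
    by_contra hne
    obtain ⟨f, hf, hPf⟩ := Submodule.exists_le_ker_of_lt_top P (lt_top_iff_ne_top.2 hne)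
    have hform : ∀ N : Matrix (Fin 2) (Fin 2) ℚ, f N = f !![1, 0; 0, 0] * N 0 0 +
        f !![0, 0; 1, 0] * N 1 0 + f !![0, 1; 0, 0] * N 0 1 + f !![0, 0; 0, 1] * N 1 1 := by
      intro N
      have : N = N 0 0 • !![1, 0; 0, 0] + N 1 0 • !![0, 0; 1, 0] + N 0 1 • !![0, 1; 0, 0] +
          N 1 1 • !![0, 0; 0, 1] := by
        ext i j
        fin_cases i <;> fin_cases j <;> simp
      conv_lhs => rw [this]
      simp only [map_add, map_smul, smul_eq_mul]
      ring
    obtain ⟨u1, hu1⟩ := hg.exists_one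
    have h2 : f 1 = 0 := hPf ⟨u1, hu1⟩
    have h3 : f !![0, 0; 0, 1] = -f !![1, 0; 0, 0] := by
      rw [hform 1] at h2
      simp at h2
      linarith
    have h4 := no_form hg h1 hp (f !![1, 0; 0, 0]) (f !![0, 0; 1, 0]) (f !![0, 1; 0, 0]) (by
      intro A hA
      have h5 : !![A 1 1, A 1 2; A 2 1, A 2 2] ∈ P := by
        refine ⟨![A 1 0, A 2 0], ?_⟩
        convert hA using 1
        have a0 : ∀ j, A 0 j = 0 := hp hA
        ext i j
        fin_cases i <;> fin_cases j <;> simp [blk, a0]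
      have h6 : f !![A 1 1, A 1 2; A 2 1, A 2 2] = 0 := hPf h5
      rw [hform, h3] at h6
      simpa using h6)
    apply hf
    ext1 N
    rw [hform, h3, h4.1, h4.2.1, h4.2.2]
    simp
  have hM : M ∈ P := by rw [hP]; trivial
  obtain ⟨u, hu⟩ := hM
  exact ⟨u, hu.1⟩

end Pool.Agent.LibRk3
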