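import Pool.Agent.LibRk3.Generic
import Pool.Agent.LibRk3.Dims

open UpperHalfPlane Filter Topology
open scoped MatrixGroups

namespace Pool.Agent.LibRk3

variable {X : Curve}

private theorem mtDim_le (V : Variation X) (z : ℍ) : V.mtDim z ≤ 6 := by
  unfold Variation.mtDim
  by_cases h1 : IsCM (V.τ z) <;> by_cases h2 : IsRat (V.v z)
  · rw [(dims_cm_split h1 h2).1]; norm_num
  · rw [(dims_cm h1 h2).1]; norm_num
  · rw [(dims_split h1 h2).1]; norm_num
  · rw [(dims_generic h1 h2).1]

private theorem domDim_le (V : Variation X) (z : ℍ) : V.domDim z ≤ 3 := by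
  unfold Variation.domDim
  by_cases h1 : IsCM (V.τ z) <;> by_cases h2 : IsRat (V.v z)
  · rw [(dims_cm_split h1 h2).2]; norm_num
  · rw [(dims_cm h1 h2).2]; norm_num
  · rw [(dims_split h1 h2).2]; norm_num
  · rw [(dims_generic h1 h2).2]

private theorem bdd_mt (V : Variation X) : BddAbove (Set.range V.mtDim) :=
  ⟨6, by rintro _ ⟨z, rfl⟩; exact mtDim_le V z⟩

private theorem bdd_dom (V : Variation X) : BddAbove (Set.range V.domDim) :=
  ⟨3, by rintro _ ⟨z, rfl⟩; exact domDim_le V z⟩

private theorem generic_of_not_split (V : Variation X) (h : ¬ V.Split) :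
    V.genericMtDim = 6 ∧ V.genericDomDim = 3 := by
  obtain ⟨z, h1, h2⟩ := V.exists_generic h
  have hd := dims_generic h1 h2
  constructor
  · apply le_antisymm
    · exact ciSup_le' fun z => mtDim_le V z
    · have := le_ciSup (bdd_mt V) z
      have e : V.mtDim z = 6 := hd.1
      rw [e] at this
      exact this
  · apply le_antisymm
    · exact ciSup_le' fun z => domDim_le V z
    · have := le_ciSup (bdd_dom V) z
      have e : V.domDim z = 3 := hd.2
      rw [e] at this
      exact this

private theorem isRat_of_split (V : Variation X) (h : V.Split) (z : ℍ) : IsRat (V.v z) := by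
  obtain ⟨r, hr⟩ := h
  exact ⟨r, hr z⟩

private theorem generic_of_split (V : Variation X) (h : V.Split) :
    V.genericMtDim = 4 ∧ V.genericDomDim = 1 := by
  obtain ⟨z, h1⟩ := V.exists_not_cm
  have hd := dims_split h1 (isRat_of_split V h z)
  constructor
  · apply le_antisymm
    · refine ciSup_le' fun w => ?_
      by_cases hw : IsCM (V.τ w)
      · have := (dims_cm_split hw (isRat_of_split V h w)).1
        change V.mtDim w = 2 at this
        omega
      · have := (dims_split hw (isRat_of_split V h w)).1
        change V.mtDim w = 4 at this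
        omega
    · have := le_ciSup (bdd_mt V) z
      have e : V.mtDim z = 4 := hd.1
      rw [e] at this
      exact this
  · apply le_antisymm
    · refine ciSup_le' fun w => ?_
      by_cases hw : IsCM (V.τ w)
      · have := (dims_cm_split hw (isRat_of_split V h w)).2
        change V.domDim w = 0 at this
        omega
      · have := (dims_split hw (isRat_of_split V h w)).2
        change V.domDim w = 1 at this
        omega
    · have := le_ciSup (bdd_dom V) z
      have e : V.domDim z = 1 := hd.2
      rw [e] at this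
      exact this

theorem Variation.mem_hodgeLocus (V : Variation X) (z : ℍ) :
    z ∈ V.hodgeLocus ↔ IsCM (V.τ z) ∨ (IsRat (V.v z) ∧ ¬ V.Split) := by
  change V.mtDim z < V.genericMtDim ↔ _
  by_cases hs : V.Split
  · rw [(generic_of_split V hs).1]
    have hr := isRat_of_split V hs z
    by_cases h1 : IsCM (V.τ z)
    · have e : V.mtDim z = 2 := (dims_cm_split h1 hr).1
      rw [e]
      simp [h1]
    · have e : V.mtDim z = 4 := (dims_split h1 hr).1
      rw [e]
      simp [h1, hs]
  · rw [(generic_of_not_split V hs).1]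
    by_cases h1 : IsCM (V.τ z) <;> by_cases h2 : IsRat (V.v z)
    · have e : V.mtDim z = 2 := (dims_cm_split h1 h2).1
      rw [e]; simp [h1]
    · have e : V.mtDim z = 4 := (dims_cm h1 h2).1
      rw [e]; simp [h1]
    · have e : V.mtDim z = 4 := (dims_split h1 h2).1
      rw [e]; simp [h2, hs]
    · have e : V.mtDim z = 6 := (dims_generic h1 h2).1
      rw [e]; simp [h1, h2]

theorem Variation.mem_atypicalLocus (V : Variation X) (z : ℍ) :
    z ∈ V.atypicalLocus ↔ IsRat (V.v z) ∧ ¬ V.Split := by
  change z ∈ V.hodgeLocus ∧ V.genericDomDim - V.domDim z ≠ 1 ↔ _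
  rw [V.mem_hodgeLocus]
  by_cases hs : V.Split
  · rw [(generic_of_split V hs).2]
    have hr := isRat_of_split V hs z
    by_cases h1 : IsCM (V.τ z)
    · have e : V.domDim z = 0 := (dims_cm_split h1 hr).2
      rw [e]
      simp [hs]
    · simp [h1, hs]
  · rw [(generic_of_not_split V hs).2]
    by_cases h1 : IsCM (V.τ z) <;> by_cases h2 : IsRat (V.v z)
    · have e : V.domDim z = 0 := (dims_cm_split h1 h2).2
      rw [e]; simp [h1, h2, hs]
    · have e : V.domDim z = 2 := (dims_cm h1 h2).2
      rw [e]; simp [h2]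
    · have e : V.domDim z = 1 := (dims_split h1 h2).2
      rw [e]; simp [h2, hs]
    · simp [h1, h2]

/-- The points where the period of the extension is rational. -/
theorem Variation.finite_atypical (V : Variation X) :
    ∃ S : Set ℍ, S.Finite ∧ ∀ z ∈ V.atypicalLocus, ∃ δ ∈ X.Δ, δ • z ∈ S := by
  by_cases hnc : ∃ z w i, V.v z i ≠ V.v w i
  · obtain ⟨S, hS, h⟩ := V.finite_real hnc
    refine ⟨S, hS, fun z hz => h z fun i => ?_⟩
    rw [V.mem_atypicalLocus] at hz
    obtain ⟨⟨r, hr⟩, _⟩ := hz
    rw [hr i]
    have : ((r i : ℚ) : ℂ) = (((r i : ℚ) : ℝ) : ℂ) := by push_cast; rfl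
    rw [this, Complex.ofReal_im]
  · push Not at hnc
    refine ⟨∅, Set.finite_empty, fun z hz => ?_⟩
    rw [V.mem_atypicalLocus] at hz
    obtain ⟨⟨r, hr⟩, hs⟩ := hz
    exact absurd ⟨r, fun w i => by rw [hnc w z i]; exact hr i⟩ hs

end Pool.Agent.LibRk3
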