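import Pool.Agent.LibRk3.Defs
import Pool.Agent.LibRk3.Cusp
import Pool.Agent.LibRk3.Loc
import Pool.Agent.LibRk3.Alg

open UpperHalfPlane Filter Topology
open scoped MatrixGroups

namespace Pool.Agent.LibRk3

variable {X : Curve}

/-- Chain rule for the action of a real matrix: the factor does not depend on the function. -/
private theorem hasDerivAt_smul (σ : SL(2, ℝ)) {w : ℂ} (hw : 0 < w.im) :
    ∃ j : ℂ, j ≠ 0 ∧ ∀ f : ℍ → ℂ, (∀ z : ℍ, DifferentiableAt ℂ (fun u : ℂ => f (ofComplex u)) z) →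
      HasDerivAt (fun u : ℂ => f (σ • ofComplex u))
        (deriv (fun u : ℂ => f (ofComplex u)) ((σ • ofComplex w : ℍ) : ℂ) * j) w := by
  set a : ℂ := ((σ 0 0 : ℝ) : ℂ) with ha
  set b : ℂ := ((σ 0 1 : ℝ) : ℂ) with hb
  set c : ℂ := ((σ 1 0 : ℝ) : ℂ) with hc
  set d : ℂ := ((σ 1 1 : ℝ) : ℂ) with hd
  have hdet : a * d - b * c = 1 := by
    have := σ.det_coe
    rw [Matrix.det_fin_two] at this
    rw [ha, hb, hc, hd]
    exact_mod_cast this
  have hden : ∀ u : ℂ, 0 < u.im → c * u + d ≠ 0 := by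
    intro u hu h0
    have him := congrArg Complex.im h0
    have hre := congrArg Complex.re h0
    simp [hc, hd] at him hre
    rcases him with h | h
    · have h1 : c = 0 := by rw [hc, h]; simp
      have h2 : d = 0 := by rw [h1, zero_mul, zero_add] at h0; exact h0
      rw [h1, h2] at hdet
      simp at hdet
    · exact hu.ne' h
  have hcoe : ∀ u : ℂ, 0 < u.im → ((σ • ofComplex u : ℍ) : ℂ) = (a * u + b) / (c * u + d) := by
    intro u hu
    rw [UpperHalfPlane.coe_specialLinearGroup_apply, ofComplex_apply_of_im_pos hu]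
    rfl
  have hm : HasDerivAt (fun u : ℂ => ((σ • ofComplex u : ℍ) : ℂ))
      ((a * (c * w + d) - (a * w + b) * c) / (c * w + d) ^ 2) w := by
    have h1 : HasDerivAt (fun u : ℂ => (a * u + b) / (c * u + d))
        ((a * (c * w + d) - (a * w + b) * c) / (c * w + d) ^ 2) w := by
      have h2 : HasDerivAt (fun u : ℂ => a * u + b) a w := by
        simpa using ((hasDerivAt_id w).const_mul a).add_const b
      have h3 : HasDerivAt (fun u : ℂ => c * u + d) c w := by
        simpa using ((hasDerivAt_id w).const_mul c).add_const d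
      exact h2.div h3 (hden w hw)
    refine h1.congr_of_eventuallyEq ?_
    filter_upwards [(isOpen_lt continuous_const Complex.continuous_im).mem_nhds hw] with u hu
    exact hcoe u hu
  refine ⟨(a * (c * w + d) - (a * w + b) * c) / (c * w + d) ^ 2, ?_, fun f hf => ?_⟩
  · apply div_ne_zero
    · have : a * (c * w + d) - (a * w + b) * c = a * d - b * c := by ring
      rw [this, hdet]
      exact one_ne_zero
    · exact pow_ne_zero _ (hden w hw)
  · have h4 := (hf (σ • ofComplex w)).hasDerivAt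
    have h5 := HasDerivAt.comp w h4 hm
    refine h5.congr_of_eventuallyEq (Eventually.of_forall fun u => ?_)
    simp only [Function.comp_apply, ofComplex_apply]

private theorem smul_int_vadd {σ t : SL(2, ℝ)}
    (h : ∀ z : ℍ, t • σ • z = σ • ((1 : ℝ) +ᵥ z)) (n : ℕ) (z : ℍ) :
    t ^ n • σ • z = σ • ((n : ℝ) +ᵥ z) := by
  induction n generalizing z with
  | zero => simp
  | succ n ih =>
    rw [pow_succ, mul_smul, h, ih, vadd_vadd]
    congr 2
    push_cast
    ring

private theorem smul_int_vadd' {σ t : SL(2, ℝ)}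
    (h : ∀ z : ℍ, t • σ • z = σ • ((1 : ℝ) +ᵥ z)) (n : ℤ) (z : ℍ) :
    t ^ n • σ • z = σ • ((n : ℝ) +ᵥ z) := by
  obtain ⟨m, rfl | rfl⟩ := n.eq_nat_or_neg
  · rw [zpow_natCast, smul_int_vadd h]
    simp
  · rw [zpow_neg, zpow_natCast, inv_smul_eq_iff, smul_int_vadd h, vadd_vadd]
    simp

/-- Invariance of the real locus. -/
theorem Variation.real_smul (V : Variation X) {δ : SL(2, ℝ)} (hδ : δ ∈ X.Δ) {z : ℍ}
    (h : ∀ i, (V.v z i).im = 0) (i : Fin 2) : (V.v (δ • z) i).im = 0 := by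
  have := V.v_equiv ⟨δ, hδ⟩ z i
  change V.v (δ • z) i = _ at this
  rw [this, Fin.sum_univ_two]
  simp [h 0, h 1]

/-- Absence of real points near a puncture. -/
theorem Variation.cusp_bound (V : Variation X) (hnc : ∃ z w i, V.v z i ≠ V.v w i)
    (σ : SL(2, ℝ)) (hσ : σ ∈ X.cusps) :
    ∃ Y : ℝ, ∀ w : ℍ, |w.re| ≤ 1 → Y < w.im → ¬ ∀ i, (V.v (σ • w) i).im = 0 := by
  obtain ⟨t, ht, hpar⟩ := X.parabolic σ hσ
  set tt : X.Δ := ⟨t, ht⟩ with htt
  set M : SL(2, ℤ) := V.ρ tt with hM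
  -- the functions
  set T : ℂ → ℂ := fun w => (V.τ (σ • ofComplex w) : ℂ) with hT
  set W : Fin 2 → ℂ → ℂ := fun i w => V.v (σ • ofComplex w) i with hW
  have hTd : ∀ z : ℂ, 0 < z.im → DifferentiableAt ℂ T z := by
    intro z hz
    obtain ⟨j, _, hj⟩ := hasDerivAt_smul σ hz
    exact (hj (fun z => (V.τ z : ℂ)) V.τ_hol).differentiableAt
  have hWd : ∀ i, ∀ z : ℂ, 0 < z.im → DifferentiableAt ℂ (W i) z := by
    intro i z hz
    obtain ⟨j, _, hj⟩ := hasDerivAt_smul σ hz
    exact (hj (fun z => V.v z i) (V.v_hol i)).differentiableAt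
  have hTpos : ∀ z : ℂ, 0 < z.im → 0 < (T z).im := fun z _ => (V.τ _).im_pos
  have hWtr : ∀ z : ℂ, 0 < z.im → deriv (W 0) z = T z * deriv (W 1) z := by
    intro z hz
    obtain ⟨j, _, hj⟩ := hasDerivAt_smul σ hz
    rw [(hj (fun z => V.v z 0) (V.v_hol 0)).deriv, (hj (fun z => V.v z 1) (V.v_hol 1)).deriv,
      V.transversal, hT]
    ring
  -- translation
  have hofc : ∀ (z : ℂ) (_ : 0 < z.im) (n : ℤ), ofComplex (z + n) = (n : ℝ) +ᵥ ofComplex z := by
    intro z hz n
    have hz' : 0 < (z + n).im := by simpa using hz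
    rw [ofComplex_apply_of_im_pos hz, ofComplex_apply_of_im_pos hz']
    apply UpperHalfPlane.ext
    rw [UpperHalfPlane.coe_vadd]
    simp [add_comm]
  have htrans : ∀ (z : ℂ) (_ : 0 < z.im) (n : ℤ),
      σ • ofComplex (z + n) = t ^ n • σ • ofComplex z := by
    intro z hz n
    rw [hofc z hz n, smul_int_vadd' hpar]
  have hWn : ∀ (z : ℂ) (_ : 0 < z.im) (n : ℤ) (i : Fin 2), W i (z + n) =
      ∑ j, (((V.ρ (tt ^ n)) i j : ℤ) : ℂ) * W j z + V.c (tt ^ n) i := by
    intro z hz n i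
    change V.v (σ • ofComplex (z + n)) i = _
    rw [htrans z hz n]
    have := V.v_equiv (tt ^ n) (σ • ofComplex z) i
    simpa [htt] using this
  have hTn : ∀ (z : ℂ) (_ : 0 < z.im), T (z + 1) = ((M • V.τ (σ • ofComplex z) : ℍ) : ℂ) := by
    intro z hz
    have h1 := htrans z hz 1
    rw [zpow_one, Int.cast_one] at h1
    change ((V.τ (σ • ofComplex (z + 1)) : ℍ) : ℂ) = _
    rw [h1]
    have := V.τ_equiv tt (σ • ofComplex z)
    rw [← hM] at this
    rw [← this]
  -- the trace bound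
  have hdet : (M 0 0 : ℤ) * M 1 1 - M 0 1 * M 1 0 = 1 := by
    have := M.det_coe
    rwa [Matrix.det_fin_two] at this
  have htrace : ((M 0 0 : ℤ) + M 1 1) ^ 2 ≤ 4 := by
    apply trace_sq_le hTd hTpos (M 0 0) (M 0 1) (M 1 0) (M 1 1) hdet
    intro z hz
    rw [hTn z hz, UpperHalfPlane.coe_specialLinearGroup_apply]
    have hne : ((M 1 0 : ℤ) : ℂ) * T z + ((M 1 1 : ℤ) : ℂ) ≠ 0 := by
      have h1 := (M • V.τ (σ • ofComplex z)).im_pos
      intro h0
      have h2 : ((M • V.τ (σ • ofComplex z) : ℍ) : ℂ) = 0 := by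
        rw [UpperHalfPlane.coe_specialLinearGroup_apply]
        have : ((algebraMap ℤ ℝ (M 1 0) : ℝ) : ℂ) * (V.τ (σ • ofComplex z) : ℂ) +
            ((algebraMap ℤ ℝ (M 1 1) : ℝ) : ℂ) = 0 := by
          simpa using h0
        rw [this, div_zero]
      have h3 : (M • V.τ (σ • ofComplex z)).im = 0 := by
        rw [← UpperHalfPlane.coe_im, h2]; simp
      exact h1.ne' h3
    have h4 : ((algebraMap ℤ ℝ (M 1 0) : ℝ) : ℂ) * (V.τ (σ • ofComplex z) : ℂ) +
        ((algebraMap ℤ ℝ (M 1 1) : ℝ) : ℂ) = ((M 1 0 : ℤ) : ℂ) * T z + ((M 1 1 : ℤ) : ℂ) := by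
      simp [hT]
    have h5 : ((algebraMap ℤ ℝ (M 0 0) : ℝ) : ℂ) * (V.τ (σ • ofComplex z) : ℂ) +
        ((algebraMap ℤ ℝ (M 0 1) : ℝ) : ℂ) = ((M 0 0 : ℤ) : ℂ) * T z + ((M 0 1 : ℤ) : ℂ) := by
      simp [hT]
    rw [h4, h5, div_mul_cancel₀ _ hne]
  obtain ⟨l, hl0, hl⟩ := exists_left_fixed M htrace
  -- the change of basis
  set n : ℝ := (l 0 : ℝ) ^ 2 + (l 1 : ℝ) ^ 2 with hn
  have hnpos : 0 < n := by
    rw [hn]
    by_contra hcon
    push Not at hcon
    have h0 : (l 0 : ℝ) = 0 := by nlinarith [sq_nonneg (l 0 : ℝ), sq_nonneg (l 1 : ℝ)]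
    have h1 : (l 1 : ℝ) = 0 := by nlinarith [sq_nonneg (l 0 : ℝ), sq_nonneg (l 1 : ℝ)]
    apply hl0
    ext i
    fin_cases i
    · exact_mod_cast h0
    · exact_mod_cast h1
  set a : ℝ := l 1 / n with ha
  set b : ℝ := -(l 0) / n with hb
  have hab : a * l 1 - b * l 0 = 1 := by
    rw [ha, hb, hn]
    have : (l 0 : ℝ) ^ 2 + (l 1 : ℝ) ^ 2 ≠ 0 := by rw [← hn]; exact hnpos.ne'
    field_simp
    ring
  have him12 : ∀ z : ℂ, 0 < z.im → 0 < ((12 : ℂ) * z).im := by
    intro z hz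
    have : ((12 : ℂ) * z).im = 12 * z.im := by simp
    rw [this]
    positivity
  have hden : ∀ z : ℂ, 0 < z.im → ((l 0 : ℤ) : ℂ) * T z + ((l 1 : ℤ) : ℂ) ≠ 0 := by
    intro z hz h0
    have h1 := congrArg Complex.im h0
    have h2 := congrArg Complex.re h0
    simp at h1 h2
    rcases h1 with h | h
    · rw [h] at h2
      simp at h2
      apply hl0
      ext i
      fin_cases i
      · exact h
      · exact h2
    · exact (hTpos z hz).ne' h
  set T' : ℂ → ℂ := fun w => ((a : ℂ) * T (12 * w) + b) / (((l 0 : ℤ) : ℂ) * T (12 * w) + ((l 1 : ℤ) : ℂ))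
    with hT'
  set V0 : ℂ → ℂ := fun w => (a : ℂ) * W 0 (12 * w) + b * W 1 (12 * w) with hV0
  set V1 : ℂ → ℂ := fun w => ((l 0 : ℤ) : ℂ) * W 0 (12 * w) + ((l 1 : ℤ) : ℂ) * W 1 (12 * w) with hV1
  have hmul : ∀ z : ℂ, HasDerivAt (fun w : ℂ => (12 : ℂ) * w) 12 z := by
    intro z
    simpa using (hasDerivAt_id z).const_mul (12 : ℂ)
  have hW12 : ∀ i, ∀ z : ℂ, 0 < z.im →
      HasDerivAt (fun w => W i (12 * w)) (deriv (W i) (12 * z) * 12) z := by
    intro i z hz
    exact HasDerivAt.comp z (hWd i _ (him12 z hz)).hasDerivAt (hmul z)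
  have hV0d : ∀ z : ℂ, 0 < z.im → HasDerivAt V0
      ((a : ℂ) * (deriv (W 0) (12 * z) * 12) + b * (deriv (W 1) (12 * z) * 12)) z := by
    intro z hz
    exact ((hW12 0 z hz).const_mul (a : ℂ)).add ((hW12 1 z hz).const_mul (b : ℂ))
  have hV1d : ∀ z : ℂ, 0 < z.im → HasDerivAt V1
      (((l 0 : ℤ) : ℂ) * (deriv (W 0) (12 * z) * 12) + ((l 1 : ℤ) : ℂ) * (deriv (W 1) (12 * z) * 12))
      z := by
    intro z hz
    exact ((hW12 0 z hz).const_mul _).add ((hW12 1 z hz).const_mul _)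
  have hT'd : ∀ z : ℂ, 0 < z.im → DifferentiableAt ℂ T' z := by
    intro z hz
    have h1 : DifferentiableAt ℂ (fun w => T (12 * w)) z :=
      (HasDerivAt.comp z (hTd _ (him12 z hz)).hasDerivAt (hmul z)).differentiableAt
    exact ((h1.const_mul _).add_const _).div ((h1.const_mul _).add_const _) (hden _ (him12 z hz))
  have hT'pos : ∀ z : ℂ, 0 < z.im → 0 < (T' z).im := by
    intro z hz
    have h1 := hden _ (him12 z hz)
    have h2 := hTpos _ (him12 z hz)
    have h3 : (T' z).im = (T (12 * z)).im * (a * l 1 - b * l 0) /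
        Complex.normSq (((l 0 : ℤ) : ℂ) * T (12 * z) + ((l 1 : ℤ) : ℂ)) := by
      rw [hT']
      simp only [Complex.div_im, Complex.add_im, Complex.mul_im, Complex.ofReal_re,
        Complex.ofReal_im, Complex.add_re, Complex.mul_re, Complex.intCast_re, Complex.intCast_im]
      have : Complex.normSq (((l 0 : ℤ) : ℂ) * T (12 * z) + ((l 1 : ℤ) : ℂ)) ≠ 0 := by
        rw [Ne, Complex.normSq_eq_zero]
        exact h1
      field_simp
      ring
    rw [h3, hab, mul_one]
    exact div_pos h2 (Complex.normSq_pos.mpr h1)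
  have htr' : ∀ z : ℂ, 0 < z.im → deriv V0 z = T' z * deriv V1 z := by
    intro z hz
    have h1 := hden _ (him12 z hz)
    rw [(hV0d z hz).deriv, (hV1d z hz).deriv, hWtr _ (him12 z hz)]
    have e1 : ((l 0 : ℤ) : ℂ) * (T (12 * z) * deriv (W 1) (12 * z) * 12) +
        ((l 1 : ℤ) : ℂ) * (deriv (W 1) (12 * z) * 12) =
        (((l 0 : ℤ) : ℂ) * T (12 * z) + ((l 1 : ℤ) : ℂ)) * (deriv (W 1) (12 * z) * 12) := by ring
    have e2 : T' z = ((a : ℂ) * T (12 * z) + b) / (((l 0 : ℤ) : ℂ) * T (12 * z) + ((l 1 : ℤ) : ℂ)) :=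
      rfl
    rw [e1, e2, ← mul_assoc (_ / _), div_mul_cancel₀ _ h1]
    ring
  -- periodicity
  have hρ12 : ∀ i j, (V.ρ (tt ^ (12 : ℤ))) i j = (M ^ 12) i j := by
    intro i j
    rw [map_zpow, ← hM]
    norm_cast
  have hper : ∀ z : ℂ, 0 < z.im → V1 (z + 1) = V1 z +
      (((l 0 : ℝ) * V.c (tt ^ (12 : ℤ)) 0 + (l 1 : ℝ) * V.c (tt ^ (12 : ℤ)) 1 : ℝ) : ℂ) := by
    intro z hz
    have e : (12 : ℂ) * (z + 1) = 12 * z + ((12 : ℤ) : ℂ) := by push_cast; ring
    have h1 : ∀ j, (∑ i, l i * (M ^ 12) i j : ℤ) = l j := by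
      intro j
      have := congrFun hl j
      simpa [Matrix.vecMul, dotProduct] using this
    have h10 := h1 0
    have h11 := h1 1
    rw [Fin.sum_univ_two] at h10 h11
    have h10' : ((l 0 : ℤ) : ℂ) * (((M ^ 12) 0 0 : ℤ) : ℂ) + ((l 1 : ℤ) : ℂ) * (((M ^ 12) 1 0 : ℤ) : ℂ)
        = ((l 0 : ℤ) : ℂ) := by exact_mod_cast h10
    have h11' : ((l 0 : ℤ) : ℂ) * (((M ^ 12) 0 1 : ℤ) : ℂ) + ((l 1 : ℤ) : ℂ) * (((M ^ 12) 1 1 : ℤ) : ℂ)
        = ((l 1 : ℤ) : ℂ) := by exact_mod_cast h11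
    simp only [hV1]
    rw [e, hWn _ (him12 z hz), hWn _ (him12 z hz), Fin.sum_univ_two, Fin.sum_univ_two,
      hρ12, hρ12, hρ12, hρ12]
    push_cast
    linear_combination (W 0 (12 * z)) * h10' + (W 1 (12 * z)) * h11'
  -- growth
  obtain ⟨C, N, hg⟩ := V.growth σ hσ
  have hg0 : ∀ (z : ℂ) (_ : 0 < z.im) (i : Fin 2), |z.re| ≤ 1 → 1 ≤ z.im →
      ‖W i z‖ ≤ C * z.im ^ N := by
    intro z hz i h1 h2
    have h3 := hg (ofComplex z) i
    rw [ofComplex_apply_of_im_pos hz] at h3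
    have h4 := h3 h1 h2
    change ‖V.v (σ • ofComplex z) i‖ ≤ _
    rw [ofComplex_apply_of_im_pos hz]
    exact h4
  have hg1 : ∃ C' : ℝ, ∀ (z : ℂ) (i : Fin 2), |z.re| ≤ 12 → 1 ≤ z.im →
      ‖W i z‖ ≤ C' * z.im ^ N := by
    -- bound for the finitely many translations
    set K : ℤ → ℝ := fun m => ∑ i, ((∑ j, |((V.ρ (tt ^ m)) i j : ℝ)|) * |C| +
      |(V.c (tt ^ m) i : ℝ)|) with hK
    have hK0 : ∀ m, 0 ≤ K m := by
      intro m
      rw [hK]
      positivity
    refine ⟨∑ m ∈ Finset.Icc (-12 : ℤ) 12, K m, ?_⟩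
    intro z i hz1 hz2
    have hz : 0 < z.im := by linarith
    set m : ℤ := round z.re with hm
    have hround : |z.re - m| ≤ 1 / 2 := abs_sub_round z.re
    have hmle : m ∈ Finset.Icc (-12 : ℤ) 12 := by
      rw [abs_le] at hz1 hround
      rw [Finset.mem_Icc]
      constructor
      · have h1 : (-13 : ℝ) < (m : ℝ) := by linarith [hz1.1, hround.2]
        have h2 : (-13 : ℤ) < m := by exact_mod_cast h1
        omega
      · have h1 : (m : ℝ) < 13 := by linarith [hz1.2, hround.1]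
        have h2 : m < (13 : ℤ) := by exact_mod_cast h1
        omega
    set z0 : ℂ := z - m with hz0
    have hz0im : z0.im = z.im := by simp [hz0]
    have hz0re : z0.re = z.re - m := by simp [hz0]
    have hz0pos : 0 < z0.im := by rw [hz0im]; exact hz
    have e : z = z0 + (m : ℤ) := by rw [hz0]; ring
    have hB : ∀ j, ‖W j z0‖ ≤ |C| * z.im ^ N := by
      intro j
      have h1 := hg0 z0 hz0pos j (by rw [hz0re]; linarith) (by rw [hz0im]; exact hz2)
      rw [hz0im] at h1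
      exact h1.trans (mul_le_mul_of_nonneg_right (le_abs_self C) (by positivity))
    have hpow : 1 ≤ z.im ^ N := one_le_pow₀ hz2
    have hWz := hWn z0 hz0pos m i
    rw [← e] at hWz
    have h2 : ‖W i z‖ ≤ K m * z.im ^ N := by
      rw [hWz]
      calc ‖∑ j, (((V.ρ (tt ^ m)) i j : ℤ) : ℂ) * W j z0 + V.c (tt ^ m) i‖
          ≤ ‖∑ j, (((V.ρ (tt ^ m)) i j : ℤ) : ℂ) * W j z0‖ + ‖((V.c (tt ^ m) i : ℚ) : ℂ)‖ :=
            norm_add_le _ _
        _ ≤ ∑ j, |((V.ρ (tt ^ m)) i j : ℝ)| * (|C| * z.im ^ N) +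
            |(V.c (tt ^ m) i : ℝ)| * z.im ^ N := by
            refine add_le_add ?_ ?_
            · refine (norm_sum_le _ _).trans (Finset.sum_le_sum fun j _ => ?_)
              rw [norm_mul, Complex.norm_intCast]
              exact mul_le_mul_of_nonneg_left (hB j) (abs_nonneg _)
            · have h5 : ‖((V.c (tt ^ m) i : ℚ) : ℂ)‖ = |(V.c (tt ^ m) i : ℝ)| := by
                have : ((V.c (tt ^ m) i : ℚ) : ℂ) = (((V.c (tt ^ m) i : ℚ) : ℝ) : ℂ) := by
                  push_cast; rfl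
                rw [this, Complex.norm_real, Real.norm_eq_abs]
              rw [h5]
              exact le_mul_of_one_le_right (abs_nonneg _) hpow
        _ = ((∑ j, |((V.ρ (tt ^ m)) i j : ℝ)|) * |C| + |(V.c (tt ^ m) i : ℝ)|) * z.im ^ N := by
            rw [Finset.sum_mul, add_mul, Finset.sum_mul]
            congr 1
            refine Finset.sum_congr rfl fun j _ => ?_
            ring
        _ ≤ K m * z.im ^ N := by
            apply mul_le_mul_of_nonneg_right _ (by positivity)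
            rw [hK]
            exact Finset.single_le_sum (f := fun i => (∑ j, |((V.ρ (tt ^ m)) i j : ℝ)|) * |C| +
              |(V.c (tt ^ m) i : ℝ)|) (fun _ _ => by positivity) (Finset.mem_univ i)
    exact h2.trans (mul_le_mul_of_nonneg_right
      (Finset.single_le_sum (fun m _ => hK0 m) hmle) (by positivity))
  obtain ⟨C', hC'⟩ := hg1
  have hC'0 : 0 ≤ C' := by
    have h1 := hC' (Complex.I) 0 (by simp) (by simp)
    have h2 : 0 ≤ C' * (Complex.I).im ^ N := (norm_nonneg _).trans h1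
    simpa using h2
  have hgV1 : ∀ z : ℂ, |z.re| ≤ 1 → 1 ≤ z.im →
      ‖V1 z‖ ≤ ((|(l 0 : ℝ)| + |(l 1 : ℝ)|) * C' * 12 ^ N) * z.im ^ N := by
    intro z h1 h2
    have hre : |((12 : ℂ) * z).re| ≤ 12 := by
      have : ((12 : ℂ) * z).re = 12 * z.re := by simp
      rw [this, abs_mul]
      have : |(12 : ℝ)| = 12 := by norm_num
      rw [this]
      linarith
    have him : ((12 : ℂ) * z).im = 12 * z.im := by simp
    have him1 : 1 ≤ ((12 : ℂ) * z).im := by rw [him]; linarith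
    have hb0 := hC' (12 * z) 0 hre him1
    have hb1 := hC' (12 * z) 1 hre him1
    rw [him, mul_pow] at hb0 hb1
    calc ‖V1 z‖ ≤ ‖((l 0 : ℤ) : ℂ) * W 0 (12 * z)‖ + ‖((l 1 : ℤ) : ℂ) * W 1 (12 * z)‖ :=
          norm_add_le _ _
      _ = |(l 0 : ℝ)| * ‖W 0 (12 * z)‖ + |(l 1 : ℝ)| * ‖W 1 (12 * z)‖ := by
          rw [norm_mul, norm_mul, Complex.norm_intCast, Complex.norm_intCast]
      _ ≤ |(l 0 : ℝ)| * (C' * (12 ^ N * z.im ^ N)) + |(l 1 : ℝ)| * (C' * (12 ^ N * z.im ^ N)) :=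
          add_le_add (mul_le_mul_of_nonneg_left hb0 (abs_nonneg _))
            (mul_le_mul_of_nonneg_left hb1 (abs_nonneg _))
      _ = _ := by ring
  -- non constancy
  have hncV : ∃ z : ℂ, 0 < z.im ∧ deriv V1 z ≠ 0 := by
    by_contra hcon
    push Not at hcon
    have hopen : IsOpen {z : ℂ | 0 < z.im} := isOpen_lt continuous_const Complex.continuous_im
    have hpre : IsPreconnected {z : ℂ | 0 < z.im} :=
      (convex_halfSpace_im_gt 0).isPreconnected
    have hc1 : ∀ x y : ℂ, 0 < x.im → 0 < y.im → V1 x = V1 y := fun x y hx hy =>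
      hopen.is_const_of_deriv_eq_zero hpre
        (fun z hz => (hV1d z hz).differentiableAt.differentiableWithinAt)
        (fun z hz => hcon z hz) hx hy
    have hc0 : ∀ x y : ℂ, 0 < x.im → 0 < y.im → V0 x = V0 y := fun x y hx hy =>
      hopen.is_const_of_deriv_eq_zero hpre
        (fun z hz => (hV0d z hz).differentiableAt.differentiableWithinAt)
        (fun z hz => by
          have := htr' z hz
          rw [hcon z hz, mul_zero] at this
          exact this) hx hy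
    have hW0 : ∀ z, W 0 (12 * z) = ((l 1 : ℤ) : ℂ) * V0 z - b * V1 z := by
      intro z
      simp only [hV0, hV1]
      have hab' : (a : ℂ) * ((l 1 : ℤ) : ℂ) - b * ((l 0 : ℤ) : ℂ) = 1 := by exact_mod_cast hab
      linear_combination (-(W 0 (12 * z))) * hab'
    have hW1 : ∀ z, W 1 (12 * z) = (a : ℂ) * V1 z - ((l 0 : ℤ) : ℂ) * V0 z := by
      intro z
      simp only [hV0, hV1]
      have hab' : (a : ℂ) * ((l 1 : ℤ) : ℂ) - b * ((l 0 : ℤ) : ℂ) = 1 := by exact_mod_cast hab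
      linear_combination (-(W 1 (12 * z))) * hab'
    have hWc : ∀ i, ∀ x y : ℂ, 0 < x.im → 0 < y.im → W i (12 * x) = W i (12 * y) := by
      intro i x y hx hy
      fin_cases i
      · change W 0 (12 * x) = W 0 (12 * y)
        rw [hW0, hW0, hc0 x y hx hy, hc1 x y hx hy]
      · change W 1 (12 * x) = W 1 (12 * y)
        rw [hW1, hW1, hc0 x y hx hy, hc1 x y hx hy]
    obtain ⟨z, w, i, hzw⟩ := hnc
    apply hzw
    have key : ∀ y : ℍ, V.v y i = W i (12 * (((σ⁻¹ • y : ℍ) : ℂ) / 12)) := by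
      intro y
      have : (12 : ℂ) * (((σ⁻¹ • y : ℍ) : ℂ) / 12) = ((σ⁻¹ • y : ℍ) : ℂ) := by ring
      rw [this]
      simp only [hW, ofComplex_apply, smul_inv_smul]
    have hpos : ∀ y : ℍ, 0 < ((((σ⁻¹ • y : ℍ) : ℂ)) / 12).im := by
      intro y
      have h1 : ((((σ⁻¹ • y : ℍ) : ℂ)) / 12).im = (σ⁻¹ • y).im / 12 := by
        rw [show (12 : ℂ) = ((12 : ℝ) : ℂ) by norm_num, Complex.div_ofReal_im]
        rfl
      rw [h1]
      have := (σ⁻¹ • y).im_pos
      positivity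
    rw [key z, key w]
    exact hWc i _ _ (hpos z) (hpos w)
  obtain ⟨Y, hY⟩ := no_real_near_cusp hT'd hT'pos
    (fun z hz => (hV0d z hz).differentiableAt) (fun z hz => (hV1d z hz).differentiableAt) htr'
    _ hper _ N hgV1 hncV
  refine ⟨12 * Y, fun w hw1 hw2 hreal => ?_⟩
  have h12 : (12 : ℂ) * ((w : ℂ) / 12) = (w : ℂ) := by ring
  have hre : ((w : ℂ) / 12).re = w.re / 12 := by
    rw [show (12 : ℂ) = ((12 : ℝ) : ℂ) by norm_num, Complex.div_ofReal_re]
    rfl
  have him : ((w : ℂ) / 12).im = w.im / 12 := by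
    rw [show (12 : ℂ) = ((12 : ℝ) : ℂ) by norm_num, Complex.div_ofReal_im]
    rfl
  apply hY ((w : ℂ) / 12)
  · rw [hre, abs_div]
    have : |(12 : ℝ)| = 12 := by norm_num
    rw [this]
    linarith
  · rw [him]
    linarith
  · have hWr : ∀ i, (W i (12 * ((w : ℂ) / 12))).im = 0 := by
      intro i
      rw [h12]
      change (V.v (σ • ofComplex w) i).im = 0
      rw [ofComplex_apply]
      exact hreal i
    constructor
    · simp only [hV0, Complex.add_im, Complex.mul_im, Complex.ofReal_re, Complex.ofReal_im,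
        hWr 0, hWr 1]
      ring
    · simp only [hV1, Complex.add_im, Complex.mul_im, Complex.intCast_re, Complex.intCast_im,
        hWr 0, hWr 1]
      ring

/-- The points where the variation splits over `ℝ` are isolated. -/
theorem Variation.isolated (V : Variation X) (hnc : ∃ z w i, V.v z i ≠ V.v w i) (z : ℍ) :
    ∀ᶠ w in 𝓝[≠] z, ¬ ∀ i, (V.v w i).im = 0 := by
  have hofc : ∀ u : ℂ, 0 < u.im → ((ofComplex u : ℍ) : ℂ) = u := by
    intro u hu
    rw [ofComplex_apply_of_im_pos hu]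
  have hT : ∀ u : ℂ, 0 < u.im → DifferentiableAt ℂ (fun w : ℂ => (V.τ (ofComplex w) : ℂ)) u := by
    intro u hu
    have := V.τ_hol (ofComplex u)
    rwa [hofc u hu] at this
  have hv : ∀ i, ∀ u : ℂ, 0 < u.im → DifferentiableAt ℂ (fun w : ℂ => V.v (ofComplex w) i) u := by
    intro i u hu
    have := V.v_hol i (ofComplex u)
    rwa [hofc u hu] at this
  have htr : ∀ u : ℂ, 0 < u.im → deriv (fun w : ℂ => V.v (ofComplex w) 0) u =
      (V.τ (ofComplex u) : ℂ) * deriv (fun w : ℂ => V.v (ofComplex w) 1) u := by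
    intro u hu
    have := V.transversal (ofComplex u)
    rwa [hofc u hu] at this
  have hnc' : ∃ u : ℂ, 0 < u.im ∧ deriv (fun w : ℂ => V.v (ofComplex w) 1) u ≠ 0 := by
    by_contra hcon
    push Not at hcon
    have hopen : IsOpen {z : ℂ | 0 < z.im} := isOpen_lt continuous_const Complex.continuous_im
    have hpre : IsPreconnected {z : ℂ | 0 < z.im} :=
      (convex_halfSpace_im_gt 0).isPreconnected
    obtain ⟨x, y, i, hxy⟩ := hnc
    apply hxy
    have hx : (0 : ℝ) < ((x : ℂ)).im := x.im_pos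
    have hy : (0 : ℝ) < ((y : ℂ)).im := y.im_pos
    have h0 : ∀ j : Fin 2, V.v (ofComplex (x : ℂ)) j = V.v (ofComplex (y : ℂ)) j := by
      intro j
      apply hopen.is_const_of_deriv_eq_zero hpre (f := fun w : ℂ => V.v (ofComplex w) j)
        (fun z hz => (hv j z hz).differentiableWithinAt) _ hx hy
      intro u hu
      fin_cases j
      · change deriv (fun w : ℂ => V.v (ofComplex w) 0) u = 0
        rw [htr u hu, hcon u hu, mul_zero]
      · exact hcon u hu
    have := h0 i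
    simpa using this
  have key := isolated_real hT (fun u _ => (V.τ _).im_pos) (hv 0) (hv 1) htr hnc' z.im_pos
  have htend : Tendsto (fun w : ℍ => (w : ℂ)) (𝓝[≠] z) (𝓝[≠] (z : ℂ)) := by
    apply tendsto_nhdsWithin_iff.mpr
    refine ⟨(UpperHalfPlane.continuous_coe.tendsto z).mono_left nhdsWithin_le_nhds, ?_⟩
    filter_upwards [self_mem_nhdsWithin] with w hw
    intro h
    exact hw (UpperHalfPlane.ext h)
  have h2 := htend.eventually key
  filter_upwards [h2] with w hw hall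
  apply hw
  simp only [ofComplex_apply]
  exact ⟨hall 0, hall 1⟩

/-- The variation splits over `ℝ` at finitely many points of the curve. -/
theorem Variation.finite_real (V : Variation X) (hnc : ∃ z w i, V.v z i ≠ V.v w i) :
    ∃ S : Set ℍ, S.Finite ∧ ∀ z : ℍ, (∀ i, (V.v z i).im = 0) → ∃ δ ∈ X.Δ, δ • z ∈ S := by
  classical
  obtain ⟨K, hK, hcov⟩ := X.finiteType
  have hY : ∀ σ : SL(2, ℝ), ∃ Y : ℝ, σ ∈ X.cusps →
      ∀ w : ℍ, |w.re| ≤ 1 → Y < w.im → ¬ ∀ i, (V.v (σ • w) i).im = 0 := by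
    intro σ
    by_cases h : σ ∈ X.cusps
    · obtain ⟨Y, hY⟩ := V.cusp_bound hnc σ h
      exact ⟨Y, fun _ => hY⟩
    · exact ⟨0, fun h' => absurd h' h⟩
  choose Y hY using hY
  -- compact boxes
  have hbox : ∀ y : ℝ, IsCompact {w : ℍ | |w.re| ≤ 1 ∧ 1 ≤ w.im ∧ w.im ≤ y} := by
    intro y
    have h1 : IsCompact ((Set.Icc (-1 : ℝ) 1) ×ℂ (Set.Icc (1 : ℝ) y)) :=
      isCompact_Icc.reProdIm isCompact_Icc
    have h2 : ((Set.Icc (-1 : ℝ) 1) ×ℂ (Set.Icc (1 : ℝ) y)) ⊆ Set.range UpperHalfPlane.coe := by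
      intro u hu
      rw [Complex.mem_reProdIm] at hu
      exact ⟨⟨u, by linarith [hu.2.1]⟩, rfl⟩
    have h3 := UpperHalfPlane.isOpenEmbedding_coe.isInducing.isCompact_preimage'
      h1 (by
        intro u hu
        exact h2 hu)
    refine h3.of_isClosed_subset ?_ ?_
    · have c1 : Continuous (fun w : ℍ => |w.re|) := UpperHalfPlane.continuous_re.abs
      have c2 : Continuous (fun w : ℍ => w.im) := UpperHalfPlane.continuous_im
      exact (isClosed_le c1 continuous_const).inter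
        ((isClosed_le continuous_const c2).inter (isClosed_le c2 continuous_const))
    · rintro w ⟨hw1, hw2, hw3⟩
      rw [Set.mem_preimage, Complex.mem_reProdIm]
      exact ⟨abs_le.mp hw1, hw2, hw3⟩
  set K' : Set ℍ := K ∪ ⋃ σ ∈ X.cusps, (fun w : ℍ => σ • w) ''
    {w : ℍ | |w.re| ≤ 1 ∧ 1 ≤ w.im ∧ w.im ≤ Y σ} with hK'
  have hK'c : IsCompact K' := by
    refine hK.union (X.cusps.isCompact_biUnion fun σ _ => (hbox (Y σ)).image ?_)
    exact continuous_const_smul σ
  refine ⟨{z | z ∈ K' ∧ ∀ i, (V.v z i).im = 0}, ?_, ?_⟩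
  · by_contra hinf
    have hinf' : Set.Infinite {z | z ∈ K' ∧ ∀ i, (V.v z i).im = 0} := hinf
    obtain ⟨z, _, hz⟩ := hinf'.exists_accPt_of_subset_isCompact hK'c (fun z hz => hz.1)
    have h1 := V.isolated hnc z
    rw [accPt_iff_frequently_nhdsNE] at hz
    obtain ⟨w, hw1, hw2⟩ := (hz.and_eventually h1).exists
    exact hw2 hw1.2
  · intro z hz
    obtain ⟨δ, hδ, h | ⟨σ, hσ, w, hw1, hw2⟩⟩ := hcov z
    · exact ⟨δ, hδ, Or.inl h, V.real_smul hδ hz⟩
    · obtain ⟨t, ht, hpar⟩ := X.parabolic σ hσ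
      set m : ℤ := -round w.re with hm
      have hδ' : t ^ m * δ ∈ X.Δ := X.Δ.mul_mem (X.Δ.zpow_mem ht m) hδ
      have e : (t ^ m * δ) • z = σ • ((m : ℝ) +ᵥ w) := by
        rw [mul_smul, hw2, smul_int_vadd' hpar]
      have hreal := V.real_smul hδ' hz
      refine ⟨t ^ m * δ, hδ', Or.inr ?_, hreal⟩
      rw [Set.mem_iUnion₂]
      refine ⟨σ, hσ, (m : ℝ) +ᵥ w, ⟨?_, ?_, ?_⟩, e.symm⟩
      · rw [UpperHalfPlane.vadd_re, hm]
        push_cast
        have := abs_sub_round w.re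
        rw [show -(round w.re : ℝ) + w.re = w.re - round w.re by ring]
        linarith
      · rw [UpperHalfPlane.vadd_im]
        exact hw1.le
      · by_contra hlt
        push Not at hlt
        refine hY σ hσ ((m : ℝ) +ᵥ w) ?_ hlt ?_
        · rw [UpperHalfPlane.vadd_re, hm]
          push_cast
          have := abs_sub_round w.re
          rw [show -(round w.re : ℝ) + w.re = w.re - round w.re by ring]
          linarith
        · intro i
          rw [← e]
          exact hreal i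

end Pool.Agent.LibRk3
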