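import Mathlib

open Complex

namespace Pool.Agent.LibRk3

private theorem schwarz_disc_im {z ζ : ℂ} (hz : 0 < z.im) (hζ : ‖ζ‖ < 1) :
    0 < ((z - (starRingEnd ℂ) z * ζ) / (1 - ζ)).im := by
  have h1 : ζ.re * ζ.re + ζ.im * ζ.im < 1 := by
    have h2 : Complex.normSq ζ < 1 := by
      rw [Complex.normSq_eq_norm_sq]
      have h0 := norm_nonneg ζ
      nlinarith
    rwa [Complex.normSq_apply] at h2
  have hne : (1 : ℂ) - ζ ≠ 0 := by
    intro h
    have : ζ = 1 := by linear_combination -h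
    rw [this] at hζ
    simp at hζ
  have hpos : 0 < Complex.normSq (1 - ζ) := Complex.normSq_pos.2 hne
  rw [Complex.div_im, ← sub_div]
  apply div_pos _ hpos
  have e1 : (z - (starRingEnd ℂ) z * ζ).im = z.im - (z.re * ζ.im - z.im * ζ.re) := by
    simp [Complex.mul_im]
    ring
  have e2 : (z - (starRingEnd ℂ) z * ζ).re = z.re - (z.re * ζ.re + z.im * ζ.im) := by
    simp [Complex.mul_re]
  have e3 : ((1 : ℂ) - ζ).re = 1 - ζ.re := by simp
  have e4 : ((1 : ℂ) - ζ).im = - ζ.im := by simp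
  rw [e1, e2, e3, e4]
  have e5 : (z.im - (z.re * ζ.im - z.im * ζ.re)) * (1 - ζ.re) -
      (z.re - (z.re * ζ.re + z.im * ζ.im)) * (-ζ.im) =
      z.im * (1 - (ζ.re * ζ.re + ζ.im * ζ.im)) := by ring
  rw [e5]
  apply mul_pos hz
  linarith

private theorem schwarz_cayley {w w0 : ℂ} (hw0 : 0 < w0.im) (hw : 0 < w.im) :
    ‖(w - w0) / (w - (starRingEnd ℂ) w0)‖ ≤ 1 := by
  have hne : w - (starRingEnd ℂ) w0 ≠ 0 := by
    intro h
    have := congrArg Complex.im h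
    simp at this
    linarith
  rw [norm_div]
  apply div_le_one_of_le₀ _ (norm_nonneg _)
  rw [← sq_le_sq₀ (norm_nonneg _) (norm_nonneg _), ← Complex.normSq_eq_norm_sq, ← Complex.normSq_eq_norm_sq,
    Complex.normSq_apply, Complex.normSq_apply]
  simp
  nlinarith

/-- Schwarz-Pick inequality for a holomorphic map of the upper half plane to itself. -/
theorem schwarz_pick {T : ℂ → ℂ} (hT : ∀ z : ℂ, 0 < z.im → DifferentiableAt ℂ T z)
    (hpos : ∀ z : ℂ, 0 < z.im → 0 < (T z).im) {z : ℂ} (hz : 0 < z.im) :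
    ‖deriv T z‖ ≤ (T z).im / z.im := by
  have H1 : ∀ ζ : ℂ, ‖ζ‖ < 1 → 0 < ((z - (starRingEnd ℂ) z * ζ) / (1 - ζ)).im :=
    fun ζ hζ => schwarz_disc_im hz hζ
  have H2 : ∀ w w0 : ℂ, 0 < w0.im → 0 < w.im → ‖(w - w0) / (w - (starRingEnd ℂ) w0)‖ ≤ 1 :=
    fun w w0 hw0 hw => schwarz_cayley hw0 hw
  have hne1 : ∀ ζ : ℂ, ‖ζ‖ < 1 → (1 : ℂ) - ζ ≠ 0 := by
    intro ζ hζ h
    have : ζ = 1 := by linear_combination -h
    rw [this] at hζ
    simp at hζ
  have hw0 := hpos z hz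
  have hne2 : ∀ w : ℂ, 0 < w.im → w - (starRingEnd ℂ) (T z) ≠ 0 := by
    intro w hw h
    have := congrArg Complex.im h
    simp at this
    linarith
  set φ : ℂ → ℂ := fun ζ => (z - (starRingEnd ℂ) z * ζ) / (1 - ζ) with hφ
  set ψ : ℂ → ℂ := fun w => (w - T z) / (w - (starRingEnd ℂ) (T z)) with hψ
  have hφ0 : φ 0 = z := by simp [hφ]
  have hψ0 : ψ (T z) = 0 := by simp [hψ]
  have hdφ : ∀ ζ : ℂ, ‖ζ‖ < 1 → HasDerivAt φ ((z - (starRingEnd ℂ) z) / (1 - ζ) ^ 2) ζ := by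
    intro ζ hζ
    have h1 : HasDerivAt (fun ζ : ℂ => z - (starRingEnd ℂ) z * ζ) (- (starRingEnd ℂ) z) ζ := by
      simpa using ((hasDerivAt_id ζ).const_mul ((starRingEnd ℂ) z)).const_sub z
    have h2 : HasDerivAt (fun ζ : ℂ => 1 - ζ) (-1) ζ := by
      simpa using (hasDerivAt_id ζ).const_sub (1 : ℂ)
    have h3 := h1.div h2 (hne1 ζ hζ)
    have e : (z - (starRingEnd ℂ) z) / (1 - ζ) ^ 2 =
        (-(starRingEnd ℂ) z * (1 - ζ) - (z - (starRingEnd ℂ) z * ζ) * -1) / (1 - ζ) ^ 2 := by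
      congr 1
      ring
    rw [e]
    exact h3
  have hdψ : ∀ w : ℂ, 0 < w.im → HasDerivAt ψ ((T z - (starRingEnd ℂ) (T z)) / (w - (starRingEnd ℂ) (T z)) ^ 2) w := by
    intro w hw
    have h1 : HasDerivAt (fun w : ℂ => w - T z) 1 w := by
      simpa using (hasDerivAt_id w).sub_const (T z)
    have h2 : HasDerivAt (fun w : ℂ => w - (starRingEnd ℂ) (T z)) 1 w := by
      simpa using (hasDerivAt_id w).sub_const ((starRingEnd ℂ) (T z))
    have h3 := h1.div h2 (hne2 w hw)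
    have e : (T z - (starRingEnd ℂ) (T z)) / (w - (starRingEnd ℂ) (T z)) ^ 2 =
        (1 * (w - (starRingEnd ℂ) (T z)) - (w - T z) * 1) / (w - (starRingEnd ℂ) (T z)) ^ 2 := by
      congr 1
      ring
    rw [e]
    exact h3
  have hdf : ∀ ζ : ℂ, ‖ζ‖ < 1 → DifferentiableAt ℂ (ψ ∘ T ∘ φ) ζ := by
    intro ζ hζ
    have a1 := (hdφ ζ hζ).differentiableAt
    have a2 := hT _ (H1 ζ hζ)
    have a3 := (hdψ _ (hpos _ (H1 ζ hζ))).differentiableAt
    exact DifferentiableAt.comp ζ a3 (DifferentiableAt.comp ζ a2 a1)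
  have hf0 : (ψ ∘ T ∘ φ) 0 = 0 := by simp [hφ0, hψ0]
  have key := Complex.norm_deriv_le_one_of_mapsTo_ball (f := ψ ∘ T ∘ φ) (c := 0) (R := 1)
    (fun ζ hζ => (hdf ζ (by simpa using hζ)).differentiableWithinAt)
    (by
      intro ζ hζ
      rw [hf0]
      simp only [Metric.mem_closedBall, dist_zero_right]
      exact H2 _ _ hw0 (hpos _ (H1 ζ (by simpa using hζ)))) one_pos
  have hder : HasDerivAt (ψ ∘ T ∘ φ) ((T z - (starRingEnd ℂ) (T z)) / (T z - (starRingEnd ℂ) (T z)) ^ 2 *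
      (deriv T z * (z - (starRingEnd ℂ) z))) 0 := by
    have b1 := hdφ 0 (by simp)
    have b2 := (hT z hz).hasDerivAt
    have b3 := hdψ (T z) hw0
    have c1 : HasDerivAt (T ∘ φ) (deriv T z * (z - (starRingEnd ℂ) z)) 0 := by
      have := HasDerivAt.comp (0:ℂ) (h₂ := T) (h := φ) (h₂' := deriv T z) (by rw [hφ0]; exact b2) b1
      simpa using this
    exact HasDerivAt.comp (0:ℂ) (h₂ := ψ) (h := T ∘ φ) (by simp only [Function.comp, hφ0]; exact b3) c1
  rw [hder.deriv] at key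
  have e1 : T z - (starRingEnd ℂ) (T z) = ((2 * (T z).im : ℝ) : ℂ) * I := by
    apply Complex.ext <;> simp
    ring
  have e2 : z - (starRingEnd ℂ) z = ((2 * z.im : ℝ) : ℂ) * I := by
    apply Complex.ext <;> simp
    ring
  rw [e1, e2] at key
  have hTim : (2 * (T z).im : ℝ) > 0 := by linarith
  rw [norm_mul, norm_div, norm_pow, norm_mul, norm_mul, norm_mul, Complex.norm_I, Complex.norm_real, Complex.norm_real,
    Real.norm_of_nonneg hTim.le, Real.norm_of_nonneg (by linarith : (0:ℝ) ≤ 2 * z.im)] at key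
  rw [le_div_iff₀ hz]
  have : (2 * (T z).im * 1) / (2 * (T z).im * 1) ^ 2 * (‖deriv T z‖ * (2 * z.im * 1)) = ‖deriv T z‖ * z.im / (T z).im := by
    field_simp
  rw [this, div_le_one hw0] at key
  exact key

end Pool.Agent.LibRk3
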