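import Pool.Agent.LibRk3.Schwarz

open Complex

namespace Pool.Agent.LibRk3

private theorem hasDerivAt_vert {T : ℂ → ℂ} (hT : ∀ z : ℂ, 0 < z.im → DifferentiableAt ℂ T z)
    (x t : ℝ) (ht : 0 < t) :
    HasDerivAt (fun s : ℝ => (T (x + s * I)).im) (deriv T (x + t * I)).re t := by
  have hz : 0 < ((x : ℂ) + t * I).im := by simpa using ht
  have h1 : HasDerivAt T (deriv T (x + t * I)) ((x : ℂ) + (t : ℂ) * I) := (hT _ hz).hasDerivAt
  have h2 : HasDerivAt (fun s : ℂ => (x : ℂ) + s * I) I (t : ℂ) := by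
    simpa using ((hasDerivAt_id (t : ℂ)).mul_const I).const_add (x : ℂ)
  have h3 : HasDerivAt (fun s : ℂ => T ((x : ℂ) + s * I)) (deriv T (x + t * I) * I) (t : ℂ) :=
    HasDerivAt.comp (t : ℂ) h1 h2
  have h4 : HasDerivAt (fun s : ℂ => (-I) * T ((x : ℂ) + s * I)) ((-I) * (deriv T (x + t * I) * I))
      (t : ℂ) := h3.const_mul _
  have h5 := h4.real_of_complex
  have e1 : (fun s : ℝ => ((-I) * T ((x : ℂ) + s * I)).re) = fun s : ℝ => (T (x + s * I)).im := by
    funext s
    simp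
  have e2 : ((-I) * (deriv T (x + t * I) * I)).re = (deriv T (x + t * I)).re := by
    have : (-I) * (deriv T (x + t * I) * I) = deriv T (x + t * I) := by
      linear_combination (-deriv T (x + t * I)) * I_mul_I
    rw [this]
  rw [e1, e2] at h5
  exact h5

/-- Along a vertical half line the imaginary part grows at most linearly. -/
theorem im_div_antitone {T : ℂ → ℂ} (hT : ∀ z : ℂ, 0 < z.im → DifferentiableAt ℂ T z)
    (hpos : ∀ z : ℂ, 0 < z.im → 0 < (T z).im) (x : ℝ) :
    AntitoneOn (fun t : ℝ => (T (x + t * I)).im / t) (Set.Ioi 0) := by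
  have hd : ∀ t : ℝ, 0 < t → HasDerivAt (fun t : ℝ => (T (x + t * I)).im / t)
      (((deriv T (x + t * I)).re * t - (T (x + t * I)).im * 1) / t ^ 2) t := by
    intro t ht
    exact (hasDerivAt_vert hT x t ht).div (hasDerivAt_id t) ht.ne'
  apply antitoneOn_of_deriv_nonpos (convex_Ioi 0)
  · intro t ht
    exact (hd t ht).continuousAt.continuousWithinAt
  · intro t ht
    rw [interior_Ioi] at ht
    exact (hd t ht).differentiableAt.differentiableWithinAt
  · intro t ht
    rw [interior_Ioi] at ht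
    have ht' : 0 < t := ht
    rw [(hd t ht').deriv]
    apply div_nonpos_of_nonpos_of_nonneg _ (sq_nonneg t)
    have hz : 0 < ((x : ℂ) + t * I).im := by simpa using ht'
    have h1 := schwarz_pick hT hpos hz
    have h2 : ((x : ℂ) + t * I).im = t := by simp
    rw [h2, le_div_iff₀ ht'] at h1
    have h3 : (deriv T (x + t * I)).re ≤ ‖deriv T (x + t * I)‖ := Complex.re_le_norm _
    nlinarith

private theorem key_alg (a b c d : ℝ) (hdet : a * d - b * c = 1) (w w1 : ℂ)
    (hw : w1 * (c * w + d) = a * w + b) (hm : 0 < w.im) (h1 : w.im ≤ 3 * w1.im)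
    (h2 : ‖w1 - w‖ ≤ 3 * w.im / 10) : (a + d) ^ 2 - 4 < 1 := by
  set n : ℝ := ‖(c : ℂ) * w + d‖ ^ 2 with hn
  have hn' : n = (c * w.re + d) ^ 2 + (c * w.im) ^ 2 := by
    rw [hn, ← Complex.normSq_eq_norm_sq, Complex.normSq_apply]
    simp
    ring
  have hre := congrArg Complex.re hw
  have him := congrArg Complex.im hw
  simp at hre him
  have hI : w1.im * n = w.im := by
    rw [hn']
    linear_combination (c * w.re + d) * him - (c * w.im) * hre + (w.im) * hdet
  have hn0 : 0 ≤ n := by rw [hn]; positivity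
  have hw1 : 0 < w1.im := by linarith
  have hn3 : n ≤ 3 := by
    by_contra hcon
    push Not at hcon
    nlinarith
  have hQ : ‖w1 - w‖ ^ 2 * n = (c * (w.re ^ 2 + w.im ^ 2) + (d - a) * w.re - b) ^ 2 +
      ((a + d) ^ 2 - 4) * w.im ^ 2 := by
    have e1 : (w1 - w) * (c * w + d) = -(c * w ^ 2 + (d - a) * w - b) := by
      linear_combination hw
    have e2 : ‖w1 - w‖ ^ 2 * n = ‖(c : ℂ) * w ^ 2 + (d - a) * w - b‖ ^ 2 := by
      rw [hn, ← mul_pow, ← norm_mul, e1, norm_neg]
    rw [e2, ← Complex.normSq_eq_norm_sq, Complex.normSq_apply]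
    simp [pow_two]
    linear_combination (-4 * w.im ^ 2) * hdet
  have h3 : ‖w1 - w‖ ^ 2 ≤ (3 * w.im / 10) ^ 2 := by
    apply pow_le_pow_left₀ (norm_nonneg _) h2
  have h4 : ‖w1 - w‖ ^ 2 * n ≤ (3 * w.im / 10) ^ 2 * 3 := by
    apply mul_le_mul h3 hn3 hn0 (by positivity)
  have h5 : ((a + d) ^ 2 - 4) * w.im ^ 2 ≤ (3 * w.im / 10) ^ 2 * 3 := by
    nlinarith [sq_nonneg (c * (w.re ^ 2 + w.im ^ 2) + (d - a) * w.re - b)]
  have h6 : 0 < w.im ^ 2 := by positivity
  by_contra hcon
  push Not at hcon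
  nlinarith

private theorem hasDerivAt_hor {T : ℂ → ℂ} (hT : ∀ z : ℂ, 0 < z.im → DifferentiableAt ℂ T z)
    (s : ℝ) : HasDerivAt (fun s : ℝ => T (s + 10 * I)) (deriv T (s + 10 * I)) s := by
  have hz : 0 < ((s : ℂ) + 10 * I).im := by simp
  have h1 : HasDerivAt T (deriv T (s + 10 * I)) ((s : ℂ) + 10 * I) := (hT _ hz).hasDerivAt
  have h2 : HasDerivAt (fun s : ℂ => s + 10 * I) 1 (s : ℂ) := by
    simpa using (hasDerivAt_id (s : ℂ)).add_const (10 * I)
  have h3 : HasDerivAt (fun s : ℂ => T (s + 10 * I)) (deriv T (s + 10 * I) * 1) (s : ℂ) :=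
    HasDerivAt.comp (s : ℂ) h1 h2
  rw [mul_one] at h3
  exact h3.comp_ofReal

private theorem hasDerivAt_hor_im {T : ℂ → ℂ}
    (hT : ∀ z : ℂ, 0 < z.im → DifferentiableAt ℂ T z) (s : ℝ) :
    HasDerivAt (fun s : ℝ => (T (s + 10 * I)).im) (deriv T (s + 10 * I)).im s := by
  have h := hasDerivAt_hor hT s
  exact (Complex.imCLM.hasFDerivAt.comp_hasDerivAt s h)

/-- The monodromy at a puncture is elliptic or parabolic. -/
theorem trace_sq_le {T : ℂ → ℂ} (hT : ∀ z : ℂ, 0 < z.im → DifferentiableAt ℂ T z)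
    (hpos : ∀ z : ℂ, 0 < z.im → 0 < (T z).im) (a b c d : ℤ) (hdet : a * d - b * c = 1)
    (h : ∀ z : ℂ, 0 < z.im → T (z + 1) * (c * T z + d) = a * T z + b) :
    (a + d) ^ 2 ≤ 4 := by
  have him : ∀ s : ℝ, ((s : ℂ) + 10 * I).im = 10 := by intro s; simp
  have hm : ∀ s : ℝ, 0 < (T (s + 10 * I)).im := fun s => hpos _ (by rw [him]; norm_num)
  have hsp : ∀ s : ℝ, ‖deriv T (s + 10 * I)‖ ≤ (T (s + 10 * I)).im / 10 := by
    intro s
    have := schwarz_pick hT hpos (z := (s : ℂ) + 10 * I) (by rw [him]; norm_num)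
    rwa [him] at this
  have hdi : ∀ s : ℝ, |(deriv T (s + 10 * I)).im| ≤ (T (s + 10 * I)).im / 10 :=
    fun s => (Complex.abs_im_le_norm _).trans (hsp s)
  -- upper bound
  have hup : Antitone (fun s : ℝ => (T (s + 10 * I)).im * Real.exp (-(s / 10))) := by
    have hd : ∀ s : ℝ, HasDerivAt (fun s : ℝ => (T (s + 10 * I)).im * Real.exp (-(s / 10)))
        ((deriv T (s + 10 * I)).im * Real.exp (-(s / 10)) +
          (T (s + 10 * I)).im * (Real.exp (-(s / 10)) * (-(1 / 10)))) s := by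
      intro s
      exact (hasDerivAt_hor_im hT s).mul (((hasDerivAt_id s).div_const 10).neg.exp)
    apply antitone_of_deriv_nonpos (fun s => (hd s).differentiableAt)
    intro s
    rw [(hd s).deriv]
    have h1 := (abs_le.1 (hdi s)).2
    have h2 : 0 < Real.exp (-(s / 10)) := Real.exp_pos _
    nlinarith
  have hlo : Monotone (fun s : ℝ => (T (s + 10 * I)).im * Real.exp (s / 10)) := by
    have hd : ∀ s : ℝ, HasDerivAt (fun s : ℝ => (T (s + 10 * I)).im * Real.exp (s / 10))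
        ((deriv T (s + 10 * I)).im * Real.exp (s / 10) +
          (T (s + 10 * I)).im * (Real.exp (s / 10) * (1 / 10))) s := by
      intro s
      exact (hasDerivAt_hor_im hT s).mul (((hasDerivAt_id s).div_const 10).exp)
    apply monotone_of_deriv_nonneg (fun s => (hd s).differentiableAt)
    intro s
    rw [(hd s).deriv]
    have h1 := (abs_le.1 (hdi s)).1
    have h2 : 0 < Real.exp (s / 10) := Real.exp_pos _
    nlinarith
  have he3 : ∀ s : ℝ, s ≤ 1 → Real.exp (s / 10) ≤ 3 := by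
    intro s hs
    have h1 : Real.exp (s / 10) ≤ Real.exp 1 := Real.exp_le_exp.2 (by linarith)
    have h2 := Real.exp_one_lt_d9
    linarith
  have hb1 : ∀ s : ℝ, 0 ≤ s → s ≤ 1 → (T (s + 10 * I)).im ≤ 3 * (T (0 + 10 * I)).im := by
    intro s hs hs1
    have h1 := hup hs
    simp only [Complex.ofReal_zero, zero_div, neg_zero, Real.exp_zero, mul_one] at h1
    have h2 : (T (s + 10 * I)).im =
        ((T (s + 10 * I)).im * Real.exp (-(s / 10))) * Real.exp (s / 10) := by
      rw [mul_assoc, ← Real.exp_add]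
      simp
    rw [h2]
    have h3 := he3 s hs1
    have h4 : 0 < Real.exp (s / 10) := Real.exp_pos _
    have h5 := hm 0
    simp only [Complex.ofReal_zero] at h5
    nlinarith
  have hb2 : (T (0 + 10 * I)).im ≤ 3 * (T (1 + 10 * I)).im := by
    have h1 := hlo (show (0 : ℝ) ≤ 1 by norm_num)
    simp only [Complex.ofReal_zero, zero_div, Real.exp_zero, mul_one, Complex.ofReal_one] at h1
    have h3 := he3 1 le_rfl
    have h5 := hm 1
    simp only [Complex.ofReal_one] at h5
    nlinarith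
  have hb3 : ‖T (1 + 10 * I) - T (0 + 10 * I)‖ ≤ 3 * (T (0 + 10 * I)).im / 10 := by
    have := norm_image_sub_le_of_norm_deriv_le_segment_01'
      (f := fun s : ℝ => T (s + 10 * I)) (f' := fun s : ℝ => deriv T (s + 10 * I))
      (C := 3 * (T (0 + 10 * I)).im / 10)
      (fun s _ => (hasDerivAt_hor hT s).hasDerivWithinAt)
      (fun s hs => by
        have h1 := hsp s
        have h2 := hb1 s hs.1 hs.2.le
        linarith)
    simpa using this
  have hh := h (0 + 10 * I) (by simp)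
  have e1 : (0 : ℂ) + 10 * I + 1 = 1 + 10 * I := by ring
  rw [e1] at hh
  have hfin := key_alg (a : ℝ) (b : ℝ) (c : ℝ) (d : ℝ) (by exact_mod_cast hdet)
    (T (0 + 10 * I)) (T (1 + 10 * I)) (by exact_mod_cast hh) (by simpa using hm 0) hb2 hb3
  have h7 : (((a + d) ^ 2 - 4 : ℤ) : ℝ) < ((1 : ℤ) : ℝ) := by
    push_cast
    exact hfin
  have h8 := Int.cast_lt.1 h7
  omega

end Pool.Agent.LibRk3
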